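import Pool.Agent.Helper53.CL.F.FDefs

/-!
# CL-F00: basic facts on `tau` and on the measure `V μ m` (easy)

`tau m z = (-conj (m z))^(1/2)` is measurable (`Measurable.pow_const` or measurability of `Complex.cpow`), has norm one if
`‖m z‖ = 1` (`Complex.norm_cpow_...`, or from the square), and its square is `-conj (m z)` (`Complex.cpow_nat_inv_pow`).
`V` is half the sum of two push forwards under measurable maps.
-/

namespace Pool.Agent.Helper53.CL.F

open MeasureTheory Filter Topology Metric Set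
open scoped ContDiff Real ENNReal

theorem measurable_tau {m : ℂ → ℂ} (hm : Measurable m) : Measurable (tau m) := by
  unfold tau
  have h1 : Measurable (fun z => -(starRingEnd ℂ) (m z)) :=
    (Complex.continuous_conj.measurable.comp hm).neg
  exact h1.pow_const _

theorem tau_sq (m : ℂ → ℂ) (z : ℂ) : tau m z ^ 2 = -(starRingEnd ℂ) (m z) := by
  unfold tau
  exact Complex.cpow_nat_inv_pow _ two_ne_zero

theorem norm_tau {m : ℂ → ℂ} (hm : ∀ z, ‖m z‖ = 1) (z : ℂ) : ‖tau m z‖ = 1 := by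
  have h := congrArg norm (tau_sq m z)
  rw [norm_pow, norm_neg, RCLike.norm_conj, hm z] at h
  exact (pow_eq_one_iff_of_nonneg (norm_nonneg _) two_ne_zero).mp h

variable {μ : Measure ℂ} [IsFiniteMeasure μ] {m : ℂ → ℂ}

private theorem meas_plus {m : ℂ → ℂ} (hm : Measurable m) : Measurable (fun z : ℂ => (z, tau m z)) :=
  measurable_id.prodMk (measurable_tau hm)

private theorem meas_minus {m : ℂ → ℂ} (hm : Measurable m) : Measurable (fun z : ℂ => (z, -tau m z)) :=
  measurable_id.prodMk (measurable_tau hm).neg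

private theorem half_ne_zero' : (2⁻¹ : ℝ≥0∞) ≠ 0 := by simp

private theorem half_ne_top : (2⁻¹ : ℝ≥0∞) ≠ ⊤ := by simp

theorem V_finite : IsFiniteMeasure (V μ m) := by
  unfold V
  exact Measure.smul_finite _ half_ne_top

/-- Almost everywhere statements on `V`, one direction, without measurability. -/
theorem ae_of_ae_V (hm : Measurable m) {P : ℂ × ℂ → Prop} (h : ∀ᵐ q ∂(V μ m), P q) :
    ∀ᵐ z ∂μ, P (z, tau m z) ∧ P (z, -tau m z) := by
  unfold V at h
  rw [Measure.ae_ennreal_smul_measure_iff half_ne_zero', ae_add_measure_iff] at h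
  have h1 := ae_of_ae_map (meas_plus hm).aemeasurable h.1
  have h2 := ae_of_ae_map (meas_minus hm).aemeasurable h.2
  filter_upwards [h1, h2] with z a b using ⟨a, b⟩

theorem ae_V_iff (hm : Measurable m) {P : ℂ × ℂ → Prop} (hP : MeasurableSet {q | P q}) :
    (∀ᵐ q ∂(V μ m), P q) ↔ ∀ᵐ z ∂μ, P (z, tau m z) ∧ P (z, -tau m z) := by
  refine ⟨ae_of_ae_V hm, fun h => ?_⟩
  unfold V
  rw [Measure.ae_ennreal_smul_measure_iff half_ne_zero', ae_add_measure_iff,
    ae_map_iff (meas_plus hm).aemeasurable hP, ae_map_iff (meas_minus hm).aemeasurable hP]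
  exact ⟨h.mono fun z a => a.1, h.mono fun z a => a.2⟩

theorem V_unit (hm : Measurable m) (h1 : ∀ z, ‖m z‖ = 1) : ∀ᵐ q ∂(V μ m), ‖q.2‖ = 1 := by
  have hB : MeasurableSet {q : ℂ × ℂ | ‖q.2‖ = 1} := measurable_snd.norm (measurableSet_singleton (1 : ℝ))
  rw [ae_V_iff hm hB]
  refine Eventually.of_forall fun z => ⟨norm_tau h1 z, ?_⟩
  change ‖-tau m z‖ = 1
  rw [norm_neg]
  exact norm_tau h1 z

theorem V_apply (hm : Measurable m) {B : Set (ℂ × ℂ)} (hB : MeasurableSet B) :
    V μ m B = 2⁻¹ * (μ {z | (z, tau m z) ∈ B} + μ {z | (z, -tau m z) ∈ B}) := by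
  unfold V
  rw [Measure.smul_apply, Measure.add_apply, Measure.map_apply (meas_plus hm) hB,
    Measure.map_apply (meas_minus hm) hB, smul_eq_mul]
  rfl

theorem V_fst (hm : Measurable m) {B : Set ℂ} (hB : MeasurableSet B) : V μ m (Prod.fst ⁻¹' B) = μ B := by
  rw [V_apply hm (measurable_fst hB)]
  have e1 : {z : ℂ | (z, tau m z) ∈ (Prod.fst ⁻¹' B : Set (ℂ × ℂ))} = B := rfl
  have e2 : {z : ℂ | (z, -tau m z) ∈ (Prod.fst ⁻¹' B : Set (ℂ × ℂ))} = B := rfl
  rw [e1, e2, ← two_mul, ← mul_assoc, ENNReal.inv_mul_cancel two_ne_zero ENNReal.ofNat_ne_top, one_mul]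

theorem integral_V {E : Type*} [NormedAddCommGroup E] [NormedSpace ℝ E] (hm : Measurable m) {f : ℂ × ℂ → E}
    (hf : Integrable f (V μ m)) :
    Integrable (fun z => f (z, tau m z)) μ ∧ Integrable (fun z => f (z, -tau m z)) μ ∧
      ∫ q, f q ∂(V μ m) = (2⁻¹ : ℝ) • (∫ z, f (z, tau m z) ∂μ + ∫ z, f (z, -tau m z) ∂μ) := by
  unfold V at hf ⊢
  rw [integrable_smul_measure half_ne_zero' half_ne_top, integrable_add_measure] at hf
  have i1 := hf.1.comp_measurable (meas_plus hm)
  have i2 := hf.2.comp_measurable (meas_minus hm)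
  refine ⟨i1, i2, ?_⟩
  rw [integral_smul_measure, integral_add_measure hf.1 hf.2,
    integral_map (meas_plus hm).aemeasurable hf.1.aestronglyMeasurable,
    integral_map (meas_minus hm).aemeasurable hf.2.aestronglyMeasurable]
  simp

end Pool.Agent.Helper53.CL.F
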