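import Pool.Agent.Helper53.CL.F.F00

/-!
# CL-F01: the laws of odd order as the invariance of `V`, tested with `ψ(z) ζ^n` (about 250 lines)

Write `ζ = q.2`, `|ζ| = 1` on `V`.  `X(ψ ζ^n) = (Dψ)(a^(-1/2) ζ) ζ^n + ψ n i rot ζ^n`, `Dψ(w) = w ∂ψ + conj(w) ∂̄ψ`
(`∂ = dz`, `∂̄ = dzb` of the complexified `ψ`), `rot = -a^(-1/2) Im((∂ log a) ζ)`.

Even `n`: the integrand is odd under `ζ ↦ -ζ` (`(Dψ)(a^(-1/2) ζ)` and `rot` are odd, `ζ^n` is even) and `V` is the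
half sum over `ζ = ±tau m z` (`integral_V`; the integrand is bounded and measurable: `ψ` has compact support in `ball 0 2`,
where `a` and `∂ log a` are continuous), so the integral is `0`.

`n = -k`, `k ≥ 1` odd.  `i k rot`... : `-i k rot = (k/2) a^(-1/2) ((∂ log a) ζ - conj((∂ log a) ζ))`, and `conj ζ = ζ⁻¹`.  So
`X(ψ ζ^(-k)) = a^(-1/2) (ζ^(1-k) (∂ψ + (k/2) (∂ log a) ψ) + ζ^(-1-k) (∂̄ψ - (k/2) conj(∂ log a) ψ))`.
Put `ψ' = a^(-k/2) ψ` (smooth with compact support in `ball 0 2`, `a^(s) = exp(s log a)`): `∂ψ + (k/2)(∂ log a) ψ =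
a^(k/2) (∂ψ' + k (∂ log a) ψ')`, `∂̄ψ - (k/2) conj(∂ log a) ψ = a^(k/2) ∂̄ψ'`.  On `V`: `ζ^(-2) = (tau^2)⁻¹ = -m`
(as `|m| = 1`), so `ζ^(1-k) = (-m)^((k-1)/2)`, `ζ^(-1-k) = (-m)^((k+1)/2)` and
`X(ψ ζ^(-k)) = -(-1)^((k-1)/2) a^((k-1)/2) (m^((k+1)/2) ∂̄ψ' - m^((k-1)/2) ∂ψ' - k (∂ log a) m^((k-1)/2) ψ')`,
the same for both signs of `ζ`, and the integral vanishes by `Law a μ m k` with `f = ψ'`.

`n = k ≥ 1` odd: the conjugate of the case `n = -k` (`ψ` real, `conj ζ^(-k) = ζ^k`).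
-/

namespace Pool.Agent.Helper53.CL.F

open MeasureTheory Filter Topology Metric Set
open scoped ContDiff Real ENNReal

/-- The integrand. -/
private noncomputable def FI (a : ℂ → ℝ) (ψ : ℂ → ℝ) (n : ℤ) (q : ℂ × ℂ) : ℂ :=
  (((fderiv ℝ ψ q.1 (gf a q).1 : ℝ) : ℂ) * q.2 ^ n + ψ q.1 * (n * Complex.I * rot a q) * q.2 ^ n)

private lemma FI_neg (a : ℂ → ℝ) (ψ : ℂ → ℝ) (n : ℤ) (z ζ : ℂ) :
    FI a ψ n (z, -ζ) = -((((fderiv ℝ ψ z (gf a (z, ζ)).1 : ℝ) : ℂ) * (-ζ) ^ n +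
      ψ z * (n * Complex.I * rot a (z, ζ)) * (-ζ) ^ n)) := by
  have h1 : (gf a (z, -ζ)).1 = -(gf a (z, ζ)).1 := by
    simp [gf]
  have h2 : rot a (z, -ζ) = -rot a (z, ζ) := by
    unfold rot
    simp only [mul_neg, Complex.neg_im]
  unfold FI
  simp only [h1, h2, map_neg]
  push_cast
  ring

private lemma FI_even (a : ℂ → ℝ) (ψ : ℂ → ℝ) (n : ℤ) (hn : Even n) (z ζ : ℂ) :
    FI a ψ n (z, -ζ) = -FI a ψ n (z, ζ) := by
  rw [FI_neg, hn.neg_zpow]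
  rfl

private lemma FI_odd (a : ℂ → ℝ) (ψ : ℂ → ℝ) (n : ℤ) (hn : Odd n) (z ζ : ℂ) :
    FI a ψ n (z, -ζ) = FI a ψ n (z, ζ) := by
  rw [FI_neg, hn.neg_zpow]
  unfold FI
  ring

private lemma FI_conj (a : ℂ → ℝ) (ψ : ℂ → ℝ) (n : ℤ) (z ζ : ℂ) (hζ : ‖ζ‖ = 1) :
    FI a ψ (-n) (z, ζ) = (starRingEnd ℂ) (FI a ψ n (z, ζ)) := by
  unfold FI
  have h0 : ζ * (starRingEnd ℂ) ζ = 1 := by
    rw [Complex.mul_conj, Complex.normSq_eq_norm_sq, hζ]
    simp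
  have h1 : (starRingEnd ℂ) ζ = ζ⁻¹ := (eq_inv_of_mul_eq_one_right h0)
  simp only [map_add, map_mul, map_zpow₀, Complex.conj_ofReal, Complex.conj_I, map_intCast, h1,
    inv_zpow']
  push_cast
  ring

/-- The law test function. -/
private noncomputable def tf (a ψ : ℂ → ℝ) (k : ℕ) (z : ℂ) : ℝ :=
  Real.exp (-((k : ℝ) / 2) * Real.log (a z)) * ψ z

private lemma log_hasFDerivAt {a : ℂ → ℝ} (ha : ContDiffOn ℝ ∞ a (ball 0 3))
    (hp : ∀ z ∈ ball (0 : ℂ) 3, 0 < a z) {z : ℂ} (hz : z ∈ ball (0 : ℂ) 3) :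
    ContDiffAt ℝ ∞ (fun z => Real.log (a z)) z := by
  have h1 : ContDiffAt ℝ ∞ a z := ha.contDiffAt (isOpen_ball.mem_nhds hz)
  exact h1.log (hp z hz).ne'

private lemma tf_tsupport (a ψ : ℂ → ℝ) (k : ℕ) :
    tsupport (fun z => ((tf a ψ k z : ℝ) : ℂ)) ⊆ tsupport ψ := by
  refine closure_mono ?_
  intro z hz
  rw [Function.mem_support] at hz ⊢
  intro h
  apply hz
  simp [tf, h]

private lemma tf_smooth {a ψ : ℂ → ℝ} (ha : ContDiffOn ℝ ∞ a (ball 0 3))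
    (hp : ∀ z ∈ ball (0 : ℂ) 3, 0 < a z) (hψ : ContDiff ℝ ∞ ψ) (hs : tsupport ψ ⊆ ball 0 2)
    (k : ℕ) : ContDiff ℝ ∞ (fun z => ((tf a ψ k z : ℝ) : ℂ)) := by
  rw [contDiff_iff_contDiffAt]
  intro z
  by_cases hz : z ∈ tsupport ψ
  · have hz3 : z ∈ ball (0 : ℂ) 3 := ball_subset_ball (by norm_num) (hs hz)
    have h1 := log_hasFDerivAt ha hp hz3
    have h2 : ContDiffAt ℝ ∞ (fun z => tf a ψ k z) z :=
      ((contDiffAt_const.mul h1).exp).mul hψ.contDiffAt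
    exact Complex.ofRealCLM.contDiff.contDiffAt.comp z h2
  · have h1 : (fun z => ((tf a ψ k z : ℝ) : ℂ)) =ᶠ[𝓝 z] fun _ => 0 := by
      have : (tsupport ψ)ᶜ ∈ 𝓝 z := (isClosed_tsupport ψ).isOpen_compl.mem_nhds hz
      filter_upwards [this] with y hy
      have : ψ y = 0 := image_eq_zero_of_notMem_tsupport hy
      simp [tf, this]
    exact contDiffAt_const.congr_of_eventuallyEq h1

private lemma cast_dir {g : ℂ → ℝ} {z : ℂ} {g' : ℂ →L[ℝ] ℝ} (hg : HasFDerivAt g g' z) (v : ℂ) :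
    fderiv ℝ (fun z => ((g z : ℝ) : ℂ)) z v = ((g' v : ℝ) : ℂ) := by
  have h1 : HasFDerivAt (fun z => ((g z : ℝ) : ℂ)) (Complex.ofRealCLM.comp g') z :=
    Complex.ofRealCLM.hasFDerivAt.comp z hg
  rw [h1.fderiv]
  rfl

private lemma tf_hasFDerivAt {a ψ : ℂ → ℝ} {z : ℂ} {L' P' : ℂ →L[ℝ] ℝ}
    (hL : HasFDerivAt (fun z => Real.log (a z)) L' z) (hP : HasFDerivAt ψ P' z) (k : ℕ) :
    HasFDerivAt (tf a ψ k) (Real.exp (-((k : ℝ) / 2) * Real.log (a z)) •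
      (P' - (((k : ℝ) / 2) * ψ z) • L')) z := by
  have h1 := ((hL.const_mul (-((k : ℝ) / 2))).exp).mul hP
  refine h1.congr_fderiv ?_
  ext v
  simp
  ring

private lemma FI_key {a ψ : ℂ → ℝ} {m : ℂ → ℂ} (ha : ContDiffOn ℝ ∞ a (ball 0 3))
    (hp : ∀ z ∈ ball (0 : ℂ) 3, 0 < a z) (hψ : ContDiff ℝ ∞ ψ) (hs : tsupport ψ ⊆ ball 0 2)
    (p : ℕ) (z ζ : ℂ) (hζ : ‖ζ‖ = 1) (hζm : ζ ^ 2 = -(starRingEnd ℂ) (m z)) :
    FI a ψ (-((2 * p + 1 : ℕ) : ℤ)) (z, ζ) = -(-1) ^ p *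
      (m z ^ ((2 * p + 1 + 1) / 2) * (a z : ℂ) ^ ((2 * p + 1 - 1) / 2) *
          dzb (fun z => ((tf a ψ (2 * p + 1) z : ℝ) : ℂ)) z -
        m z ^ ((2 * p + 1 - 1) / 2) * (a z : ℂ) ^ ((2 * p + 1 - 1) / 2) *
          dz (fun z => ((tf a ψ (2 * p + 1) z : ℝ) : ℂ)) z -
        (2 * p + 1 : ℕ) * dz (fun z => (Real.log (a z) : ℂ)) z * m z ^ ((2 * p + 1 - 1) / 2) *
          (a z : ℂ) ^ ((2 * p + 1 - 1) / 2) * ((tf a ψ (2 * p + 1) z : ℝ) : ℂ)) := by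
  rw [show (2 * p + 1 + 1) / 2 = p + 1 by omega, show (2 * p + 1 - 1) / 2 = p by omega]
  by_cases hz : z ∈ tsupport ψ
  · have hz3 : z ∈ ball (0 : ℂ) 3 := ball_subset_ball (by norm_num) (hs hz)
    have hpos := hp z hz3
    have hL : HasFDerivAt (fun z => Real.log (a z)) (fderiv ℝ (fun z => Real.log (a z)) z) z :=
      ((log_hasFDerivAt ha hp hz3).differentiableAt (by simp)).hasFDerivAt
    have hP : HasFDerivAt ψ (fderiv ℝ ψ z) z :=
      (hψ.contDiffAt.differentiableAt (by simp)).hasFDerivAt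
    have hT := tf_hasFDerivAt hL hP (2 * p + 1)
    have hm : (starRingEnd ℂ) ζ ^ 2 = - m z := by
      rw [← map_pow, hζm, map_neg, Complex.conj_conj]
    have h0 : ζ * (starRingEnd ℂ) ζ = 1 := by
      rw [Complex.mul_conj, Complex.normSq_eq_norm_sq, hζ]
      simp
    have h1 : ζ⁻¹ = (starRingEnd ℂ) ζ := (eq_inv_of_mul_eq_one_right h0).symm
    have hX : ζ ^ (-((2 * p + 1 : ℕ) : ℤ)) = (starRingEnd ℂ) ζ ^ (2 * p + 1) := by
      rw [zpow_neg, zpow_natCast, ← inv_pow, h1]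
    have hA : ζ * ζ ^ (-((2 * p + 1 : ℕ) : ℤ)) = (-m z) ^ p := by
      rw [hX, pow_succ, pow_mul, hm]
      linear_combination (-m z) ^ p * h0
    have hB : (starRingEnd ℂ) ζ * ζ ^ (-((2 * p + 1 : ℕ) : ℤ)) = (-m z) ^ (p + 1) := by
      rw [hX, pow_succ (-m z), ← hm]
      ring
    have hs' : (((√(a z))⁻¹ : ℝ) : ℂ) =
        ((Real.exp (-(((2 * p + 1 : ℕ) : ℝ) / 2) * Real.log (a z)) : ℝ) : ℂ) *
          (a z : ℂ) ^ p := by
      have : (√(a z))⁻¹ =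
          Real.exp (-(((2 * p + 1 : ℕ) : ℝ) / 2) * Real.log (a z)) * a z ^ p := by
        have e1 : a z ^ p = Real.exp (p * Real.log (a z)) := by
          rw [mul_comm, Real.exp_mul, Real.exp_log hpos, Real.rpow_natCast]
        have e2 : √(a z) = Real.exp (1 / 2 * Real.log (a z)) := by
          rw [mul_comm, Real.exp_mul, Real.exp_log hpos, ← Real.sqrt_eq_rpow]
        rw [e1, e2, ← Real.exp_neg, ← Real.exp_add]
        congr 1
        push_cast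
        ring
      rw [this]
      push_cast
      ring
    have hdir : fderiv ℝ ψ z ((((√(a z))⁻¹ : ℝ) : ℂ) * ζ) =
        (√(a z))⁻¹ * (ζ.re * fderiv ℝ ψ z 1 + ζ.im * fderiv ℝ ψ z Complex.I) := by
      have e1 : (((√(a z))⁻¹ : ℝ) : ℂ) * ζ =
          (√(a z))⁻¹ • (ζ.re • (1 : ℂ) + ζ.im • Complex.I) := by
        rw [Complex.real_smul, Complex.real_smul, Complex.real_smul, mul_one, Complex.re_add_im]
      rw [e1, map_smul, map_add, map_smul, map_smul]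
      simp
    set E : ℝ := Real.exp (-(((2 * p + 1 : ℕ) : ℝ) / 2) * Real.log (a z)) with hE
    have hTv : ∀ v : ℂ, fderiv ℝ (fun z => ((tf a ψ (2 * p + 1) z : ℝ) : ℂ)) z v =
        (E : ℂ) * ((fderiv ℝ ψ z v : ℝ) - (2 * p + 1) / 2 * (ψ z : ℂ) *
          (fderiv ℝ (fun z => Real.log (a z)) z v : ℝ)) := by
      intro v
      rw [cast_dir hT]
      simp only [ContinuousLinearMap.smul_apply, ContinuousLinearMap.sub_apply, smul_eq_mul]
      push_cast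
      rfl
    unfold FI rot gf lgz dz dzb dx dy
    simp only [cast_dir hL, hTv, hdir]
    set s : ℝ := (√(a z))⁻¹ with hsdef
    set P := fderiv ℝ ψ z 1
    set Q := fderiv ℝ ψ z Complex.I
    set A := fderiv ℝ (fun z => Real.log (a z)) z 1
    set B := fderiv ℝ (fun z => Real.log (a z)) z Complex.I
    set Y := ζ ^ (-((2 * p + 1 : ℕ) : ℤ)) with hY
    have htf : tf a ψ (2 * p + 1) z = E * ψ z := rfl
    rw [htf]
    have hI : ∀ x : ℂ, x / (2 * Complex.I) = -(Complex.I * x) / 2 := by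
      intro x
      have h2 := Complex.I_sq
      field_simp
      linear_combination x * h2
    have him : ((((A : ℂ) - Complex.I * (B : ℂ)) / 2 * ζ).im : ℂ) =
        -(Complex.I * (((A : ℂ) - Complex.I * (B : ℂ)) / 2 * ζ -
          ((A : ℂ) + Complex.I * (B : ℂ)) / 2 * (starRingEnd ℂ) ζ)) / 2 := by
      rw [Complex.im_eq_sub_conj, hI, map_mul, map_div₀, map_sub, map_mul, Complex.conj_ofReal,
        Complex.conj_ofReal, Complex.conj_I, Complex.conj_ofNat]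
      ring
    have hA' : ζ * Y = (-1) ^ p * m z ^ p := by rw [hA, neg_pow]
    have hB' : (starRingEnd ℂ) ζ * Y = (-1) ^ (p + 1) * m z ^ (p + 1) := by rw [hB, neg_pow]
    push_cast
    rw [him, Complex.re_eq_add_conj, Complex.im_eq_sub_conj, hI, hs']
    linear_combination ((E : ℂ) * (a z : ℂ) ^ p) * (((P : ℂ) - Complex.I * Q) / 2 +
        (ψ z : ℂ) * (2 * p + 1) / 2 * (((A : ℂ) - Complex.I * B) / 2)) * hA' +
      ((E : ℂ) * (a z : ℂ) ^ p) * (((P : ℂ) + Complex.I * Q) / 2 -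
        (ψ z : ℂ) * (2 * p + 1) / 2 * (((A : ℂ) + Complex.I * B) / 2)) * hB' +
      (-((ψ z : ℂ) * (2 * p + 1) * ((E : ℂ) * (a z : ℂ) ^ p) *
        (((A : ℂ) - Complex.I * (B : ℂ)) / 2 * ζ -
          ((A : ℂ) + Complex.I * (B : ℂ)) / 2 * (starRingEnd ℂ) ζ) * Y / 2)) * Complex.I_sq
  · have hev : ψ =ᶠ[𝓝 z] fun _ => 0 := by
      have : (tsupport ψ)ᶜ ∈ 𝓝 z := (isClosed_tsupport ψ).isOpen_compl.mem_nhds hz
      filter_upwards [this] with y hy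
      exact image_eq_zero_of_notMem_tsupport hy
    have hev2 : (fun z => ((tf a ψ (2 * p + 1) z : ℝ) : ℂ)) =ᶠ[𝓝 z] fun _ => 0 := by
      filter_upwards [hev] with y hy
      simp [tf, hy]
    have h1 : ψ z = 0 := hev.eq_of_nhds
    have h2 : fderiv ℝ ψ z = 0 := by
      rw [hev.fderiv_eq]
      simp
    have h3 : fderiv ℝ (fun z => ((tf a ψ (2 * p + 1) z : ℝ) : ℂ)) z = 0 := by
      rw [hev2.fderiv_eq]
      simp
    have h4 : tf a ψ (2 * p + 1) z = 0 := by simp [tf, h1]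
    unfold FI dz dzb dx dy
    simp only [h1, h2, h3, h4]
    simp

theorem dir_test {a : ℂ → ℝ} {μ : Measure ℂ} {m : ℂ → ℂ} (hD : Dat a μ m) {ψ : ℂ → ℝ} (hψ : ContDiff ℝ ∞ ψ)
    (hc : HasCompactSupport ψ) (hs : tsupport ψ ⊆ ball 0 2) (n : ℤ) :
    ∫ q, (((fderiv ℝ ψ q.1 (gf a q).1 : ℝ) : ℂ) * q.2 ^ n + ψ q.1 * (n * Complex.I * rot a q) * q.2 ^ n) ∂(V μ m)
      = 0 := by
  have key : ∀ p : ℕ, ∫ z, FI a ψ (-((2 * p + 1 : ℕ) : ℤ)) (z, tau m z) ∂μ = 0 := by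
    intro p
    have h1 : ∀ z, FI a ψ (-((2 * p + 1 : ℕ) : ℤ)) (z, tau m z) = _ := fun z =>
      FI_key hD.a_smooth hD.a_pos hψ hs p z (tau m z) (norm_tau hD.m_norm z) (tau_sq m z)
    simp_rw [h1]
    rw [integral_const_mul]
    have h2 := hD.laws (2 * p + 1) ⟨p, rfl⟩ (fun z => ((tf a ψ (2 * p + 1) z : ℝ) : ℂ))
      (tf_smooth hD.a_smooth hD.a_pos hψ hs _)
      (hc.of_isClosed_subset (isClosed_tsupport _) (tf_tsupport a ψ _))
      ((tf_tsupport a ψ _).trans hs)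
    rw [h2, mul_zero]
  have key2 : ∀ p : ℕ, ∫ z, FI a ψ (((2 * p + 1 : ℕ) : ℤ)) (z, tau m z) ∂μ = 0 := by
    intro p
    have h1 : ∀ z, FI a ψ (((2 * p + 1 : ℕ) : ℤ)) (z, tau m z) =
        (starRingEnd ℂ) (FI a ψ (-((2 * p + 1 : ℕ) : ℤ)) (z, tau m z)) := by
      intro z
      rw [← FI_conj a ψ _ z (tau m z) (norm_tau hD.m_norm z), neg_neg]
    simp_rw [h1]
    rw [integral_conj, key, map_zero]
  show ∫ q, FI a ψ n q ∂(V μ m) = 0
  haveI := hD.fin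
  by_cases hF : Integrable (FI a ψ n) (V μ m)
  · obtain ⟨i1, i2, i3⟩ := integral_V hD.m_meas hF
    rw [i3]
    rcases Int.even_or_odd n with hn | hn
    · simp_rw [FI_even a ψ n hn]
      rw [integral_neg, add_neg_cancel, smul_zero]
    · have h0 : ∫ z, FI a ψ n (z, tau m z) ∂μ = 0 := by
        obtain ⟨p, hp⟩ := Int.natAbs_odd.mpr hn
        rcases Int.natAbs_eq n with h | h
        · rw [h, hp]
          exact key2 p
        · rw [h, hp]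
          exact key p
      simp_rw [FI_odd a ψ n hn]
      rw [h0, add_zero, smul_zero]
  · exact integral_undef hF

end Pool.Agent.Helper53.CL.F
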