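import Mathlib

/-!
# CL-F02a: Fourier series of a smooth function on the unit circle (independent, about 150 lines)

`G θ = g (exp (iθ))` is smooth and `2π` periodic.  Let `c n` be its Fourier coefficients (`fourierCoeffOn` on `[0, 2π]` or
`fourierCoeff` on `AddCircle (2π)`).  Integrating by parts three times (`fourierCoeffOn_of_hasDerivAt`, the boundary terms
cancel by periodicity) gives `‖c n‖ ≤ C / |n|^3`, so `∑ (1 + |n|) ‖c n‖ < ∞`.  `has_pointwise_sum_fourier_series_of_summable`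
(or `hasSum_fourier_series_of_summable`) gives `G θ = ∑ c n exp (i n θ)`, term by term differentiation (`hasDerivAt_tsum`)
gives `G' θ = ∑ c n (i n) exp (i n θ)`, and `G' θ = Dg(ζ)(i ζ)` for `ζ = exp (iθ)`.
-/

namespace Pool.Agent.Helper53.CL.F

open scoped ContDiff Real
open MeasureTheory

/-- Fourier coefficients -/
private noncomputable def cf (F : ℝ → ℂ) (n : ℤ) : ℂ :=
  (1 / (2 * π) : ℝ) • ∫ x in (0 : ℝ)..(2 * π), Complex.exp (-(n * x : ℝ) * Complex.I) * F x

private lemma hasDeriv_e (n : ℤ) (x : ℝ) :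
    HasDerivAt (fun x : ℝ => Complex.exp (-(n * x : ℝ) * Complex.I))
      (-(n * Complex.I) * Complex.exp (-(n * x : ℝ) * Complex.I)) x := by
  have h1 : HasDerivAt (fun x : ℝ => (-(n * x : ℝ) * Complex.I : ℂ)) (-(n * Complex.I)) x := by
    have h2 : HasDerivAt (fun x : ℝ => ((n * x : ℝ) : ℂ)) ((n : ℝ) : ℂ) x := by
      have := ((hasDerivAt_id x).const_mul (n : ℝ)).ofReal_comp
      simpa using this
    have h3 : HasDerivAt (fun x : ℝ => (-(n * x : ℝ) * Complex.I : ℂ))
        (-((n : ℝ) : ℂ) * Complex.I) x := h2.neg.mul_const Complex.I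
    exact h3.congr_deriv (by push_cast; ring)
  have h4 := h1.cexp
  convert h4 using 1
  ring

private lemma cf_deriv {F F' : ℝ → ℂ} (hF : ∀ x, HasDerivAt F (F' x) x) (hc : Continuous F')
    (hp : F (2 * π) = F 0) (n : ℤ) : cf F' n = cf F n * (n * Complex.I) := by
  unfold cf
  have hFc : Continuous F := continuous_iff_continuousAt.2 fun x => (hF x).continuousAt
  have h1 := intervalIntegral.integral_mul_deriv_eq_deriv_mul (a := 0) (b := 2 * π)
    (u := fun x : ℝ => Complex.exp (-(n * x : ℝ) * Complex.I)) (v := F)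
    (u' := fun x : ℝ => -(n * Complex.I) * Complex.exp (-(n * x : ℝ) * Complex.I)) (v' := F')
    (fun x _ => hasDeriv_e n x) (fun x _ => hF x)
    (Continuous.intervalIntegrable (by fun_prop) _ _) (hc.intervalIntegrable _ _)
  rw [h1]
  have h2 : Complex.exp (-((n : ℝ) * (2 * π) : ℝ) * Complex.I) = 1 := by
    rw [Complex.exp_eq_one_iff]
    refine ⟨-n, ?_⟩
    push_cast; ring
  have h3 : Complex.exp (-((n : ℝ) * (0 : ℝ) : ℝ) * Complex.I) = 1 := by simp
  simp only [h2, h3, hp, one_mul, sub_self, zero_sub]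
  have h4 : ∀ x : ℝ, -(n * Complex.I) * Complex.exp (-(n * x : ℝ) * Complex.I) * F x =
      -(n * Complex.I) * (Complex.exp (-(n * x : ℝ) * Complex.I) * F x) := fun x => by ring
  simp_rw [h4]
  rw [intervalIntegral.integral_const_mul]
  simp only [neg_mul, neg_neg, Complex.real_smul]
  ring

private lemma cf_bound {F : ℝ → ℂ} {M : ℝ} (hM : ∀ x, ‖F x‖ ≤ M) (n : ℤ) : ‖cf F n‖ ≤ M := by
  unfold cf
  rw [norm_smul]
  have h1 : ‖∫ x in (0 : ℝ)..(2 * π), Complex.exp (-(n * x : ℝ) * Complex.I) * F x‖ ≤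
      M * |2 * π - 0| := by
    refine intervalIntegral.norm_integral_le_of_norm_le_const fun x _ => ?_
    rw [norm_mul, ← Complex.ofReal_neg, Complex.norm_exp_ofReal_mul_I, one_mul]
    exact hM x
  have h2 : ‖(1 / (2 * π) : ℝ)‖ = 1 / (2 * π) := Real.norm_of_nonneg (by positivity)
  rw [h2]
  rw [sub_zero, abs_of_pos (by positivity)] at h1
  calc 1 / (2 * π) * ‖∫ x in (0 : ℝ)..(2 * π), Complex.exp (-(n * x : ℝ) * Complex.I) * F x‖
      ≤ 1 / (2 * π) * (M * (2 * π)) := mul_le_mul_of_nonneg_left h1 (by positivity)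
    _ = M := by field_simp

private lemma cf_sum {F : ℝ → ℂ} (hF : Continuous F) (hp : Function.Periodic F (2 * π))
    (hs : Summable (cf F)) (θ : ℝ) :
    HasSum (fun n : ℤ => cf F n * Complex.exp (θ * Complex.I) ^ n) (F θ) := by
  have : Fact (0 < 2 * π) := ⟨by positivity⟩
  set f : C(AddCircle (2 * π), ℂ) := ⟨hp.lift, continuous_coinduced_dom.mpr hF⟩ with hf
  have hfx : ∀ x : ℝ, f (x : AddCircle (2 * π)) = F x := fun x => rfl
  have h1 : ∀ n, fourierCoeff f n = cf F n := by
    intro n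
    rw [fourierCoeff_eq_intervalIntegral f n 0]
    unfold cf
    rw [zero_add]
    congr 1
    refine intervalIntegral.integral_congr fun x _ => ?_
    show fourier (-n) (x : AddCircle (2 * π)) • f (x : AddCircle (2 * π)) = _
    rw [hfx, fourier_coe_apply, smul_eq_mul]
    congr 2
    push_cast
    field_simp
  have h2 : Summable (fourierCoeff f) := by
    have : fourierCoeff f = cf F := funext h1
    rw [this]; exact hs
  have h3 := has_pointwise_sum_fourier_series_of_summable h2 (θ : AddCircle (2 * π))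
  rw [hfx] at h3
  convert h3 using 1
  funext n
  rw [h1, smul_eq_mul, fourier_coe_apply, ← Complex.exp_int_mul]
  congr 2
  push_cast
  field_simp

private lemma exists_bound {F : ℝ → ℂ} (hF : Continuous F) (hp : Function.Periodic F (2 * π)) :
    ∃ M : ℝ, ∀ x, ‖F x‖ ≤ M := by
  obtain ⟨M, hM⟩ := (isCompact_Icc (a := (0 : ℝ)) (b := 2 * π)).exists_bound_of_continuousOn
    hF.continuousOn
  refine ⟨M, fun x => ?_⟩
  obtain ⟨y, hy, hxy⟩ := hp.exists_mem_Ico₀ (by positivity) x
  rw [hxy]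
  exact hM y (Set.Ico_subset_Icc_self hy)

private lemma periodic_deriv {F F' : ℝ → ℂ} (hF : ∀ x, HasDerivAt F (F' x) x)
    (hp : Function.Periodic F (2 * π)) : Function.Periodic F' (2 * π) := by
  intro x
  have h1 := (hF (x + 2 * π)).comp_add_const x (2 * π)
  have h2 : (fun x => F (x + 2 * π)) = F := funext hp
  rw [h2] at h1
  exact h1.unique (hF x)

theorem circle_fourier {g : ℂ → ℝ} (hg : ContDiff ℝ ∞ g) : ∃ c : ℤ → ℂ,
    (Summable fun n : ℤ => (1 + |(n : ℝ)|) * ‖c n‖) ∧
    ∀ ζ : ℂ, ‖ζ‖ = 1 → HasSum (fun n : ℤ => c n * ζ ^ n) (g ζ : ℂ) ∧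
      HasSum (fun n : ℤ => c n * (n * Complex.I) * ζ ^ n) ((fderiv ℝ g ζ (Complex.I * ζ) : ℝ) : ℂ) := by
  set G : ℝ → ℂ := fun θ => ((g (Complex.exp (θ * Complex.I)) : ℝ) : ℂ) with hG
  have he : ContDiff ℝ ∞ (fun θ : ℝ => Complex.exp (θ * Complex.I)) :=
    (Complex.ofRealCLM.contDiff.mul contDiff_const).cexp
  have hGs : ContDiff ℝ ∞ G := Complex.ofRealCLM.contDiff.comp (hg.comp he)
  have hstep : ∀ F : ℝ → ℂ, ContDiff ℝ ∞ F → ContDiff ℝ ∞ (deriv F) ∧
      ∀ x, HasDerivAt F (deriv F x) x := by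
    intro F hF
    have h1 := contDiff_infty_iff_deriv.1 hF
    exact ⟨h1.2, fun x => (h1.1 x).hasDerivAt⟩
  obtain ⟨hG1s, hG1⟩ := hstep G hGs
  obtain ⟨hG2s, hG2⟩ := hstep _ hG1s
  obtain ⟨hG3s, hG3⟩ := hstep _ hG2s
  have hp0 : Function.Periodic G (2 * π) := by
    intro x
    show ((g (Complex.exp (((x + 2 * π : ℝ) : ℂ) * Complex.I)) : ℝ) : ℂ) = _
    have : Complex.exp (((x + 2 * π : ℝ) : ℂ) * Complex.I) = Complex.exp (x * Complex.I) := by
      rw [show ((x + 2 * π : ℝ) : ℂ) * Complex.I = x * Complex.I + 2 * π * Complex.I by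
        push_cast; ring, Complex.exp_add, Complex.exp_two_pi_mul_I, mul_one]
    rw [this]
  have hp1 := periodic_deriv hG1 hp0
  have hp2 := periodic_deriv hG2 hp1
  have hp3 := periodic_deriv hG3 hp2
  have hper : ∀ F : ℝ → ℂ, Function.Periodic F (2 * π) → F (2 * π) = F 0 := by
    intro F hF
    have := hF 0
    rwa [zero_add] at this
  obtain ⟨M, hM⟩ := exists_bound hG3s.continuous hp3
  have c1 := cf_deriv hG1 hG1s.continuous (hper _ hp0)
  have c2 := cf_deriv hG2 hG2s.continuous (hper _ hp1)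
  have c3 := cf_deriv hG3 hG3s.continuous (hper _ hp2)
  have hM0 : 0 ≤ M := (norm_nonneg _).trans (hM 0)
  have hb : ∀ n : ℤ, ‖cf G n‖ * |(n : ℝ)| ^ 3 ≤ M := by
    intro n
    have h1 := cf_bound hM n
    rw [c3, c2, c1] at h1
    simp only [norm_mul, Complex.norm_I, mul_one] at h1
    have h2 : ‖(n : ℂ)‖ = |(n : ℝ)| := Complex.norm_intCast n
    rw [h2] at h1
    calc ‖cf G n‖ * |(n : ℝ)| ^ 3 = ‖cf G n‖ * |(n : ℝ)| * |(n : ℝ)| * |(n : ℝ)| := by ring
      _ ≤ M := h1
  have hsum : Summable fun n : ℤ => (1 + |(n : ℝ)|) * ‖cf G n‖ := by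
    have hA : Summable fun n : ℤ => 2 * M * (1 / (n : ℝ) ^ 2) :=
      (Real.summable_one_div_int_pow.2 (by norm_num)).mul_left _
    have hB : Summable fun n : ℤ => if n = 0 then ‖cf G 0‖ else 0 :=
      (hasSum_ite_eq (0 : ℤ) ‖cf G 0‖).summable
    refine Summable.of_nonneg_of_le (fun n => by positivity) (fun n => ?_) (hA.add hB)
    by_cases hn : n = 0
    · subst hn
      simp
    · rw [if_neg hn, add_zero]
      have h1 : (1 : ℝ) ≤ |(n : ℝ)| := by
        have := Int.one_le_abs hn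
        exact_mod_cast this
      have h2 := hb n
      have h3 : (n : ℝ) ^ 2 = |(n : ℝ)| ^ 2 := (sq_abs _).symm
      rw [h3]
      set r := |(n : ℝ)| with hr
      have hr0 : 0 < r := by linarith
      have h4 : ‖cf G n‖ ≤ M / r ^ 3 := by rw [le_div_iff₀ (by positivity)]; exact h2
      calc (1 + r) * ‖cf G n‖ ≤ (2 * r) * (M / r ^ 3) :=
            mul_le_mul (by linarith) h4 (norm_nonneg _) (by positivity)
        _ = 2 * M * (1 / r ^ 2) := by field_simp
  have hs0 : Summable (cf G) := by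
    refine Summable.of_norm_bounded hsum fun n => ?_
    have : 0 ≤ |(n : ℝ)| := abs_nonneg _
    nlinarith [norm_nonneg (cf G n)]
  have hs1 : Summable (cf (deriv G)) := by
    refine Summable.of_norm_bounded hsum fun n => ?_
    rw [c1]
    simp only [norm_mul, Complex.norm_I, mul_one, Complex.norm_intCast]
    have : 0 ≤ |(n : ℝ)| := abs_nonneg _
    nlinarith [norm_nonneg (cf G n)]
  refine ⟨cf G, hsum, fun ζ hζ => ?_⟩
  obtain ⟨θ, rfl⟩ := (Complex.norm_eq_one_iff ζ).1 hζ
  refine ⟨cf_sum hGs.continuous hp0 hs0 θ, ?_⟩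
  have h1 := cf_sum hG1s.continuous hp1 hs1 θ
  have h2 : deriv G θ = ((fderiv ℝ g (Complex.exp (θ * Complex.I))
      (Complex.I * Complex.exp (θ * Complex.I)) : ℝ) : ℂ) := by
    have h3 : HasDerivAt (fun θ : ℝ => Complex.exp (θ * Complex.I))
        (Complex.I * Complex.exp (θ * Complex.I)) θ := by
      have h4 : HasDerivAt (fun θ : ℝ => ((θ : ℂ) * Complex.I)) Complex.I θ := by
        have := (Complex.ofRealCLM.hasDerivAt (x := θ)).mul_const Complex.I
        simpa using this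
      have h5 := h4.cexp
      convert h5 using 1
      ring
    have h6 : HasFDerivAt g (fderiv ℝ g (Complex.exp (θ * Complex.I))) (Complex.exp (θ * Complex.I)) :=
      (hg.differentiable (by simp) _).hasFDerivAt
    have h7 := (h6.comp_hasDerivAt θ h3).ofReal_comp
    exact h7.deriv
  rw [h2] at h1
  convert h1 using 1
  funext n
  rw [c1]

end Pool.Agent.Helper53.CL.F
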