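import Pool.Agent.Helper53.CL.F.F01
import Pool.Agent.Helper53.CL.F.F02a

/-!
# CL-F02: invariance of `V` tested with products `ψ(z) g(ζ)` (about 120 lines)

On `|ζ| = 1`: `(gf a q).2 = i rot ζ`, so `Dg(ζ)((gf a q).2) = rot * Dg(ζ)(i ζ)`.  Insert the series of `circle_fourier` and
use `dir_test` for every `n`; the sum and the integral commute (`hasSum_integral_of_summable_integral_norm`, the functions
are bounded by `C (1 + |n|) ‖c n‖`: `ψ` has compact support in `ball 0 2`, `a`, `∂ log a` are continuous there, `V` is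
finite and carried by `|ζ| = 1`).
-/

namespace Pool.Agent.Helper53.CL.F

open MeasureTheory Filter Topology Metric Set
open scoped ContDiff Real ENNReal

private theorem f02_lgz {a : ℂ → ℝ} (ha : ContDiffOn ℝ ∞ a (ball 0 3))
    (hpos : ∀ z ∈ ball (0 : ℂ) 3, 0 < a z) : ContinuousOn (lgz a) (ball 0 3) := by
  have h1 : ContDiffOn ℝ ∞ (fun z => ((Real.log (a z) : ℝ) : ℂ)) (ball 0 3) :=
    Complex.ofRealCLM.contDiff.comp_contDiffOn (ha.log fun z hz => (hpos z hz).ne')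
  have h2 := h1.continuousOn_fderiv_of_isOpen isOpen_ball (by simp)
  unfold lgz dz dx dy
  exact ((h2.clm_apply continuousOn_const).sub
    (continuousOn_const.mul (h2.clm_apply continuousOn_const))).div_const 2

private theorem f02_sq {a : ℂ → ℝ} (ha : ContDiffOn ℝ ∞ a (ball 0 3))
    (hpos : ∀ z ∈ ball (0 : ℂ) 3, 0 < a z) : ContinuousOn (fun z => (√(a z))⁻¹) (ball 0 3) :=
  (Real.continuous_sqrt.comp_continuousOn ha.continuousOn).inv₀
    fun z hz => (Real.sqrt_pos.2 (hpos z hz)).ne'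

private theorem f02_D {a : ℂ → ℝ} (ha : ContDiffOn ℝ ∞ a (ball 0 3))
    (hpos : ∀ z ∈ ball (0 : ℂ) 3, 0 < a z) {ψ : ℂ → ℝ} (hψ : ContDiff ℝ ∞ ψ) :
    ContinuousOn (fun q : ℂ × ℂ => fderiv ℝ ψ q.1 (gf a q).1) {q | q.1 ∈ ball (0 : ℂ) 3} := by
  have h1 : ContinuousOn (fun q : ℂ × ℂ => (√(a q.1))⁻¹) {q | q.1 ∈ ball (0 : ℂ) 3} :=
    (f02_sq ha hpos).comp continuousOn_fst fun q hq => hq
  have h2 : Continuous (fderiv ℝ ψ) := hψ.continuous_fderiv (by simp)
  refine ContinuousOn.clm_apply (h2.comp continuous_fst).continuousOn ?_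
  exact (Complex.continuous_ofReal.comp_continuousOn h1).mul continuousOn_snd

private theorem f02_E {a : ℂ → ℝ} (ha : ContDiffOn ℝ ∞ a (ball 0 3))
    (hpos : ∀ z ∈ ball (0 : ℂ) 3, 0 < a z) {ψ : ℂ → ℝ} (hψ : ContDiff ℝ ∞ ψ) :
    ContinuousOn (fun q : ℂ × ℂ => ψ q.1 * rot a q) {q | q.1 ∈ ball (0 : ℂ) 3} := by
  have h1 : ContinuousOn (fun q : ℂ × ℂ => (√(a q.1))⁻¹) {q | q.1 ∈ ball (0 : ℂ) 3} :=
    (f02_sq ha hpos).comp continuousOn_fst fun q hq => hq
  have h2 : ContinuousOn (fun q : ℂ × ℂ => lgz a q.1) {q | q.1 ∈ ball (0 : ℂ) 3} :=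
    (f02_lgz ha hpos).comp continuousOn_fst fun q hq => hq
  refine (hψ.continuous.comp continuous_fst).continuousOn.mul ?_
  unfold rot
  exact (h1.mul (Complex.continuous_im.comp_continuousOn (h2.mul continuousOn_snd))).neg

private theorem f02_bound {ψ : ℂ → ℝ} (hc : HasCompactSupport ψ) (hs : tsupport ψ ⊆ ball 0 2)
    {f : ℂ × ℂ → ℝ} (hf : ContinuousOn f {q | q.1 ∈ ball (0 : ℂ) 3})
    (h0 : ∀ q : ℂ × ℂ, q.1 ∉ tsupport ψ → f q = 0) :
    ∃ C : ℝ, 0 ≤ C ∧ ∀ q : ℂ × ℂ, ‖q.2‖ = 1 → |f q| ≤ C := by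
  have hK : IsCompact (tsupport ψ ×ˢ sphere (0 : ℂ) 1) := IsCompact.prod hc (isCompact_sphere _ _)
  have hsub : tsupport ψ ×ˢ sphere (0 : ℂ) 1 ⊆ {q : ℂ × ℂ | q.1 ∈ ball (0 : ℂ) 3} := fun q hq =>
    ball_subset_ball (by norm_num) (hs hq.1)
  obtain ⟨C, hC⟩ := hK.exists_bound_of_continuousOn (hf.mono hsub)
  refine ⟨max C 0, le_max_right _ _, fun q hq => ?_⟩
  by_cases h1 : q.1 ∈ tsupport ψ
  · exact (hC q ⟨h1, by simpa using hq⟩).trans (le_max_left _ _)
  · rw [h0 q h1, abs_zero]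
    exact le_max_right _ _

theorem prod_test {a : ℂ → ℝ} {μ : Measure ℂ} {m : ℂ → ℂ} (hD : Dat a μ m) {ψ : ℂ → ℝ} (hψ : ContDiff ℝ ∞ ψ)
    (hc : HasCompactSupport ψ) (hs : tsupport ψ ⊆ ball 0 2) {g : ℂ → ℝ} (hg : ContDiff ℝ ∞ g) :
    ∫ q, (fderiv ℝ ψ q.1 (gf a q).1 * g q.2 + ψ q.1 * fderiv ℝ g q.2 (gf a q).2) ∂(V μ m) = 0 := by
  have := hD.fin
  have : IsFiniteMeasure (V μ m) := V_finite
  have hunit := V_unit (μ := μ) hD.m_meas hD.m_norm
  obtain ⟨c, hcs, hcf⟩ := circle_fourier hg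
  have hDc := f02_D hD.a_smooth hD.a_pos hψ
  have hEc := f02_E hD.a_smooth hD.a_pos hψ
  obtain ⟨C1, hC1, hb1⟩ := f02_bound hc hs hDc (fun q hq => by
    rw [fderiv_of_notMem_tsupport (𝕜 := ℝ) hq]
    rfl)
  obtain ⟨C2, hC2, hb2⟩ := f02_bound hc hs hEc (fun q hq => by
    rw [image_eq_zero_of_notMem_tsupport hq, zero_mul])
  -- the terms
  set F : ℤ → ℂ × ℂ → ℂ := fun n q => ((fderiv ℝ ψ q.1 (gf a q).1 : ℝ) : ℂ) * q.2 ^ n +
    ψ q.1 * (n * Complex.I * rot a q) * q.2 ^ n with hF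
  have hFE : ∀ n q, F n q = ((fderiv ℝ ψ q.1 (gf a q).1 : ℝ) : ℂ) * q.2 ^ n +
      ((ψ q.1 * rot a q : ℝ) : ℂ) * (n * Complex.I) * q.2 ^ n := by
    intro n q
    rw [hF]
    push_cast
    ring
  have hFn : ∀ n : ℤ, ∀ q : ℂ × ℂ, ‖q.2‖ = 1 → ‖F n q‖ ≤ (C1 + C2) * (1 + |(n : ℝ)|) := by
    intro n q hq
    rw [hFE]
    refine (norm_add_le _ _).trans ?_
    rw [norm_mul, norm_mul, norm_mul, norm_zpow, hq, one_zpow, mul_one, mul_one, norm_mul,
      Complex.norm_I, mul_one, Complex.norm_real, Complex.norm_real, Complex.norm_intCast,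
      Real.norm_eq_abs, Real.norm_eq_abs]
    have h1 := hb1 q hq
    have h2 := hb2 q hq
    have h3 : 0 ≤ |(n : ℝ)| := abs_nonneg _
    have h4 : |ψ q.1 * rot a q| * |(n : ℝ)| ≤ C2 * |(n : ℝ)| := mul_le_mul_of_nonneg_right h2 h3
    have h5 : 0 ≤ C1 * |(n : ℝ)| := mul_nonneg hC1 h3
    nlinarith
  have hFm : ∀ n : ℤ, AEStronglyMeasurable (F n) (V μ m) := by
    intro n
    set T : Set (ℂ × ℂ) := {q | q.1 ∈ ball (0 : ℂ) 3} ∩ {q | q.2 ≠ 0} with hT
    have hTo : IsOpen T := (isOpen_ball.preimage continuous_fst).inter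
      (isOpen_ne_fun continuous_snd continuous_const)
    have hTc : ContinuousOn (F n) T := by
      have hz : ContinuousOn (fun q : ℂ × ℂ => q.2 ^ n) T :=
        continuousOn_snd.zpow₀ n fun q hq => Or.inl hq.2
      have h1 : ContinuousOn (fun q : ℂ × ℂ => ((fderiv ℝ ψ q.1 (gf a q).1 : ℝ) : ℂ) * q.2 ^ n +
          ((ψ q.1 * rot a q : ℝ) : ℂ) * (n * Complex.I) * q.2 ^ n) T :=
        ((Complex.continuous_ofReal.comp_continuousOn (hDc.mono inter_subset_left)).mul hz).add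
          (((Complex.continuous_ofReal.comp_continuousOn (hEc.mono inter_subset_left)).mul
            continuousOn_const).mul hz)
      exact h1.congr fun q _ => hFE n q
    have h2 : AEStronglyMeasurable (T.indicator (F n)) (V μ m) :=
      (aestronglyMeasurable_indicator_iff hTo.measurableSet).2
        (hTc.aestronglyMeasurable hTo.measurableSet)
    refine h2.congr ?_
    filter_upwards [hunit] with q hq
    by_cases h3 : q ∈ T
    · rw [indicator_of_mem h3]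
    · rw [indicator_of_notMem h3]
      have hq0 : q.2 ≠ 0 := by
        intro h4
        rw [h4, norm_zero] at hq
        exact zero_ne_one hq
      have h5 : q.1 ∉ tsupport ψ := fun h6 =>
        h3 ⟨ball_subset_ball (by norm_num) (hs h6), hq0⟩
      rw [hFE, fderiv_of_notMem_tsupport (𝕜 := ℝ) h5, image_eq_zero_of_notMem_tsupport h5]
      simp
  have hFi : ∀ n : ℤ, Integrable (F n) (V μ m) := by
    intro n
    refine Integrable.of_bound (hFm n) ((C1 + C2) * (1 + |(n : ℝ)|)) ?_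
    filter_upwards [hunit] with q hq
    exact hFn n q hq
  have h0 : ∀ n : ℤ, ∫ q, F n q ∂(V μ m) = 0 := fun n => dir_test hD hψ hc hs n
  have hcF : ∀ n : ℤ, Integrable (fun q => c n * F n q) (V μ m) := fun n => (hFi n).const_mul _
  have hsum : Summable fun n : ℤ => ∫ q, ‖c n * F n q‖ ∂(V μ m) := by
    refine Summable.of_nonneg_of_le (fun n => integral_nonneg fun q => norm_nonneg _)
      (fun n => ?_) (hcs.mul_left ((C1 + C2) * (V μ m).real univ))
    have h1 : ∫ q, ‖c n * F n q‖ ∂(V μ m) ≤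
        ∫ _q, ‖c n‖ * ((C1 + C2) * (1 + |(n : ℝ)|)) ∂(V μ m) := by
      refine integral_mono_ae (hcF n).norm (integrable_const _) ?_
      filter_upwards [hunit] with q hq
      rw [norm_mul]
      exact mul_le_mul_of_nonneg_left (hFn n q hq) (norm_nonneg _)
    refine h1.trans (le_of_eq ?_)
    rw [integral_const, smul_eq_mul]
    ring
  have hmain := hasSum_integral_of_summable_integral_norm hcF hsum
  have h1 : (fun n : ℤ => ∫ q, c n * F n q ∂(V μ m)) = fun _ => 0 := by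
    funext n
    rw [integral_const_mul, h0, mul_zero]
  rw [h1] at hmain
  have h2 : ∫ q, ∑' n : ℤ, c n * F n q ∂(V μ m) = 0 := hmain.unique hasSum_zero
  have h3 : ∫ q, ∑' n : ℤ, c n * F n q ∂(V μ m) =
      ∫ q, ((fderiv ℝ ψ q.1 (gf a q).1 * g q.2 + ψ q.1 * fderiv ℝ g q.2 (gf a q).2 : ℝ) : ℂ)
        ∂(V μ m) := by
    refine integral_congr_ae ?_
    filter_upwards [hunit] with q hq
    obtain ⟨h4, h5⟩ := hcf q.2 hq
    have h6 : fderiv ℝ g q.2 (gf a q).2 = rot a q * fderiv ℝ g q.2 (Complex.I * q.2) := by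
      have h7 : (gf a q).2 = (rot a q) • (Complex.I * q.2) := by
        rw [Complex.real_smul]
        unfold gf
        ring
      rw [h7, map_smul, smul_eq_mul]
    have h8 : HasSum (fun n : ℤ => c n * F n q)
        (((fderiv ℝ ψ q.1 (gf a q).1 : ℝ) : ℂ) * (g q.2 : ℂ) +
          ((ψ q.1 * rot a q : ℝ) : ℂ) * ((fderiv ℝ g q.2 (Complex.I * q.2) : ℝ) : ℂ)) := by
      have h9 := (h4.mul_left ((fderiv ℝ ψ q.1 (gf a q).1 : ℝ) : ℂ)).add
        (h5.mul_left ((ψ q.1 * rot a q : ℝ) : ℂ))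
      have h10 : (fun n : ℤ => c n * F n q) = fun n : ℤ =>
          ((fderiv ℝ ψ q.1 (gf a q).1 : ℝ) : ℂ) * (c n * q.2 ^ n) +
            ((ψ q.1 * rot a q : ℝ) : ℂ) * (c n * (n * Complex.I) * q.2 ^ n) := by
        funext n
        rw [hFE]
        ring
      rw [h10]
      exact h9
    rw [h8.tsum_eq, h6]
    push_cast
    ring
  rw [h3, integral_complex_ofReal] at h2
  exact_mod_cast h2

end Pool.Agent.Helper53.CL.F
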