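import Pool.Agent.Helper53.CL.F.FDefs
import Pool.Agent.Helper81.OG.T07

/-!
# CL-F03: the cut off geodesic field and its flow (about 250 lines)

(a) `exists_field`.  Let `χ : ℂ → ℝ` be smooth, `1` on `ball 0 (15/8)`, with compact support in `ball 0 2`, and
`η : ℂ → ℝ` smooth with compact support, `1` on `closedBall 0 1` (`exists_contDiff_tsupport_subset` or `ContDiffBump`).
`X q = (χ q.1 * η q.2) • gf a q` (zero where `χ` vanishes); it is smooth since `a` is smooth and positive on `ball 0 3`.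

(b) `exists_flow`.  `X` is Lipschitz (smooth with compact support: `ContDiff.lipschitzWith_of_hasCompactSupport`), take the
flow of `OGR.exists_global_flow`.  `lip`: Gronwall, `dist_le_of_trajectories_ODE` (for negative times use the field `-X` or
the curves `s ↦ φ (-s) q`), constant `exp K`.  `norm`: `d/ds |ζ|^2 = 2 Re(conj ζ (i r ζ)) = 0`.  `move`: `‖X‖ ≤ Λ`, take
`h ≤ 1 / (8 (Λ + 1))`.  `move_low`: for `‖q.1‖ < 3/2`, `‖q.2‖ = 1`, `|s| ≤ h` the base point stays in `ball 0 (13/8)`, so its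
velocity is `a^(-1/2) ζ(s)`; `a^(-1/2) ≥ λ > 0` on `closedBall 0 (15/8)`; `‖ζ(s) - ζ(0)‖ ≤ Λ |s| ≤ 1`, hence
`Re(conj ζ(0) ζ(s)) = 1 - ‖ζ(s) - ζ(0)‖^2 / 2 ≥ 1/2`, and `Re(conj ζ(0) (z(s) - z(0)))` has absolute value
`≥ (λ/2) |s|`; `ℓ = λ/2`.
-/

namespace Pool.Agent.Helper53.CL.F

open MeasureTheory Filter Topology Metric Set
open scoped ContDiff Real ENNReal

private theorem lgz_smooth {a : ℂ → ℝ} (ha : ContDiffOn ℝ ∞ a (ball 0 3)) (hp : ∀ z ∈ ball (0 : ℂ) 3, 0 < a z) :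
    ContDiffOn ℝ ∞ (lgz a) (ball 0 3) := by
  have h1 : ContDiffOn ℝ ∞ (fun z => (Real.log (a z) : ℂ)) (ball 0 3) :=
    Complex.ofRealCLM.contDiff.comp_contDiffOn (ha.log fun z hz => (hp z hz).ne')
  have h2 : ContDiffOn ℝ ∞ (fderiv ℝ (fun z => (Real.log (a z) : ℂ))) (ball 0 3) :=
    h1.fderiv_of_isOpen isOpen_ball (by simp)
  unfold lgz dz dx dy
  exact ((h2.clm_apply contDiffOn_const).sub (contDiffOn_const.mul (h2.clm_apply contDiffOn_const))).div_const _

private theorem gf_smooth {a : ℂ → ℝ} (ha : ContDiffOn ℝ ∞ a (ball 0 3)) (hp : ∀ z ∈ ball (0 : ℂ) 3, 0 < a z)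
    {q : ℂ × ℂ} (hq : q.1 ∈ ball (0 : ℂ) 3) : ContDiffAt ℝ ∞ (gf a) q := by
  have ha' : ContDiffAt ℝ ∞ a q.1 := ha.contDiffAt (isOpen_ball.mem_nhds hq)
  have h1 : ContDiffAt ℝ ∞ (fun q : ℂ × ℂ => (√(a q.1))⁻¹) q := by
    have h2 : ContDiffAt ℝ ∞ (fun q : ℂ × ℂ => a q.1) q := ha'.comp q contDiffAt_fst
    exact (h2.sqrt (hp _ hq).ne').inv (Real.sqrt_pos.2 (hp _ hq)).ne'
  have h3 : ContDiffAt ℝ ∞ (fun q : ℂ × ℂ => lgz a q.1) q :=
    ((lgz_smooth ha hp).contDiffAt (isOpen_ball.mem_nhds hq)).comp q contDiffAt_fst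
  have h4 : ContDiffAt ℝ ∞ (rot a) q := by
    unfold rot
    exact (h1.mul (Complex.imCLM.contDiff.contDiffAt.comp q (h3.mul contDiffAt_snd))).neg
  unfold gf
  exact ((Complex.ofRealCLM.contDiff.contDiffAt.comp q h1).mul contDiffAt_snd).prodMk
    ((contDiffAt_const.mul (Complex.ofRealCLM.contDiff.contDiffAt.comp q h4)).mul contDiffAt_snd)

theorem exists_field {a : ℂ → ℝ} (ha : ContDiffOn ℝ ∞ a (ball 0 3)) (hp : ∀ z ∈ ball (0 : ℂ) 3, 0 < a z) :
    ∃ X : ℂ × ℂ → ℂ × ℂ, ContDiff ℝ ∞ X ∧ HasCompactSupport X ∧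
      (∀ q : ℂ × ℂ, q.1 ∈ ball (0 : ℂ) (15 / 8) → ‖q.2‖ = 1 → X q = gf a q) ∧
      ∀ q, ∃ r : ℝ, (X q).2 = Complex.I * r * q.2 := by
  let χ : ContDiffBump (0 : ℂ) := ⟨15 / 8, 31 / 16, by norm_num, by norm_num⟩
  let η : ContDiffBump (0 : ℂ) := ⟨1, 2, by norm_num, by norm_num⟩
  have hχ0 : ∀ z : ℂ, 31 / 16 < ‖z‖ → χ z = 0 := by
    intro z hz
    by_contra hne
    have h1 : z ∈ Function.support χ := hne
    rw [χ.support_eq, mem_ball_zero_iff] at h1
    have h2 : ‖z‖ < 31 / 16 := h1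
    linarith
  have hη0 : ∀ z : ℂ, 2 < ‖z‖ → η z = 0 := by
    intro z hz
    by_contra hne
    have h1 : z ∈ Function.support η := hne
    rw [η.support_eq, mem_ball_zero_iff] at h1
    have h2 : ‖z‖ < 2 := h1
    linarith
  refine ⟨fun q => (χ q.1 * η q.2) • gf a q, ?_, ?_, ?_, ?_⟩
  · rw [contDiff_iff_contDiffAt]
    intro q
    by_cases hq : q.1 ∈ ball (0 : ℂ) 3
    · exact ((χ.contDiff.contDiffAt.comp q contDiffAt_fst).mul
        (η.contDiff.contDiffAt.comp q contDiffAt_snd)).smul (gf_smooth ha hp hq)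
    · have hq1 : 31 / 16 < ‖q.1‖ := by
        rw [mem_ball_zero_iff, not_lt] at hq
        linarith
      have h1 : (fun q : ℂ × ℂ => (χ q.1 * η q.2) • gf a q) =ᶠ[𝓝 q] fun _ => 0 := by
        have h2 : ∀ᶠ p : ℂ × ℂ in 𝓝 q, 31 / 16 < ‖p.1‖ :=
          (continuous_fst.norm.continuousAt (x := q)).eventually (lt_mem_nhds hq1)
        filter_upwards [h2] with p hp1
        rw [hχ0 _ hp1, zero_mul, zero_smul]
      exact contDiffAt_const.congr_of_eventuallyEq h1
  · refine HasCompactSupport.intro ((isCompact_closedBall (0 : ℂ) (31 / 16)).prod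
      (isCompact_closedBall (0 : ℂ) 2)) ?_
    intro q hq
    rw [mem_prod, mem_closedBall_zero_iff, mem_closedBall_zero_iff, not_and_or, not_le, not_le] at hq
    rcases hq with hq | hq
    · show (χ q.1 * η q.2) • gf a q = 0
      rw [hχ0 _ hq, zero_mul, zero_smul]
    · show (χ q.1 * η q.2) • gf a q = 0
      rw [hη0 _ hq, mul_zero, zero_smul]
  · intro q hq1 hq2
    have e1 : χ q.1 = 1 := χ.one_of_mem_closedBall (ball_subset_closedBall hq1)
    have e2 : η q.2 = 1 := by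
      refine η.one_of_mem_closedBall ?_
      rw [mem_closedBall_zero_iff]
      exact hq2.le
    show (χ q.1 * η q.2) • gf a q = gf a q
    rw [e1, e2, mul_one, one_smul]
  · intro q
    refine ⟨χ q.1 * η q.2 * rot a q, ?_⟩
    show ((χ q.1 * η q.2) • gf a q).2 = _
    simp only [gf, Prod.smul_mk, Complex.real_smul]
    push_cast
    ring

private theorem curves_le {Y : ℂ × ℂ → ℂ × ℂ} {K : NNReal} (hY : LipschitzWith K Y) {f g : ℝ → ℂ × ℂ}
    (hf : ∀ t, HasDerivAt f (Y (f t)) t) (hg : ∀ t, HasDerivAt g (Y (g t)) t) {s : ℝ} (hs : 0 ≤ s) (hs1 : s ≤ 1) :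
    dist (f s) (g s) ≤ Real.exp K * dist (f 0) (g 0) := by
  have h1 := dist_le_of_trajectories_ODE (v := fun _ => Y) (K := K) (f := f) (g := g) (a := 0) (b := 1)
    (δ := dist (f 0) (g 0)) (fun _ => hY) (fun t _ => (hf t).continuousAt.continuousWithinAt)
    (fun t _ => (hf t).hasDerivWithinAt) (fun t _ => (hg t).continuousAt.continuousWithinAt)
    (fun t _ => (hg t).hasDerivWithinAt) le_rfl s ⟨hs, hs1⟩
  have h2 : Real.exp (K * (s - 0)) ≤ Real.exp K := by
    apply Real.exp_le_exp.2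
    have : (0 : ℝ) ≤ K := K.2
    nlinarith
  calc dist (f s) (g s) ≤ dist (f 0) (g 0) * Real.exp (K * (s - 0)) := h1
    _ ≤ dist (f 0) (g 0) * Real.exp K := by gcongr
    _ = _ := mul_comm _ _

theorem exists_flow {a : ℂ → ℝ} (ha : ContDiffOn ℝ ∞ a (ball 0 3)) (hp : ∀ z ∈ ball (0 : ℂ) 3, 0 < a z) :
    ∃ X φ h ℓ, FlowD a X φ h ℓ := by
  obtain ⟨X, hX, hXc, hXe, hXr⟩ := exists_field ha hp
  obtain ⟨K, hK⟩ := ContDiff.lipschitzWith_of_hasCompactSupport hXc hX (by simp)
  obtain ⟨φ, h0, hd, hc, hg⟩ := OGR.exists_global_flow X K hK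
  obtain ⟨Λ, hΛ⟩ := hX.continuous.bounded_above_of_compact_support hXc
  have hΛ0 : 0 ≤ Λ := (norm_nonneg _).trans (hΛ 0)
  have hcont : ContinuousOn (fun z => (√(a z))⁻¹) (closedBall (0 : ℂ) (15 / 8)) := by
    have h1 : ContinuousOn a (closedBall (0 : ℂ) (15 / 8)) :=
      ha.continuousOn.mono (closedBall_subset_ball (by norm_num))
    refine (Real.continuous_sqrt.comp_continuousOn h1).inv₀ ?_
    intro z hz
    exact (Real.sqrt_pos.2 (hp z (closedBall_subset_ball (by norm_num) hz))).ne'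
  obtain ⟨l, hl, hl'⟩ := (isCompact_closedBall (0 : ℂ) (15 / 8)).exists_forall_le' hcont
    (a := 0) (fun z hz => inv_pos.2 (Real.sqrt_pos.2 (hp z (closedBall_subset_ball (by norm_num) hz))))
  have hmove : ∀ q s, ‖φ s q - q‖ ≤ Λ * |s| := by
    intro q s
    have h1 := convex_univ.norm_image_sub_le_of_norm_hasDerivWithin_le (𝕜 := ℝ) (f := fun s => φ s q)
      (f' := fun s => X (φ s q)) (s := univ) (C := Λ) (x := 0) (y := s)
      (fun t _ => (hd q t).hasDerivWithinAt) (fun t _ => hΛ _) (mem_univ _) (mem_univ _)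
    simpa [h0] using h1
  have hnorm : ∀ s q, ‖q.2‖ = 1 → ‖(φ s q).2‖ = 1 := by
    intro s q hq
    have h2 : ∀ t, HasDerivAt (fun s => (φ s q).2) ((X (φ t q)).2) t := fun t => (hd q t).snd
    have h3 : ∀ t, HasDerivAt (fun s => ((φ s q).2.re) ^ 2 + ((φ s q).2.im) ^ 2) 0 t := by
      intro t
      have hre : HasDerivAt (fun s => (φ s q).2.re) (X (φ t q)).2.re t :=
        Complex.reCLM.hasFDerivAt.comp_hasDerivAt t (h2 t)
      have him : HasDerivAt (fun s => (φ s q).2.im) (X (φ t q)).2.im t :=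
        Complex.imCLM.hasFDerivAt.comp_hasDerivAt t (h2 t)
      obtain ⟨r, hr⟩ := hXr (φ t q)
      refine HasDerivAt.congr_deriv ((hre.pow 2).add (him.pow 2)) ?_
      rw [hr]
      simp
      ring
    have h4 : ((φ s q).2.re) ^ 2 + ((φ s q).2.im) ^ 2 = ((φ 0 q).2.re) ^ 2 + ((φ 0 q).2.im) ^ 2 :=
      is_const_of_deriv_eq_zero (fun t => (h3 t).differentiableAt) (fun t => (h3 t).deriv) s 0
    have h5 : ‖(φ s q).2‖ ^ 2 = ‖q.2‖ ^ 2 := by
      rw [← Complex.normSq_eq_norm_sq, ← Complex.normSq_eq_norm_sq, Complex.normSq_apply, Complex.normSq_apply]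
      rw [h0] at h4
      nlinarith
    rw [hq] at h5
    have h6 := norm_nonneg (φ s q).2
    nlinarith
  set h : ℝ := 1 / (8 * (Λ + 1)) with hh
  have hh0 : 0 < h := by positivity
  have hh1 : h ≤ 1 := by
    rw [hh, div_le_one (by positivity)]
    linarith
  have hΛh : Λ * h ≤ 1 / 8 := by
    rw [hh, mul_one_div, div_le_div_iff₀ (by positivity) (by norm_num)]
    linarith
  have hmove' : ∀ q s, |s| ≤ h → ‖φ s q - q‖ ≤ 1 / 8 := by
    intro q s hs
    exact (hmove q s).trans ((mul_le_mul_of_nonneg_left hs hΛ0).trans hΛh)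
  refine ⟨X, φ, h, l / 2, ⟨hX, hXc, hXe, h0, hd, hc, hg, ?_, hnorm, hh0, hh1, by positivity, ?_, ?_⟩⟩
  · refine ⟨⟨Real.exp K, (Real.exp_pos _).le⟩, ?_⟩
    intro s hs
    refine LipschitzWith.of_dist_le_mul ?_
    intro x y
    rcases le_total 0 s with h1 | h1
    · have h2 := curves_le hK (f := fun t => φ t x) (g := fun t => φ t y) (hd x) (hd y) h1
        ((le_abs_self s).trans hs)
      rw [h0, h0] at h2
      exact h2
    · have hK' : LipschitzWith K (fun q => -X q) := by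
        refine LipschitzWith.of_dist_le_mul fun u v => ?_
        rw [dist_neg_neg]
        exact hK.dist_le_mul u v
      have hd' : ∀ x t, HasDerivAt (fun t => φ (-t) x) (-X (φ (-t) x)) t := by
        intro x t
        have h3 : HasDerivAt (fun t => φ (-t) x) ((-1 : ℝ) • X (φ (-t) x)) t :=
          (hd x (-t)).scomp t (hasDerivAt_neg t)
        rwa [neg_one_smul] at h3
      have h2 := curves_le hK' (f := fun t => φ (-t) x) (g := fun t => φ (-t) y) (hd' x) (hd' y)
        (s := -s) (by linarith) (by rw [← abs_of_nonpos h1]; exact hs)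
      simp only [neg_neg, neg_zero] at h2
      rw [h0, h0] at h2
      exact h2
  · intro q s hq hs
    exact (norm_fst_le _).trans (hmove' q s hs)
  · intro q s hq hq1 hs
    have hd1 : ∀ t, HasDerivAt (fun s => (φ s q).1) ((X (φ t q)).1) t := fun t => (hd q t).fst
    have hre : ∀ t, HasDerivAt (fun s => (φ s q).1.re) (X (φ t q)).1.re t := fun t =>
      Complex.reCLM.hasFDerivAt.comp_hasDerivAt t (hd1 t)
    have him : ∀ t, HasDerivAt (fun s => (φ s q).1.im) (X (φ t q)).1.im t := fun t =>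
      Complex.imCLM.hasFDerivAt.comp_hasDerivAt t (hd1 t)
    set g : ℝ → ℝ := fun s => q.2.re * (φ s q).1.re + q.2.im * (φ s q).1.im with hgdef
    have hg' : ∀ t, HasDerivAt g (q.2.re * (X (φ t q)).1.re + q.2.im * (X (φ t q)).1.im) t := fun t =>
      ((hre t).const_mul _).add ((him t).const_mul _)
    have hlow : ∀ t, |t| ≤ h → l / 2 ≤ q.2.re * (X (φ t q)).1.re + q.2.im * (X (φ t q)).1.im := by
      intro t ht
      have hm := hmove' q t ht
      have hm1 : ‖(φ t q).1 - q.1‖ ≤ 1 / 8 := (norm_fst_le (φ t q - q)).trans hm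
      have hm2 : ‖(φ t q).2 - q.2‖ ≤ 1 / 8 := (norm_snd_le (φ t q - q)).trans hm
      have hb : (φ t q).1 ∈ ball (0 : ℂ) (15 / 8) := by
        rw [mem_ball_zero_iff] at hq1 ⊢
        have : ‖(φ t q).1‖ ≤ ‖(φ t q).1 - q.1‖ + ‖q.1‖ := norm_le_norm_sub_add _ _
        linarith
      have hn := hnorm t q hq
      rw [hXe _ hb hn]
      have hl1 := hl' _ (ball_subset_closedBall hb)
      simp only [gf]
      rw [Complex.re_ofReal_mul, Complex.im_ofReal_mul]
      have e1 : ‖(φ t q).2 - q.2‖ ^ 2 ≤ 1 / 64 := by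
        have := norm_nonneg ((φ t q).2 - q.2)
        nlinarith
      have e2 : ‖(φ t q).2‖ ^ 2 = 1 := by rw [hn]; norm_num
      have e3 : ‖q.2‖ ^ 2 = 1 := by rw [hq]; norm_num
      rw [← Complex.normSq_eq_norm_sq, Complex.normSq_apply] at e1 e2 e3
      simp only [Complex.sub_re, Complex.sub_im] at e1
      have e4 : 1 / 2 ≤ q.2.re * (φ t q).2.re + q.2.im * (φ t q).2.im := by nlinarith
      have e5 : q.2.re * ((√(a (φ t q).1))⁻¹ * (φ t q).2.re) + q.2.im * ((√(a (φ t q).1))⁻¹ * (φ t q).2.im)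
          = (√(a (φ t q).1))⁻¹ * (q.2.re * (φ t q).2.re + q.2.im * (φ t q).2.im) := by ring
      rw [e5]
      calc l / 2 = l * (1 / 2) := by ring
        _ ≤ _ := mul_le_mul hl1 e4 (by norm_num) (hl.le.trans hl1)
    have hmono := (convex_Icc (-h) h).mul_sub_le_image_sub_of_le_deriv (f := g) (C := l / 2)
      (fun t _ => (hg' t).continuousAt.continuousWithinAt)
      (fun t _ => (hg' t).differentiableAt.differentiableWithinAt)
      (fun t ht => by
        rw [(hg' t).deriv]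
        have ht' : t ∈ Icc (-h) h := interior_subset ht
        exact hlow t (abs_le.2 ht'))
    have hgs : l / 2 * |s| ≤ |g s - g 0| := by
      have hs' := abs_le.1 hs
      rcases le_total 0 s with h1 | h1
      · have := hmono 0 ⟨by linarith, hh0.le⟩ s hs' h1
        rw [abs_of_nonneg h1]
        refine le_trans ?_ (le_abs_self _)
        linarith
      · have := hmono s hs' 0 ⟨by linarith, hh0.le⟩ h1
        rw [abs_of_nonpos h1]
        refine le_trans ?_ (neg_abs_le (g s - g 0) |> fun h => (neg_le_of_neg_le h))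
        linarith
    refine hgs.trans ?_
    have e6 : g s - g 0 = ((starRingEnd ℂ) q.2 * ((φ s q).1 - q.1)).re := by
      simp only [hgdef, h0, Complex.mul_re, Complex.conj_re, Complex.conj_im, Complex.sub_re, Complex.sub_im]
      ring
    rw [e6]
    refine (Complex.abs_re_le_norm _).trans ?_
    rw [norm_mul, Complex.norm_conj, hq, one_mul]

end Pool.Agent.Helper53.CL.F
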