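import Pool.Agent.Helper53.CL.F.F02

/-!
# CL-F04: derivatives along the flow of Lipschitz functions have integral zero (about 250 lines)

`flow_null`: `f` Lipschitz with compact support in `{q | q.1 ∈ ball 0 (7/4)}`, `g` bounded continuous with
`d/dt f (φ t q) = g q` at `t = 0` for every `q`.  Then `∫ g dV = 0`.

Proof.  Let `β : ℂ → ℝ` be smooth, nonnegative, even, support in `ball 0 η`, `η < 1/16`, `∫ β = 1` and
`ρ q = β q.1 * β q.2` on `ℂ × ℂ`; `fη q = ∫ f p * ρ (q - p) dp`, `gη q = ∫ g (q - p) ρ p dp`.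
(1) `∫ D fη(q)(X q) dV = ∫ f p (∫ Dρ(q - p)(X q) dV(q)) dp = 0`: for `p.1 ∈ ball 0 (7/4)` the inner integral is `prod_test` for
`ψ z = β (z - p.1)` (support in `ball 0 (15/8)`, where `X = gf a` on `|ζ| = 1`, `V_unit`) and `g ζ = β (ζ - p.2)`; Fubini:
everything is bounded with compact support in `p`, `V` is finite.
(2) `|D fη(q)(X q) - gη q| ≤ Lip f * Lip X * η` (norm of the product): `D fη(q)(X q)` is the limit `t → 0` of
`∫ ρ p (f(q - p + t X q) - f(q - p)) / t dp`, `gη q` is the limit of `∫ ρ p (f(φ t (q - p)) - f(q - p)) / t dp`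
(dominated convergence, the quotients are bounded by `Lip f * sup ‖X‖`), and
`limsup |q - p + t X q - φ t (q - p)| / |t| ≤ ‖X q - X (q - p)‖ ≤ Lip X * ‖p‖`.
(3) `gη → g` pointwise and boundedly as `η → 0`, so `∫ g dV = lim ∫ gη dV = 0`.
-/

namespace Pool.Agent.Helper53.CL.F

open MeasureTheory Filter Topology Metric Set
open scoped ContDiff Real ENNReal

private lemma exists_bump {η : ℝ} (hη : 0 < η) : ∃ β : ℂ → ℝ, ContDiff ℝ ∞ β ∧ (∀ x, 0 ≤ β x) ∧
    ∫ x, β x = 1 ∧ HasCompactSupport β ∧ tsupport β ⊆ closedBall 0 η := by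
  let b : ContDiffBump (0 : ℂ) := ⟨η / 2, η, by positivity, by linarith⟩
  exact ⟨b.normed volume, b.contDiff_normed, b.nonneg_normed, b.integral_normed,
    b.hasCompactSupport_normed, b.tsupport_normed_eq.le⟩

/-- the kernel -/
private noncomputable def rh (β : ℂ → ℝ) (p : ℂ × ℂ) : ℝ := β p.1 * β p.2

/-- its derivative at `y` in the direction `x` -/
private noncomputable def kd (β : ℂ → ℝ) (y x : ℂ × ℂ) : ℝ :=
  fderiv ℝ β y.1 x.1 * β y.2 + β y.1 * fderiv ℝ β y.2 x.2

private lemma rh_cont {β : ℂ → ℝ} (hβ : ContDiff ℝ ∞ β) : Continuous (rh β) :=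
  (hβ.continuous.comp continuous_fst).mul (hβ.continuous.comp continuous_snd)

private lemma rh_integral {β : ℂ → ℝ} (hI : ∫ x, β x = 1) : ∫ p, rh β p = 1 := by
  unfold rh
  rw [Measure.volume_eq_prod, integral_prod_mul, hI, one_mul]

private lemma rh_supp {β : ℂ → ℝ} {η : ℝ} (hs : tsupport β ⊆ closedBall 0 η) {p : ℂ × ℂ}
    (hp : rh β p ≠ 0) : ‖p‖ ≤ η := by
  unfold rh at hp
  obtain ⟨h1, h2⟩ := mul_ne_zero_iff.1 hp
  have h3 := hs (subset_tsupport β h1)
  have h4 := hs (subset_tsupport β h2)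
  rw [mem_closedBall_zero_iff] at h3 h4
  exact max_le h3 h4

private lemma rh_int {β : ℂ → ℝ} {η : ℝ} (hβ : ContDiff ℝ ∞ β) (hs : tsupport β ⊆ closedBall 0 η) :
    Integrable (rh β) := by
  refine (rh_cont hβ).integrable_of_hasCompactSupport ?_
  refine HasCompactSupport.intro (isCompact_closedBall (0 : ℂ × ℂ) η) fun x hx => ?_
  by_contra h
  exact hx (mem_closedBall_zero_iff.2 (rh_supp hs h))

private lemma kd_cont {β : ℂ → ℝ} (hβ : ContDiff ℝ ∞ β) :
    Continuous (fun z : (ℂ × ℂ) × (ℂ × ℂ) => kd β z.1 z.2) := by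
  have h1 : Continuous (fderiv ℝ β) := hβ.continuous_fderiv (by simp)
  have h2 : Continuous β := hβ.continuous
  unfold kd
  refine (((h1.comp (by fun_prop)).clm_apply (by fun_prop)).mul (h2.comp (by fun_prop))).add
    ((h2.comp (by fun_prop)).mul ((h1.comp (by fun_prop)).clm_apply (by fun_prop)))

private lemma kd_bound {β : ℂ → ℝ} (hβ : ContDiff ℝ ∞ β) (hc : HasCompactSupport β) :
    ∃ M : ℝ, 0 ≤ M ∧ ∀ y x, |kd β y x| ≤ M * ‖x‖ := by
  obtain ⟨A, hA⟩ := hc.exists_bound_of_continuous hβ.continuous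
  obtain ⟨B, hB⟩ := (hc.fderiv ℝ).exists_bound_of_continuous (hβ.continuous_fderiv (by simp))
  have hA0 : 0 ≤ A := (norm_nonneg _).trans (hA 0)
  have hB0 : 0 ≤ B := (norm_nonneg _).trans (hB 0)
  refine ⟨2 * A * B, by positivity, fun y x => ?_⟩
  unfold kd
  have h1 : |fderiv ℝ β y.1 x.1 * β y.2| ≤ (B * ‖x‖) * A := by
    rw [abs_mul]
    refine mul_le_mul ?_ (hA _) (abs_nonneg _) (by positivity)
    refine ((fderiv ℝ β y.1).le_opNorm x.1).trans ?_
    exact mul_le_mul (hB _) (norm_fst_le x) (norm_nonneg _) hB0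
  have h2 : |β y.1 * fderiv ℝ β y.2 x.2| ≤ A * (B * ‖x‖) := by
    rw [abs_mul]
    refine mul_le_mul (hA _) ?_ (abs_nonneg _) hA0
    refine ((fderiv ℝ β y.2).le_opNorm x.2).trans ?_
    exact mul_le_mul (hB _) (norm_snd_le x) (norm_nonneg _) hB0
  refine (abs_add_le _ _).trans ?_
  linarith

private lemma rh_deriv {β : ℂ → ℝ} (hβ : ContDiff ℝ ∞ β) (y x : ℂ × ℂ) (t : ℝ) :
    HasDerivAt (fun t : ℝ => rh β (y + t • x)) (kd β (y + t • x) x) t := by
  have hd : Differentiable ℝ β := hβ.differentiable (by simp)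
  have h1 : HasDerivAt (fun t : ℝ => (y + t • x).1) x.1 t := by
    have : HasDerivAt (fun t : ℝ => y.1 + t • x.1) ((1 : ℝ) • x.1) t :=
      ((hasDerivAt_id t).smul_const x.1).const_add y.1
    simpa using this
  have h2 : HasDerivAt (fun t : ℝ => (y + t • x).2) x.2 t := by
    have : HasDerivAt (fun t : ℝ => y.2 + t • x.2) ((1 : ℝ) • x.2) t :=
      ((hasDerivAt_id t).smul_const x.2).const_add y.2
    simpa using this
  have h3 := ((hd (y + t • x).1).hasFDerivAt.comp_hasDerivAt t h1)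
  have h4 := ((hd (y + t • x).2).hasFDerivAt.comp_hasDerivAt t h2)
  exact h3.mul h4

private lemma kd_supp {β : ℂ → ℝ} {η : ℝ} (hs : tsupport β ⊆ closedBall 0 η) {y : ℂ × ℂ}
    (hy : η < ‖y.1‖) (x : ℂ × ℂ) : kd β y x = 0 := by
  have h1 : y.1 ∉ tsupport β := by
    intro h
    have := hs h
    rw [mem_closedBall_zero_iff] at this
    linarith
  have h2 : β y.1 = 0 := image_eq_zero_of_notMem_tsupport h1
  have h3 : fderiv ℝ β y.1 = 0 := by
    have := support_fderiv_subset ℝ (f := β)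
    by_contra h
    exact h1 (this h)
  unfold kd
  rw [h2, h3]; simp


/-- mean value inequality on `[-|t|, |t|]` -/
private lemma mvi {E : Type*} [NormedAddCommGroup E] [NormedSpace ℝ E] {f f' : ℝ → E} {C t : ℝ}
    (hf : ∀ s, HasDerivAt f (f' s) s) (hC : ∀ s, |s| ≤ |t| → ‖f' s‖ ≤ C) :
    ‖f t - f 0‖ ≤ C * |t| := by
  have h1 := Convex.norm_image_sub_le_of_norm_hasDerivWithin_le (f := f) (f' := f')
    (s := Icc (-|t|) |t|) (C := C) (x := 0) (y := t) (fun s _ => (hf s).hasDerivWithinAt)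
    (fun s hs => hC s (abs_le.2 hs)) (convex_Icc _ _)
    ⟨by simp, abs_nonneg t⟩ ⟨neg_abs_le t, le_abs_self t⟩
  simpa using h1

/-- the main pointwise estimate -/
private lemma diff_est {X : ℂ × ℂ → ℂ × ℂ} {φ : ℝ → ℂ × ℂ → ℂ × ℂ} (hφ0 : ∀ q, φ 0 q = q)
    (hφ : ∀ q t, HasDerivAt (fun s => φ s q) (X (φ t q)) t)
    (hgr : ∀ s t q, φ (s + t) q = φ s (φ t q)) {Λ L : ℝ} (hΛ : ∀ q, ‖X q‖ ≤ Λ) (hL0 : 0 ≤ L)
    (hL : ∀ p q, ‖X p - X q‖ ≤ L * ‖p - q‖) {f g : ℂ × ℂ → ℝ} {K : NNReal} (hf : LipschitzWith K f)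
    (hd : ∀ q, HasDerivAt (fun t => f (φ t q)) (g q) 0) {ε δ η : ℝ}
    (hg : ∀ p q, ‖p - q‖ < δ → |g p - g q| ≤ ε) (q y : ℂ × ℂ) (hy : ‖y - q‖ ≤ η) (t : ℝ)
    (ht : Λ * |t| + η < δ) :
    |f (y + t • X q) - f y - t * g q| ≤ (K * L * (Λ * |t| + η) + ε) * |t| := by
  have hΛ0 : 0 ≤ Λ := (norm_nonneg _).trans (hΛ 0)
  -- the flow moves with bounded speed
  have h1 : ∀ s, |s| ≤ |t| → ‖φ s y - q‖ ≤ Λ * |t| + η := by
    intro s hs
    have h2 := mvi (f := fun s => φ s y) (t := s) (C := Λ) (hφ y) (fun r _ => hΛ _)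
    simp only [hφ0] at h2
    have h3 : φ s y - q = (φ s y - y) + (y - q) := by abel
    rw [h3]
    refine (norm_add_le _ _).trans ?_
    have h4 : Λ * |s| ≤ Λ * |t| := mul_le_mul_of_nonneg_left hs hΛ0
    linarith
  -- comparison with the straight line
  have h2 : ‖φ t y - (y + t • X q)‖ ≤ L * (Λ * |t| + η) * |t| := by
    have h3 : ∀ s, HasDerivAt (fun s => φ s y - s • X q) (X (φ s y) - X q) s := by
      intro s
      have h4 : HasDerivAt (fun s : ℝ => s • X q) ((1 : ℝ) • X q) s :=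
        (hasDerivAt_id s).smul_const (X q)
      rw [one_smul] at h4
      exact (hφ y s).sub h4
    have h4 := mvi (t := t) (C := L * (Λ * |t| + η)) h3 (fun s hs => by
      refine (hL _ _).trans ?_
      exact mul_le_mul_of_nonneg_left (h1 s hs) hL0)
    have h5 : φ t y - t • X q - (φ 0 y - (0 : ℝ) • X q) = φ t y - (y + t • X q) := by
      rw [hφ0, zero_smul]; abel
    rw [h5] at h4
    exact h4
  -- the derivative of `f` along the flow
  have h3 : ∀ s, HasDerivAt (fun s => f (φ s y) - s * g q) (g (φ s y) - g q) s := by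
    intro s
    have h4 : HasDerivAt (fun r => f (φ r y)) (g (φ s y)) s := by
      have h5 := hd (φ s y)
      have h6 : (fun r => f (φ r y)) = (fun r => f (φ (r - s) (φ s y))) := by
        funext r
        rw [← hgr, sub_add_cancel]
      rw [h6]
      have h7 : HasDerivAt (fun r : ℝ => f (φ r (φ s y))) (g (φ s y)) (s - s) := by
        rw [sub_self]; exact h5
      exact HasDerivAt.comp_sub_const s s h7
    have h5 : HasDerivAt (fun s : ℝ => s * g q) (1 * g q) s := (hasDerivAt_id s).mul_const (g q)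
    rw [one_mul] at h5
    exact h4.sub h5
  have h4 := mvi (t := t) (C := ε) h3 (fun s hs => hg _ _ (lt_of_le_of_lt (h1 s hs) ht))
  have h5 : f (φ t y) - t * g q - (f (φ 0 y) - 0 * g q) = f (φ t y) - f y - t * g q := by
    rw [hφ0]; ring
  rw [h5, Real.norm_eq_abs] at h4
  have h6 : |f (y + t • X q) - f (φ t y)| ≤ K * (L * (Λ * |t| + η) * |t|) := by
    have h7 := hf.dist_le_mul (y + t • X q) (φ t y)
    rw [Real.dist_eq, dist_comm, dist_eq_norm] at h7
    exact h7.trans (mul_le_mul_of_nonneg_left h2 K.2)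
  have h7 : f (y + t • X q) - f y - t * g q =
      (f (y + t • X q) - f (φ t y)) + (f (φ t y) - f y - t * g q) := by ring
  rw [h7]
  refine (abs_add_le _ _).trans ?_
  calc _ ≤ K * (L * (Λ * |t| + η) * |t|) + ε * |t| := add_le_add h6 h4
    _ = _ := by ring

private lemma vol_haar : (volume : Measure (ℂ × ℂ)).IsAddHaarMeasure := by
  rw [Measure.volume_eq_prod]; infer_instance

private lemma vol_neg : (volume : Measure (ℂ × ℂ)).IsNegInvariant := by
  have := vol_haar
  exact Measure.IsAddHaarMeasure.isNegInvariant_of_regular _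

/-- The smoothed function, at a fixed point. -/
private lemma D_est {X : ℂ × ℂ → ℂ × ℂ} {φ : ℝ → ℂ × ℂ → ℂ × ℂ} (hφ0 : ∀ q, φ 0 q = q)
    (hφ : ∀ q t, HasDerivAt (fun s => φ s q) (X (φ t q)) t)
    (hgr : ∀ s t q, φ (s + t) q = φ s (φ t q)) {Λ L : ℝ} (hΛ : ∀ q, ‖X q‖ ≤ Λ) (hL0 : 0 ≤ L)
    (hL : ∀ p q, ‖X p - X q‖ ≤ L * ‖p - q‖) {f g : ℂ × ℂ → ℝ} {K : NNReal} (hf : LipschitzWith K f)
    (hc : HasCompactSupport f)
    (hd : ∀ q, HasDerivAt (fun t => f (φ t q)) (g q) 0) {ε δ η : ℝ} (hε : 0 < ε) (hη : 0 < η)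
    (hηδ : η < δ)
    (hg : ∀ p q, ‖p - q‖ < δ → |g p - g q| ≤ ε) {β : ℂ → ℝ} (hβ : ContDiff ℝ ∞ β)
    (hβ0 : ∀ x, 0 ≤ β x) (hI : ∫ x, β x = 1) (hβc : HasCompactSupport β)
    (hs : tsupport β ⊆ closedBall 0 η) (q : ℂ × ℂ) :
    |(∫ p, f p * kd β (q - p) (X q)) - g q| ≤ K * L * η + 2 * ε := by
  have := vol_haar
  have := vol_neg
  have hΛ0 : 0 ≤ Λ := (norm_nonneg _).trans (hΛ 0)
  have hfc : Continuous f := hf.continuous
  obtain ⟨M, hM0, hM⟩ := kd_bound hβ hβc
  have hfi : Integrable f := hfc.integrable_of_hasCompactSupport hc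
  have hrc := rh_cont hβ
  have hkc := kd_cont hβ
  have hri := rh_int hβ hs
  -- the derivative under the integral
  have hder : HasDerivAt (fun t : ℝ => ∫ p, f p * rh β (q - p + t • X q))
      (∫ p, f p * kd β (q - p) (X q)) 0 := by
    have h1 := hasDerivAt_integral_of_dominated_loc_of_deriv_le (μ := (volume : Measure (ℂ × ℂ)))
      (F := fun (t : ℝ) p => f p * rh β (q - p + t • X q))
      (F' := fun (t : ℝ) p => f p * kd β (q - p + t • X q) (X q)) (x₀ := 0) (s := univ)
      (bound := fun p => |f p| * (M * ‖X q‖)) Filter.univ_mem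
      (Filter.Eventually.of_forall fun t => by
        refine Continuous.aestronglyMeasurable ?_
        exact hfc.mul (hrc.comp (by fun_prop)))
      (by
        refine Continuous.integrable_of_hasCompactSupport ?_ hc.mul_right
        exact hfc.mul (hrc.comp (by fun_prop)))
      (by
        refine Continuous.aestronglyMeasurable ?_
        refine hfc.mul ?_
        exact hkc.comp (g := fun z : (ℂ × ℂ) × (ℂ × ℂ) => kd β z.1 z.2)
          (f := fun p => (q - p + (0 : ℝ) • X q, X q)) (by fun_prop))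
      (Filter.Eventually.of_forall fun p t _ => by
        rw [Real.norm_eq_abs, abs_mul]
        exact mul_le_mul_of_nonneg_left (hM _ _) (abs_nonneg _))
      (hfi.abs.mul_const _)
      (Filter.Eventually.of_forall fun p t _ => (rh_deriv hβ (q - p) (X q) t).const_mul (f p))
    have h2 := h1.2
    simp only [zero_smul, add_zero] at h2
    exact h2
  have hF : ∀ t : ℝ, ∫ p, f p * rh β (q - p + t • X q) = ∫ p, f (q - p + t • X q) * rh β p := by
    intro t
    rw [← integral_sub_left_eq_self (fun p => f p * rh β (q - p + t • X q)) volume (q + t • X q)]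
    refine integral_congr_ae (Filter.Eventually.of_forall fun p => ?_)
    show f (q + t • X q - p) * rh β (q - (q + t • X q - p) + t • X q) = _
    congr 2 <;> abel
  simp_rw [hF] at hder
  have hfr : ∀ t : ℝ, Integrable (fun p => f (q - p + t • X q) * rh β p) := by
    intro t
    obtain ⟨B, hB⟩ := hc.exists_bound_of_continuous hfc
    exact hri.bdd_mul (c := B) (hfc.comp (by fun_prop)).aestronglyMeasurable
      (Filter.Eventually.of_forall fun p => hB _)
  -- the increments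
  have hinc : ∀ t : ℝ, Λ * |t| + η < δ →
      |((∫ p, f (q - p + t • X q) * rh β p) - t * g q) -
        ((∫ p, f (q - p + (0 : ℝ) • X q) * rh β p) - 0 * g q)| ≤
        (K * L * (Λ * |t| + η) + ε) * |t| := by
    intro t ht
    have h1 : ((∫ p, f (q - p + t • X q) * rh β p) - t * g q) -
        ((∫ p, f (q - p + (0 : ℝ) • X q) * rh β p) - 0 * g q) =
        ∫ p, (f (q - p + t • X q) - f (q - p) - t * g q) * rh β p := by
      have h2 : ∀ p, (f (q - p + t • X q) - f (q - p) - t * g q) * rh β p =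
          (f (q - p + t • X q) * rh β p - f (q - p + (0 : ℝ) • X q) * rh β p) -
            t * g q * rh β p := by
        intro p; rw [zero_smul, add_zero]; ring
      simp_rw [h2]
      have hA : Integrable (fun p => f (q - p + t • X q) * rh β p -
          f (q - p + (0 : ℝ) • X q) * rh β p) := (hfr t).sub (hfr 0)
      rw [integral_sub hA (hri.const_mul _), integral_sub (hfr t) (hfr 0),
        integral_const_mul, rh_integral hI]
      ring
    rw [h1, ← Real.norm_eq_abs]
    refine (norm_integral_le_of_norm_le (hri.const_mul ((K * L * (Λ * |t| + η) + ε) * |t|))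
      (Filter.Eventually.of_forall fun p => ?_)).trans ?_
    · rw [norm_mul, Real.norm_eq_abs,
        Real.norm_of_nonneg (show 0 ≤ rh β p from mul_nonneg (hβ0 _) (hβ0 _))]
      by_cases hp : rh β p = 0
      · rw [hp]; simp
      · refine mul_le_mul_of_nonneg_right ?_ (mul_nonneg (hβ0 _) (hβ0 _))
        refine diff_est hφ0 hφ hgr hΛ hL0 hL hf hd hg q (q - p) ?_ t ht
        rw [sub_sub_cancel_left, norm_neg]
        exact rh_supp hs hp
    · rw [integral_const_mul, rh_integral hI, mul_one]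
  have hder2 : HasDerivAt (fun t : ℝ => (∫ p, f (q - p + t • X q) * rh β p) - t * g q)
      ((∫ p, f p * kd β (q - p) (X q)) - g q) 0 := by
    have h5 : HasDerivAt (fun s : ℝ => s * g q) (1 * g q) 0 := (hasDerivAt_id _).mul_const (g q)
    rw [one_mul] at h5
    exact hder.sub h5
  have hfin := hder2.le_of_lip' (C := K * L * η + 2 * ε) (by positivity) (by
    have h6 : ∀ᶠ t : ℝ in 𝓝 0, Λ * |t| + η < δ ∧ K * L * (Λ * |t|) < ε := by
      have h7 : ∀ᶠ t : ℝ in 𝓝 0, Λ * |t| + η < δ := by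
        have : Tendsto (fun t : ℝ => Λ * |t| + η) (𝓝 0) (𝓝 (Λ * |(0 : ℝ)| + η)) := by
          apply Continuous.tendsto; fun_prop
        refine this.eventually (gt_mem_nhds ?_)
        simpa using hηδ
      have h8 : ∀ᶠ t : ℝ in 𝓝 0, K * L * (Λ * |t|) < ε := by
        have : Tendsto (fun t : ℝ => K * L * (Λ * |t|)) (𝓝 0) (𝓝 (K * L * (Λ * |(0 : ℝ)|))) := by
          apply Continuous.tendsto; fun_prop
        refine this.eventually (gt_mem_nhds ?_)
        simpa using hε
      exact h7.and h8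
    filter_upwards [h6] with t ht
    rw [sub_zero, Real.norm_eq_abs, Real.norm_eq_abs]
    refine (hinc t ht.1).trans ?_
    refine mul_le_mul_of_nonneg_right ?_ (abs_nonneg _)
    have := ht.2
    linarith)
  rw [Real.norm_eq_abs] at hfin
  exact hfin


/-- the inner integral vanishes -/
private lemma inner_zero {a : ℂ → ℝ} {μ : Measure ℂ} {m : ℂ → ℂ} (hD : Dat a μ m)
    {X : ℂ × ℂ → ℂ × ℂ} (hX : ∀ q : ℂ × ℂ, q.1 ∈ ball (0 : ℂ) (15 / 8) → ‖q.2‖ = 1 → X q = gf a q)
    {β : ℂ → ℝ} (hβ : ContDiff ℝ ∞ β) {η : ℝ} (hη : η < 1 / 16)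
    (hs : tsupport β ⊆ closedBall 0 η) {p : ℂ × ℂ} (hp : p.1 ∈ ball (0 : ℂ) (7 / 4)) :
    ∫ q, kd β (q - p) (X q) ∂(V μ m) = 0 := by
  have := hD.fin
  have hsub : ∀ c : ℂ, tsupport (fun z => β (z - c)) ⊆ closedBall c η := by
    intro c
    refine closure_minimal (fun z hz => ?_) isClosed_closedBall
    have h1 : z - c ∈ tsupport β := subset_tsupport β hz
    have h2 := hs h1
    rw [mem_closedBall_zero_iff] at h2
    rw [mem_closedBall, dist_eq_norm]
    exact h2
  have hsm : ∀ c : ℂ, ContDiff ℝ ∞ (fun z => β (z - c)) := fun c =>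
    hβ.comp (contDiff_id.sub contDiff_const)
  rw [mem_ball_zero_iff] at hp
  have h1 := prod_test hD (hsm p.1)
    (HasCompactSupport.of_support_subset_isCompact (isCompact_closedBall p.1 η)
      ((subset_tsupport _).trans (hsub p.1)))
    ((hsub p.1).trans (fun z hz => by
      rw [mem_closedBall, dist_eq_norm] at hz
      rw [mem_ball_zero_iff]
      calc ‖z‖ = ‖(z - p.1) + p.1‖ := by rw [sub_add_cancel]
        _ ≤ ‖z - p.1‖ + ‖p.1‖ := norm_add_le _ _
        _ < 2 := by linarith)) (hsm p.2)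
  rw [← h1]
  refine integral_congr_ae ?_
  filter_upwards [V_unit hD.m_meas hD.m_norm] with q hq
  show kd β (q - p) (X q) = fderiv ℝ (fun z => β (z - p.1)) q.1 (gf a q).1 * β (q.2 - p.2) +
    β (q.1 - p.1) * fderiv ℝ (fun z => β (z - p.2)) q.2 (gf a q).2
  rw [fderiv_comp_sub, fderiv_comp_sub]
  show _ = kd β (q - p) (gf a q)
  by_cases hq1 : q.1 ∈ ball (0 : ℂ) (15 / 8)
  · rw [hX q hq1 hq]
  · rw [mem_ball_zero_iff, not_lt] at hq1
    have h2 : η < ‖(q - p).1‖ := by
      have h3 : ‖q.1‖ ≤ ‖q.1 - p.1‖ + ‖p.1‖ := by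
        calc ‖q.1‖ = ‖(q.1 - p.1) + p.1‖ := by rw [sub_add_cancel]
          _ ≤ _ := norm_add_le _ _
      show η < ‖q.1 - p.1‖
      linarith
    rw [kd_supp hs h2, kd_supp hs h2]

theorem flow_null {a : ℂ → ℝ} {μ : Measure ℂ} {m : ℂ → ℂ} (hD : Dat a μ m) {X : ℂ × ℂ → ℂ × ℂ}
    {φ : ℝ → ℂ × ℂ → ℂ × ℂ} {h ℓ : ℝ} (hF : FlowD a X φ h ℓ) {f g : ℂ × ℂ → ℝ} {K : NNReal} (hf : LipschitzWith K f)
    (hc : HasCompactSupport f) (hs : tsupport f ⊆ {q | q.1 ∈ ball (0 : ℂ) (7 / 4)}) (hg : Continuous g)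
    (hgb : ∃ B, ∀ q, |g q| ≤ B) (hd : ∀ q, HasDerivAt (fun t => f (φ t q)) (g q) 0) :
    ∫ q, g q ∂(V μ m) = 0 := by
  have hfin := hD.fin
  have hVfin : IsFiniteMeasure (V μ m) := V_finite
  -- `g` has compact support
  have hgc : HasCompactSupport g := by
    refine HasCompactSupport.intro hc fun q hq => ?_
    have h1 : ∀ᶠ t in 𝓝 (0 : ℝ), f (φ t q) = 0 := by
      have h2 : ContinuousAt (fun t => φ t q) 0 := (hF.deriv q 0).continuousAt
      have h3 : ∀ᶠ t in 𝓝 (0 : ℝ), φ t q ∈ (tsupport f)ᶜ := by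
        apply h2
        show (tsupport f)ᶜ ∈ 𝓝 (φ 0 q)
        rw [hF.zero]
        exact (isClosed_tsupport f).isOpen_compl.mem_nhds hq
      filter_upwards [h3] with t ht
      exact image_eq_zero_of_notMem_tsupport ht
    have h2 : HasDerivAt (fun t => f (φ t q)) 0 0 := by
      have h3 : HasDerivAt (fun _ : ℝ => (0 : ℝ)) 0 0 := hasDerivAt_const _ _
      exact h3.congr_of_eventuallyEq h1
    exact (hd q).unique h2
  have hguc := hgc.uniformContinuous_of_continuous hg
  obtain ⟨Λ, hΛ⟩ := hF.X_supp.exists_bound_of_continuous hF.X_smooth.continuous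
  obtain ⟨L, hL⟩ := ContDiff.lipschitzWith_of_hasCompactSupport hF.X_supp hF.X_smooth (by simp)
  have hΛ0 : 0 ≤ Λ := (norm_nonneg _).trans (hΛ 0)
  have hL' : ∀ p q, ‖X p - X q‖ ≤ L * ‖p - q‖ := by
    intro p q
    have := hL.dist_le_mul p q
    rwa [dist_eq_norm, dist_eq_norm] at this
  obtain ⟨B, hB⟩ := hgb
  have hgi : Integrable g (V μ m) := Integrable.of_bound hg.aestronglyMeasurable B
    (Filter.Eventually.of_forall fun q => hB q)
  have hfc : Continuous f := hf.continuous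
  have hfi : Integrable f := hfc.integrable_of_hasCompactSupport hc
  -- the main estimate
  have key : ∀ ε : ℝ, 0 < ε → |∫ q, g q ∂(V μ m)| ≤ 3 * ε * (V μ m).real univ := by
    intro ε hε
    obtain ⟨δ, hδ, hgδ⟩ := Metric.uniformContinuous_iff.1 hguc ε hε
    set η : ℝ := min (1 / 32) (min (δ / 2) (ε / (K * L + 1))) with hη
    have hKL : (0 : ℝ) ≤ K * L := by positivity
    have hη0 : 0 < η := by
      rw [hη]; positivity
    have hη1 : η ≤ 1 / 32 := min_le_left _ _
    have hη2 : η ≤ δ / 2 := (min_le_right _ _).trans (min_le_left _ _)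
    have hη3 : η ≤ ε / (K * L + 1) := (min_le_right _ _).trans (min_le_right _ _)
    have hη4 : K * L * η ≤ ε := by
      rw [le_div_iff₀ (by positivity)] at hη3
      nlinarith
    obtain ⟨β, hβ, hβ0, hI, hβc, hβs⟩ := exists_bump hη0
    obtain ⟨M, hM0, hM⟩ := kd_bound hβ hβc
    have hD1 : ∀ q, |(∫ p, f p * kd β (q - p) (X q)) - g q| ≤ 3 * ε := by
      intro q
      have h1 := D_est hF.zero hF.deriv hF.group hΛ L.2 hL' hf hc hd (ε := ε) (δ := δ) hε hη0
        (by linarith) (fun p q hpq => by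
          have := hgδ (show dist p q < δ by rw [dist_eq_norm]; exact hpq)
          rw [Real.dist_eq] at this
          exact this.le) hβ hβ0 hI hβc hβs q
      refine h1.trans ?_
      show (K : ℝ) * L * η + 2 * ε ≤ 3 * ε
      linarith
    have hint : Integrable (fun z : (ℂ × ℂ) × (ℂ × ℂ) => f z.1 * kd β (z.2 - z.1) (X z.2))
        ((volume : Measure (ℂ × ℂ)).prod (V μ m)) := by
      refine Integrable.mono' ((hfi.abs.mul_const (M * Λ)).comp_fst (V μ m)) ?_
        (Filter.Eventually.of_forall fun z => ?_)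
      · refine Continuous.aestronglyMeasurable ?_
        refine (hfc.comp continuous_fst).mul ?_
        have hXc := hF.X_smooth.continuous
        exact (kd_cont hβ).comp (g := fun z : (ℂ × ℂ) × (ℂ × ℂ) => kd β z.1 z.2)
          (f := fun z : (ℂ × ℂ) × (ℂ × ℂ) => (z.2 - z.1, X z.2)) (by fun_prop)
      · rw [Real.norm_eq_abs, abs_mul]
        refine mul_le_mul_of_nonneg_left ?_ (abs_nonneg _)
        exact (hM _ _).trans (mul_le_mul_of_nonneg_left (hΛ _) hM0)
    have hDi : Integrable (fun q => ∫ p, f p * kd β (q - p) (X q)) (V μ m) :=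
      hint.integral_prod_right
    have hD0 : ∫ q, (∫ p, f p * kd β (q - p) (X q)) ∂(V μ m) = 0 := by
      have h1 := integral_integral_swap (f := fun (p q : ℂ × ℂ) => f p * kd β (q - p) (X q)) hint
      rw [← h1]
      have h2 : ∀ p : ℂ × ℂ, ∫ q, f p * kd β (q - p) (X q) ∂(V μ m) = 0 := by
        intro p
        rw [integral_const_mul]
        by_cases hp : f p = 0
        · rw [hp, zero_mul]
        · have h3 : p ∈ tsupport f := subset_tsupport f hp
          rw [inner_zero hD hF.X_eq hβ (by linarith) hβs (hs h3), mul_zero]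
      simp_rw [h2]
      simp
    have h1 : ∫ q, g q ∂(V μ m) = -∫ q, ((∫ p, f p * kd β (q - p) (X q)) - g q) ∂(V μ m) := by
      rw [integral_sub hDi hgi, hD0]; ring
    rw [h1, abs_neg, ← Real.norm_eq_abs]
    refine norm_integral_le_of_norm_le_const (Filter.Eventually.of_forall fun q => ?_)
    rw [Real.norm_eq_abs]
    exact hD1 q
  by_contra hne
  have hpos : 0 < |∫ q, g q ∂(V μ m)| := abs_pos.2 hne
  set A := |∫ q, g q ∂(V μ m)| with hA
  have hV0 : 0 ≤ (V μ m).real univ := measureReal_nonneg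
  have h1 := key (A / (6 * ((V μ m).real univ + 1))) (by positivity)
  have h2 : 3 * (A / (6 * ((V μ m).real univ + 1))) * (V μ m).real univ ≤ A / 2 := by
    have h3 : 3 * (A / (6 * ((V μ m).real univ + 1))) * (V μ m).real univ =
        A / 2 * ((V μ m).real univ / ((V μ m).real univ + 1)) := by
      field_simp; ring
    rw [h3]
    have h4 : (V μ m).real univ / ((V μ m).real univ + 1) ≤ 1 := by
      rw [div_le_one (by linarith)]; linarith
    nlinarith
  linarith

end Pool.Agent.Helper53.CL.F
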