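import Pool.Agent.Helper53.CL.F.F04

/-!
# CL-F05: local invariance of the measure `V` (about 200 lines)

`flow_test`: `F` smooth with compact support in `{q | q.1 ∈ ball 0 (3/2)}`, `|s| ≤ h`: `∫ F (φ s q) dV = ∫ F dV`.  Proof.
`I t = ∫ F (φ t q) dV` has derivative `∫ g (φ t q) dV`, `g q = DF(q)(X q)` (differentiation under the integral, all bounded).
For `|t| ≤ h` put `f = F ∘ φ t`: Lipschitz, compact support (`φ t` is a homeomorphism with inverse `φ (-t)`); on the set
`|ζ| = 1` its support is in `{q.1 ∈ ball 0 (3/2 + 1/8)}` by `move`; multiply `F` first by a cut off in `ζ` equal to `1` near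
`|ζ| = 1` is NOT needed for `V` but for `tsupport f ⊆ {q.1 ∈ ball 0 (7/4)}`: WLOG replace `F` by `F * θ(ζ)` with `θ` smooth,
`1` near `|ζ| = 1`, support in `1/2 ≤ |ζ| ≤ 2`... the displacement bound `move` is only stated for `|ζ| = 1`, so instead
multiply `f` by a smooth cut off `κ(q.1)`, `1` on `ball 0 (27/16)`, support in `ball 0 (7/4)`: `κ f` is Lipschitz with compact
support and `d/dt (κ f)(φ t q) = g(φ ..)` on `|ζ| = 1` because there `f` vanishes near the points with `κ ≠ 1`.
So `flow_null` applied to `κ f` gives `∫ (derivative of κ f along the flow) dV = 0` and this derivative equals `g (φ t q)` for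
all `q` with `|ζ| = 1`, hence `V` almost everywhere.

`map_flow`: for Borel `B ⊆ {q | q.1 ∈ ball 0 (3/2)}`: `V (φ s ⁻¹' B) = V B`.  The finite measures `(V.map (φ s))` and `V`
restricted to the open set `{q.1 ∈ ball 0 (3/2)}` have the same integrals of smooth functions with compact support in this
open set, so they agree on compact subsets (smooth Urysohn functions decreasing to the indicator), hence on Borel sets.
-/

namespace Pool.Agent.Helper53.CL.F

open MeasureTheory Filter Topology Metric Set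
open scoped ContDiff Real ENNReal

private theorem f05_bump : ∃ β : ℂ → ℝ, ContDiff ℝ ∞ β ∧ HasCompactSupport β ∧
    tsupport β ⊆ closedBall 0 (111 / 64) ∧ (∀ z ∈ ball (0 : ℂ) (27 / 16), β z = 1) ∧
    ∀ z, |β z| ≤ 1 := by
  let b : ContDiffBump (0 : ℂ) := ⟨27 / 16, 111 / 64, by norm_num, by norm_num⟩
  refine ⟨b, b.contDiff, b.hasCompactSupport, b.tsupport_eq.le, fun z hz =>
    b.one_of_mem_closedBall (ball_subset_closedBall hz), fun z => ?_⟩
  rw [abs_of_nonneg b.nonneg]
  exact b.le_one

private theorem f05_cont {X : ℂ × ℂ → ℂ × ℂ} (hX : ContDiff ℝ ∞ X) {F : ℂ × ℂ → ℝ} (hFs : ContDiff ℝ ∞ F) :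
    Continuous fun q => fderiv ℝ F q (X q) :=
  (hFs.continuous_fderiv (by simp)).clm_apply hX.continuous

private theorem f05_bound {X : ℂ × ℂ → ℂ × ℂ} (hX : ContDiff ℝ ∞ X) {F : ℂ × ℂ → ℝ} (hFs : ContDiff ℝ ∞ F)
    (hc : HasCompactSupport F) : ∃ B : ℝ, ∀ q, |fderiv ℝ F q (X q)| ≤ B := by
  have h1 : HasCompactSupport fun q => fderiv ℝ F q (X q) := by
    refine HasCompactSupport.intro hc fun q hq => ?_
    rw [fderiv_of_notMem_tsupport (𝕜 := ℝ) hq]
    rfl
  obtain ⟨B, hB⟩ := h1.exists_bound_of_continuous (f05_cont hX hFs)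
  exact ⟨B, hB⟩

/-- the derivative of the test integral vanishes -/
private theorem f05_null {a : ℂ → ℝ} {μ : Measure ℂ} {m : ℂ → ℂ} (hD : Dat a μ m) {X : ℂ × ℂ → ℂ × ℂ}
    {φ : ℝ → ℂ × ℂ → ℂ × ℂ} {h ℓ : ℝ} (hF : FlowD a X φ h ℓ) {F : ℂ × ℂ → ℝ} (hFs : ContDiff ℝ ∞ F)
    (hc : HasCompactSupport F) (hs : tsupport F ⊆ {q | q.1 ∈ ball (0 : ℂ) (3 / 2)}) {t : ℝ} (ht : |t| ≤ h) :
    ∫ q, fderiv ℝ F (φ t q) (X (φ t q)) ∂(V μ m) = 0 := by
  have hfin := hD.fin
  have hunit := V_unit (μ := μ) hD.m_meas hD.m_norm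
  obtain ⟨Kφ, hKφ⟩ := hF.lip
  have hLφ : LipschitzWith Kφ (φ t) := hKφ t (ht.trans hF.h_le)
  have hφc : Continuous (φ t) := hLφ.continuous
  have hFd : Differentiable ℝ F := hFs.differentiable (by simp)
  obtain ⟨K1, hK1⟩ : ∃ K1 : NNReal, LipschitzWith K1 F :=
    hFs.lipschitzWith_of_hasCompactSupport hc (by simp)
  obtain ⟨B1, hB1⟩ := hc.exists_bound_of_continuous hFs.continuous
  -- the cut off
  obtain ⟨b, hbs, hbc, hbt, hb1, hb2⟩ := f05_bump
  obtain ⟨K2, hK2⟩ : ∃ K2 : NNReal, LipschitzWith K2 b :=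
    hbs.lipschitzWith_of_hasCompactSupport hbc (by simp)
  have hbd : Differentiable ℝ b := hbs.differentiable (by simp)
  set f : ℂ × ℂ → ℝ := fun q => b q.1 * F (φ t q) with hf
  set g : ℂ × ℂ → ℝ := fun q => fderiv ℝ b q.1 (X q).1 * F (φ t q) +
    b q.1 * fderiv ℝ F (φ t q) (X (φ t q)) with hg
  have hfc : Continuous f := (hbs.continuous.comp continuous_fst).mul (hFs.continuous.comp hφc)
  -- support
  have hinv : ∀ q, φ (-t) (φ t q) = q := fun q => by
    rw [← hF.group, neg_add_cancel, hF.zero]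
  have hcomp : HasCompactSupport fun q => F (φ t q) := by
    have hcn : Continuous (φ (-t)) := hF.cont.comp (Continuous.prodMk continuous_const continuous_id)
    refine HasCompactSupport.intro (hc.isCompact.image hcn) fun q hq => ?_
    by_contra h0
    exact hq ⟨φ t q, subset_tsupport F h0, hinv q⟩
  have hfs : HasCompactSupport f := hcomp.mul_left
  have hft : tsupport f ⊆ {q | q.1 ∈ ball (0 : ℂ) (7 / 4)} := by
    have h1 : tsupport f ⊆ {q : ℂ × ℂ | q.1 ∈ closedBall (0 : ℂ) (111 / 64)} := by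
      refine closure_minimal (fun q hq => ?_) (isClosed_closedBall.preimage continuous_fst)
      have h2 : b q.1 ≠ 0 := left_ne_zero_of_mul hq
      exact hbt (subset_tsupport b h2)
    refine h1.trans fun q hq => ?_
    exact closedBall_subset_ball (by norm_num) hq
  -- Lipschitz
  have hfl : ∃ K : NNReal, LipschitzWith K f := by
    have hB0 : 0 ≤ B1 := (norm_nonneg _).trans (hB1 0)
    refine ⟨K2 * B1.toNNReal + K1 * Kφ, LipschitzWith.of_dist_le_mul fun p q => ?_⟩
    have e1 : f p - f q = (b p.1 - b q.1) * F (φ t p) + b q.1 * (F (φ t p) - F (φ t q)) := by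
      simp only [hf]
      ring
    rw [Real.dist_eq, e1]
    refine (abs_add_le _ _).trans ?_
    rw [abs_mul, abs_mul]
    have h1 : |b p.1 - b q.1| ≤ K2 * dist p q := by
      have h2 := hK2.dist_le_mul p.1 q.1
      rw [Real.dist_eq] at h2
      refine h2.trans (mul_le_mul_of_nonneg_left ?_ K2.2)
      exact le_max_left _ _
    have h3 : |F (φ t p)| ≤ B1 := hB1 _
    have h4 : |b q.1| ≤ 1 := hb2 _
    have h5 : |F (φ t p) - F (φ t q)| ≤ K1 * (Kφ * dist p q) := by
      have h6 := hK1.dist_le_mul (φ t p) (φ t q)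
      rw [Real.dist_eq] at h6
      exact h6.trans (mul_le_mul_of_nonneg_left (hLφ.dist_le_mul p q) K1.2)
    have h7 : |b p.1 - b q.1| * |F (φ t p)| ≤ (K2 * dist p q) * B1 :=
      mul_le_mul h1 h3 (abs_nonneg _) (mul_nonneg K2.2 dist_nonneg)
    have h8 : |b q.1| * |F (φ t p) - F (φ t q)| ≤ 1 * (K1 * (Kφ * dist p q)) :=
      mul_le_mul h4 h5 (abs_nonneg _) zero_le_one
    have h9 : (((K2 * B1.toNNReal + K1 * Kφ : NNReal)) : ℝ) = K2 * B1 + K1 * Kφ := by
      push_cast
      rw [Real.coe_toNNReal _ hB0]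
    rw [h9]
    calc _ ≤ (K2 * dist p q) * B1 + 1 * (K1 * (Kφ * dist p q)) := add_le_add h7 h8
      _ = _ := by ring
  obtain ⟨K, hK⟩ := hfl
  -- `g` is continuous and bounded
  have hGc := f05_cont hF.X_smooth hFs
  have hgc : Continuous g := by
    have h1 : Continuous fun q : ℂ × ℂ => fderiv ℝ b q.1 (X q).1 :=
      ((hbs.continuous_fderiv (by simp)).comp continuous_fst).clm_apply
        (continuous_fst.comp hF.X_smooth.continuous)
    exact (h1.mul (hFs.continuous.comp hφc)).add ((hbs.continuous.comp continuous_fst).mul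
      (hGc.comp hφc))
  have hgb : ∃ B, ∀ q, |g q| ≤ B := by
    have h1 : HasCompactSupport g := by
      refine HasCompactSupport.intro hcomp fun q hq => ?_
      have h2 : F (φ t q) = 0 :=
        image_eq_zero_of_notMem_tsupport (f := fun q => F (φ t q)) hq
      have h3 : fderiv ℝ F (φ t q) = 0 := by
        by_contra h4
        have hopen : (tsupport fun q => F (φ t q))ᶜ ∈ 𝓝 q :=
          (isClosed_tsupport _).isOpen_compl.mem_nhds hq
        -- near `φ t q` the function `F` vanishes
        have hcn : Continuous (φ (-t)) :=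
          hF.cont.comp (Continuous.prodMk continuous_const continuous_id)
        have h5 : ∀ᶠ p in 𝓝 (φ t q), F p = 0 := by
          have h6 : φ (-t) ⁻¹' (tsupport fun q => F (φ t q))ᶜ ∈ 𝓝 (φ t q) := by
            refine hcn.continuousAt.preimage_mem_nhds ?_
            rw [hinv]
            exact hopen
          filter_upwards [h6] with p hp
          have h7 : F (φ t (φ (-t) p)) = 0 :=
            image_eq_zero_of_notMem_tsupport (f := fun q => F (φ t q)) hp
          rwa [← hF.group, add_neg_cancel, hF.zero] at h7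
        have h8 : F =ᶠ[𝓝 (φ t q)] fun _ => 0 := h5
        exact h4 (by rw [h8.fderiv_eq]; exact fderiv_const_apply _)
      simp only [hg]
      rw [h2, h3]
      simp
    obtain ⟨B, hB⟩ := h1.exists_bound_of_continuous hgc
    exact ⟨B, hB⟩
  -- the derivative along the flow
  have hd : ∀ q, HasDerivAt (fun r => f (φ r q)) (g q) 0 := by
    intro q
    have h1 : HasDerivAt (fun r => φ r q) (X q) 0 := by
      have := hF.deriv q 0
      rwa [hF.zero] at this
    have h2 : HasDerivAt (fun r => (φ r q).1) (X q).1 0 := by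
      simpa using h1.hasFDerivAt.fst.hasDerivAt
    have h3 : HasDerivAt (fun r => b (φ r q).1) (fderiv ℝ b q.1 (X q).1) 0 := by
      have h4 : HasFDerivAt b (fderiv ℝ b q.1) (φ 0 q).1 := by
        rw [hF.zero]
        exact (hbd q.1).hasFDerivAt
      exact h4.comp_hasDerivAt (0 : ℝ) h2
    have h5 : HasDerivAt (fun r => F (φ t (φ r q))) (fderiv ℝ F (φ t q) (X (φ t q))) 0 := by
      have h6 : (fun r => F (φ t (φ r q))) = fun r => F (φ (t + r) q) := by
        funext r
        rw [hF.group]
      rw [h6]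
      have h7 : HasDerivAt (fun r => φ r q) (X (φ t q)) (t + 0) := by
        rw [add_zero]
        exact hF.deriv q t
      have h8 : HasDerivAt (fun r => φ (t + r) q) (X (φ t q)) 0 := HasDerivAt.comp_const_add t 0 h7
      have h9 : HasFDerivAt F (fderiv ℝ F (φ t q)) (φ (t + 0) q) := by
        rw [add_zero]
        exact (hFd _).hasFDerivAt
      exact h9.comp_hasDerivAt (0 : ℝ) h8
    have h10 := h3.mul h5
    refine h10.congr_deriv ?_
    simp only [hg, hF.zero]
  have hmain := flow_null hD hF hK hfs hft hgc hgb hd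
  rw [← hmain]
  refine integral_congr_ae ?_
  filter_upwards [hunit] with q hq
  simp only [hg]
  by_cases hq1 : q.1 ∈ ball (0 : ℂ) (27 / 16)
  · have h1 : b q.1 = 1 := hb1 _ hq1
    have h2 : fderiv ℝ b q.1 = 0 := by
      have h3 : b =ᶠ[𝓝 q.1] fun _ => 1 := by
        filter_upwards [isOpen_ball.mem_nhds hq1] with z hz
        exact hb1 _ hz
      rw [h3.fderiv_eq]
      exact fderiv_const_apply _
    rw [h1, h2]
    simp
  · have h1 : φ t q ∉ tsupport F := by
      intro h2
      have h3 := hs h2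
      have h4 := hF.move q t hq ht
      rw [mem_ofPred_eq, mem_ball_zero_iff] at h3
      rw [mem_ball_zero_iff, not_lt] at hq1
      have h5 : ‖q.1‖ ≤ ‖(φ t q).1‖ + ‖(φ t q).1 - q.1‖ := by
        have := norm_sub_le (φ t q).1 ((φ t q).1 - q.1)
        rwa [sub_sub_cancel] at this
      linarith
    rw [image_eq_zero_of_notMem_tsupport h1, fderiv_of_notMem_tsupport (𝕜 := ℝ) h1]
    simp

theorem flow_test {a : ℂ → ℝ} {μ : Measure ℂ} {m : ℂ → ℂ} (hD : Dat a μ m) {X : ℂ × ℂ → ℂ × ℂ}
    {φ : ℝ → ℂ × ℂ → ℂ × ℂ} {h ℓ : ℝ} (hF : FlowD a X φ h ℓ) {F : ℂ × ℂ → ℝ} (hFs : ContDiff ℝ ∞ F)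
    (hc : HasCompactSupport F) (hs : tsupport F ⊆ {q | q.1 ∈ ball (0 : ℂ) (3 / 2)}) {s : ℝ} (hsh : |s| ≤ h) :
    ∫ q, F (φ s q) ∂(V μ m) = ∫ q, F q ∂(V μ m) := by
  have hfin := hD.fin
  have hVfin : IsFiniteMeasure (V μ m) := V_finite
  obtain ⟨B1, hB1⟩ := hc.exists_bound_of_continuous hFs.continuous
  obtain ⟨B2, hB2⟩ := f05_bound hF.X_smooth hFs hc
  have hGc := f05_cont hF.X_smooth hFs
  have hφc : ∀ t, Continuous (φ t) := fun t =>
    hF.cont.comp (Continuous.prodMk continuous_const continuous_id)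
  have hder : ∀ t, HasDerivAt (fun t => ∫ q, F (φ t q) ∂(V μ m))
      (∫ q, fderiv ℝ F (φ t q) (X (φ t q)) ∂(V μ m)) t := by
    intro t
    exact (hasDerivAt_integral_of_dominated_loc_of_deriv_le (μ := V μ m)
      (F := fun (t : ℝ) q => F (φ t q))
      (F' := fun (t : ℝ) q => fderiv ℝ F (φ t q) (X (φ t q))) (x₀ := t) (s := univ)
      (bound := fun _ => B2) Filter.univ_mem
      (Filter.Eventually.of_forall fun r =>
        (hFs.continuous.comp (hφc r)).aestronglyMeasurable)
      (Integrable.of_bound (hFs.continuous.comp (hφc t)).aestronglyMeasurable B1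
        (Filter.Eventually.of_forall fun q => hB1 _))
      (hGc.comp (hφc t)).aestronglyMeasurable
      (Filter.Eventually.of_forall fun q r _ => hB2 _)
      (integrable_const _)
      (Filter.Eventually.of_forall fun q r _ =>
        ((hFs.differentiable (by simp)) _).hasFDerivAt.comp_hasDerivAt r (hF.deriv q r))).2
  have h1 := Convex.norm_image_sub_le_of_norm_hasDerivWithin_le
    (f := fun t => ∫ q, F (φ t q) ∂(V μ m))
    (f' := fun t => ∫ q, fderiv ℝ F (φ t q) (X (φ t q)) ∂(V μ m))
    (s := Icc (-h) h) (C := 0) (x := 0) (y := s) (fun t _ => (hder t).hasDerivWithinAt)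
    (fun t ht => by
      rw [f05_null hD hF hFs hc hs (abs_le.2 ht), norm_zero]) (convex_Icc _ _)
    ⟨by linarith [hF.h_pos], hF.h_pos.le⟩ (abs_le.1 hsh)
  rw [zero_mul, norm_le_zero_iff, sub_eq_zero] at h1
  simp only [hF.zero] at h1
  exact h1

theorem map_flow {a : ℂ → ℝ} {μ : Measure ℂ} {m : ℂ → ℂ} (hD : Dat a μ m) {X : ℂ × ℂ → ℂ × ℂ}
    {φ : ℝ → ℂ × ℂ → ℂ × ℂ} {h ℓ : ℝ} (hF : FlowD a X φ h ℓ) {B : Set (ℂ × ℂ)} (hB : MeasurableSet B)
    (hs : B ⊆ {q | q.1 ∈ ball (0 : ℂ) (3 / 2)}) {s : ℝ} (hsh : |s| ≤ h) : V μ m (φ s ⁻¹' B) = V μ m B := by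
  have hfin := hD.fin
  have hVfin : IsFiniteMeasure (V μ m) := V_finite
  have hφc : Continuous (φ s) := hF.cont.comp (Continuous.prodMk continuous_const continuous_id)
  have hν : IsFiniteMeasure ((V μ m).map (φ s)) := Measure.isFiniteMeasure_map _ _
  set U : Set (ℂ × ℂ) := {q | q.1 ∈ ball (0 : ℂ) (3 / 2)} with hU
  have hUo : IsOpen U := isOpen_ball.preimage continuous_fst
  -- relatively compact open sets
  have key : ∀ W : Set (ℂ × ℂ), IsOpen W → IsCompact (closure W) → closure W ⊆ U →
      (V μ m).map (φ s) W = V μ m W := by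
    intro W hW hWc hWU
    obtain ⟨f, hf1, hf2, hf3⟩ := hW.exists_contDiff_support_eq (n := ⊤)
    have hf0 : ∀ q, 0 ≤ f q := fun q => (hf3 ⟨q, rfl⟩).1
    let G : ℕ → ℂ × ℂ → ℝ := fun n q => n * f q * (1 + n * f q)⁻¹
    have hpos : ∀ (n : ℕ) q, 0 < 1 + n * f q := fun n q => by
      have := mul_nonneg (Nat.cast_nonneg (α := ℝ) n) (hf0 q)
      linarith
    have hGs : ∀ n, ContDiff ℝ ∞ (G n) := fun n => by
      have h1 : ContDiff ℝ ∞ fun q => (n : ℝ) * f q := contDiff_const.mul hf2
      exact h1.mul ((contDiff_const.add h1).inv fun q => (hpos n q).ne')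
    have hGsupp : ∀ n, Function.support (G n) ⊆ W := fun n q hq => by
      rw [← hf1]
      exact fun h0 => hq (by simp only [G]; rw [h0]; simp)
    have hGt : ∀ n, tsupport (G n) ⊆ closure W := fun n => closure_mono (hGsupp n)
    have hGc : ∀ n, HasCompactSupport (G n) := fun n =>
      hWc.of_isClosed_subset (isClosed_tsupport _) (hGt n)
    have hG01 : ∀ n q, |G n q| ≤ 1 := fun n q => by
      have h1 := mul_nonneg (Nat.cast_nonneg (α := ℝ) n) (hf0 q)
      simp only [G]
      rw [abs_of_nonneg (mul_nonneg h1 (inv_nonneg.2 (hpos n q).le)), ← div_eq_mul_inv,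
        div_le_one (hpos n q)]
      linarith
    have hlim : ∀ q, Tendsto (fun n => G n q) atTop (𝓝 (W.indicator (fun _ => (1 : ℝ)) q)) := by
      intro q
      by_cases hq : q ∈ W
      · rw [indicator_of_mem hq]
        have hfq : 0 < f q := lt_of_le_of_ne (hf0 q) (by
          rw [← hf1] at hq
          exact fun h0 => hq h0.symm)
        have h1 : ∀ n, G n q = 1 - (1 + n * f q)⁻¹ := fun n => by
          simp only [G]
          have := (hpos n q).ne'
          field_simp
          ring
        simp_rw [h1]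
        have h2 : Tendsto (fun n : ℕ => (1 + (n : ℝ) * f q)⁻¹) atTop (𝓝 0) :=
          (tendsto_atTop_add_const_left _ _
            (tendsto_natCast_atTop_atTop.atTop_mul_const hfq)).inv_tendsto_atTop
        simpa using tendsto_const_nhds.sub h2
      · rw [indicator_of_notMem hq]
        have h1 : ∀ n, G n q = 0 := fun n => by
          by_contra h0
          exact hq (hGsupp n h0)
        simp_rw [h1]
        exact tendsto_const_nhds
    have hint : ∀ (ν : Measure (ℂ × ℂ)) [IsFiniteMeasure ν],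
        Tendsto (fun n => ∫ q, G n q ∂ν) atTop (𝓝 (ν.real W)) := by
      intro ν _
      have h1 := tendsto_integral_of_dominated_convergence (μ := ν) (F := G)
        (f := W.indicator (fun _ => (1 : ℝ))) (fun _ => (1 : ℝ))
        (fun n => (hGs n).continuous.aestronglyMeasurable) (integrable_const _)
        (fun n => Filter.Eventually.of_forall fun q => hG01 n q)
        (Filter.Eventually.of_forall hlim)
      rw [integral_indicator_const _ hW.measurableSet, smul_eq_mul, mul_one] at h1
      exact h1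
    have h1 := hint ((V μ m).map (φ s))
    have h2 := hint (V μ m)
    have h3 : ∀ n, ∫ q, G n q ∂((V μ m).map (φ s)) = ∫ q, G n q ∂(V μ m) := fun n => by
      rw [integral_map hφc.aemeasurable (hGs n).continuous.aestronglyMeasurable]
      exact flow_test hD hF (hGs n) (hGc n) ((hGt n).trans hWU) hsh
    simp_rw [h3] at h1
    have h4 := tendsto_nhds_unique h1 h2
    rw [measureReal_def, measureReal_def] at h4
    exact (ENNReal.toReal_eq_toReal_iff' (measure_ne_top _ _) (measure_ne_top _ _)).1 h4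
  -- open subsets of `U`
  have key2 : ∀ W : Set (ℂ × ℂ), IsOpen W → W ⊆ U → (V μ m).map (φ s) W = V μ m W := by
    intro W hW hWU
    let C : ℕ → Set (ℂ × ℂ) := fun n => W ∩ ({q | q.1 ∈ ball (0 : ℂ) (3 / 2 - 1 / (n + 1))} ∩
      ball (0 : ℂ × ℂ) n)
    have hCo : ∀ n, IsOpen (C n) := fun n =>
      hW.inter ((isOpen_ball.preimage continuous_fst).inter isOpen_ball)
    have hCc : ∀ n, closure (C n) ⊆ {q | q.1 ∈ closedBall (0 : ℂ) (3 / 2 - 1 / (n + 1))} ∩
        closedBall (0 : ℂ × ℂ) n := fun n => by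
      refine closure_minimal (fun q hq => ?_)
        ((isClosed_closedBall.preimage continuous_fst).inter isClosed_closedBall)
      exact ⟨ball_subset_closedBall hq.2.1, ball_subset_closedBall hq.2.2⟩
    have hU1 : ⋃ n, C n = W := by
      refine subset_antisymm (iUnion_subset fun n => inter_subset_left) fun q hq => ?_
      have h1 := hWU hq
      rw [hU, mem_ofPred_eq, mem_ball_zero_iff] at h1
      obtain ⟨n1, hn1⟩ := exists_nat_one_div_lt (sub_pos.2 h1)
      obtain ⟨n2, hn2⟩ := exists_nat_gt ‖q‖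
      refine mem_iUnion.2 ⟨max n1 n2, hq, ?_, ?_⟩
      · rw [mem_ofPred_eq, mem_ball_zero_iff]
        have h3 : 1 / (((max n1 n2 : ℕ) : ℝ) + 1) ≤ 1 / ((n1 : ℝ) + 1) := by
          apply one_div_le_one_div_of_le (by positivity)
          have : (n1 : ℝ) ≤ ((max n1 n2 : ℕ) : ℝ) := by exact_mod_cast le_max_left n1 n2
          linarith
        linarith
      · rw [mem_ball_zero_iff]
        have : (n2 : ℝ) ≤ ((max n1 n2 : ℕ) : ℝ) := by exact_mod_cast le_max_right n1 n2
        linarith
    have hmono : Monotone C := by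
      intro i j hij q hq
      refine ⟨hq.1, ?_, ?_⟩
      · have h1 := hq.2.1
        rw [mem_ofPred_eq, mem_ball_zero_iff] at h1 ⊢
        have h3 : 1 / ((j : ℝ) + 1) ≤ 1 / ((i : ℝ) + 1) := by
          apply one_div_le_one_div_of_le (by positivity)
          have : (i : ℝ) ≤ (j : ℝ) := by exact_mod_cast hij
          linarith
        linarith
      · have h1 := hq.2.2
        rw [mem_ball_zero_iff] at h1 ⊢
        have : (i : ℝ) ≤ (j : ℝ) := by exact_mod_cast hij
        linarith
    rw [← hU1, hmono.measure_iUnion, hmono.measure_iUnion]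
    refine iSup_congr fun n => key (C n) (hCo n) ?_ ?_
    · exact (isCompact_closedBall (0 : ℂ × ℂ) n).of_isClosed_subset isClosed_closure
        ((hCc n).trans inter_subset_right)
    · refine (hCc n).trans fun q hq => ?_
      have h1 := hq.1
      rw [mem_ofPred_eq, mem_closedBall_zero_iff] at h1
      rw [hU, mem_ofPred_eq, mem_ball_zero_iff]
      have : (0 : ℝ) < 1 / ((n : ℝ) + 1) := by positivity
      linarith
  -- all Borel subsets
  have hext : ((V μ m).map (φ s)).restrict U = (V μ m).restrict U := by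
    refine MeasureTheory.ext_of_generate_finite {W : Set (ℂ × ℂ) | IsOpen W} ?_ isPiSystem_isOpen
      (fun W hW => ?_) ?_
    · exact BorelSpace.measurable_eq
    · rw [Measure.restrict_apply ((show IsOpen W from hW).measurableSet),
        Measure.restrict_apply ((show IsOpen W from hW).measurableSet)]
      exact key2 _ ((show IsOpen W from hW).inter hUo) inter_subset_right
    · rw [Measure.restrict_apply_univ, Measure.restrict_apply_univ]
      exact key2 U hUo subset_rfl
  have h1 := congrArg (fun ν : Measure (ℂ × ℂ) => ν B) hext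
  simp only [Measure.restrict_apply hB, inter_eq_self_of_subset_left hs] at h1
  rw [Measure.map_apply hφc.measurable hB] at h1
  exact h1

end Pool.Agent.Helper53.CL.F
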