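import Pool.Agent.Helper53.CL.F.F00

/-!
# CL-F06: lower density of `V` (about 200 lines)

`c, r0` are the constants of `Dat.dens`; result with `c/4`.  Let `x` be a point of `ball 0 (3/2)` with `0 < μ (ball x r)` for all
`r > 0` (almost every point of `ball 0 (3/2)`: `Measure.support`, or countably many rational balls) which is a Lebesgue point of
`m`: for every `δ' > 0`, `μ {y ∈ closedBall x ρ | ‖m y - m x‖ ≥ δ'} / μ (closedBall x ρ) → 0` as `ρ → 0+` (for almost every `x`;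
`Besicovitch.ae_tendsto_measure_inter_div` for countably many sets `m ⁻¹' (ball b r')` with `b`, `r'` rational, or the Lebesgue
point theorem for the Besicovitch Vitali family `VitaliFamily.ae_tendsto_average_norm_sub`).
If `‖m y - m x‖ < δ'` then `‖tau y ^ 2 - tau x ^ 2‖ < δ'` with `‖tau‖ = 1`, so `‖tau y - tau x‖ ‖tau y + tau x‖ < δ'` and one
of the factors is `< √δ'`; take `√δ' = δ`.  So for `q = (x, ±tau x)`:
`V (ball x ρ ×ˢ ball q.2 δ) = (1/2) (μ {y ∈ ball x ρ | tau y ∈ ball q.2 δ} + μ {y ∈ ball x ρ | -tau y ∈ ball q.2 δ})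
≥ (1/2) μ {y ∈ ball x ρ | ‖m y - m x‖ < δ'} ≥ (1/4) μ (ball x ρ) ≥ (c/4) ρ` for small `ρ` (closed balls of radius slightly
smaller than `ρ` or constants adjusted: result with `c/8` if convenient, only positivity of the constant matters).
-/

namespace Pool.Agent.Helper53.CL.F

open MeasureTheory Filter Topology Metric Set
open scoped ContDiff Real ENNReal

/-- the first marginal of `V` is `μ` -/
private theorem ae_fst {μ : Measure ℂ} [IsFiniteMeasure μ] {m : ℂ → ℂ} (hm : Measurable m) {P : ℂ → Prop}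
    (h : ∀ᵐ x ∂μ, P x) : ∀ᵐ q ∂(V μ m), P q.1 := by
  have hmap : (V μ m).map Prod.fst = μ := by
    ext B hB
    rw [Measure.map_apply measurable_fst hB, V_fst hm hB]
  refine ae_of_ae_map (f := Prod.fst) measurable_fst.aemeasurable ?_
  rw [hmap]
  exact h

/-- the second coordinate is `±tau` almost everywhere -/
private theorem ae_snd {μ : Measure ℂ} [IsFiniteMeasure μ] {m : ℂ → ℂ} (hm : Measurable m) :
    ∀ᵐ q ∂(V μ m), q.2 = tau m q.1 ∨ q.2 = -tau m q.1 := by
  have ht := measurable_tau hm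
  have hB : MeasurableSet {q : ℂ × ℂ | q.2 = tau m q.1 ∨ q.2 = -tau m q.1} :=
    (measurableSet_eq_fun measurable_snd (ht.comp measurable_fst)).union
      (measurableSet_eq_fun measurable_snd (ht.comp measurable_fst).neg)
  rw [ae_V_iff hm hB]
  exact Eventually.of_forall fun z => ⟨Or.inl rfl, Or.inr rfl⟩

/-- half of the mass of small balls has a direction near the direction of the centre -/
private theorem ae_half {μ : Measure ℂ} [IsFiniteMeasure μ] {m : ℂ → ℂ} (hm : Measurable m) :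
    ∀ᵐ x ∂μ, (∀ r > 0, 0 < μ (ball x r)) ∧ ∀ δ > 0, ∀ᶠ r in 𝓝[>] (0 : ℝ),
      2⁻¹ * μ (closedBall x r) ≤ μ ({z | tau m z ∈ ball (tau m x) δ} ∩ closedBall x r) := by
  have ht := measurable_tau hm
  have h1 : ∀ᵐ x ∂μ, ∀ U ∈ TopologicalSpace.countableBasis ℂ,
      Tendsto (fun r => μ (tau m ⁻¹' U ∩ closedBall x r) / μ (closedBall x r)) (𝓝[>] 0)
        (𝓝 ((tau m ⁻¹' U).indicator 1 x)) := by
    rw [ae_ball_iff (TopologicalSpace.countable_countableBasis ℂ)]
    intro U hU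
    exact Besicovitch.ae_tendsto_measure_inter_div_of_measurableSet μ
      (ht (TopologicalSpace.isOpen_of_mem_countableBasis hU).measurableSet)
  have h2 : ∀ᵐ x ∂μ, ∀ᶠ r in 𝓝[>] (0 : ℝ), 0 < μ (closedBall x r) := by
    filter_upwards [(Besicovitch.vitaliFamily μ).ae_eventually_measure_pos] with x hx
    exact (Besicovitch.tendsto_filterAt μ x).eventually hx
  filter_upwards [h1, h2] with x hx1 hx2
  refine ⟨?_, ?_⟩
  · intro r hr
    have h3 : ∀ᶠ r' in 𝓝[>] (0 : ℝ), r' < r := nhdsWithin_le_nhds (Iio_mem_nhds hr)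
    obtain ⟨r', h4, h5⟩ := (hx2.and h3).exists
    exact h4.trans_le (measure_mono (closedBall_subset_ball h5))
  · intro δ hδ
    obtain ⟨U, hU, hxU, hUs⟩ :=
      (TopologicalSpace.isBasis_countableBasis ℂ).exists_subset_of_mem_open (mem_ball_self hδ)
        (isOpen_ball (x := tau m x) (ε := δ))
    have h3 := hx1 U hU
    have h4 : (tau m ⁻¹' U).indicator (1 : ℂ → ℝ≥0∞) x = 1 := by
      rw [Set.indicator_of_mem (by exact hxU)]
      rfl
    rw [h4] at h3
    have h5 : (2⁻¹ : ℝ≥0∞) < 1 := ENNReal.inv_lt_one.2 ENNReal.one_lt_two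
    have h6 := h3.eventually (lt_mem_nhds h5)
    filter_upwards [h6, hx2] with r h7 h8
    have h9 : μ (closedBall x r) ≠ ⊤ := measure_ne_top μ _
    have h10 : 2⁻¹ * μ (closedBall x r) ≤ μ (tau m ⁻¹' U ∩ closedBall x r) := by
      have := (ENNReal.lt_div_iff_mul_lt (Or.inl h8.ne') (Or.inl h9)).1 h7
      exact this.le
    refine h10.trans (measure_mono ?_)
    intro z hz
    exact ⟨hUs hz.1, hz.2⟩

theorem lower_V {a : ℂ → ℝ} {μ : Measure ℂ} {m : ℂ → ℂ} (hD : Dat a μ m) : ∃ c : ℝ, 0 < c ∧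
    ∀ᵐ q ∂(V μ m), q.1 ∈ ball (0 : ℂ) (3 / 2) → ∀ δ > 0, ∀ᶠ ρ in 𝓝[>] (0 : ℝ),
      ENNReal.ofReal (c * ρ) ≤ V μ m (ball q.1 ρ ×ˢ ball q.2 δ) := by
  obtain ⟨c, K, r0, hc, hr0, -, hlow⟩ := hD.dens
  haveI := hD.fin
  have hm := hD.m_meas
  have ht := measurable_tau hm
  refine ⟨c / 8, by positivity, ?_⟩
  filter_upwards [ae_fst hm (ae_half hm), ae_snd hm] with q hq hs hball δ hδ
  obtain ⟨hpos, hhalf⟩ := hq
  have hlim : Tendsto (fun ρ : ℝ => ρ / 2) (𝓝[>] 0) (𝓝[>] 0) := by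
    refine tendsto_nhdsWithin_iff.2 ⟨?_, ?_⟩
    · have : Tendsto (fun ρ : ℝ => ρ / 2) (𝓝 0) (𝓝 (0 / 2)) := tendsto_id.div_const 2
      rw [zero_div] at this
      exact this.mono_left nhdsWithin_le_nhds
    · filter_upwards [self_mem_nhdsWithin] with ρ hρ
      have : (0 : ℝ) < ρ := hρ
      show (0 : ℝ) < ρ / 2
      linarith
  have hsmall : ∀ᶠ ρ in 𝓝[>] (0 : ℝ), ρ < r0 := nhdsWithin_le_nhds (Iio_mem_nhds hr0)
  filter_upwards [hlim.eventually (hhalf δ hδ), hsmall, self_mem_nhdsWithin] with ρ h1 h2 h3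
  have hρ : (0 : ℝ) < ρ := h3
  have h4 : ENNReal.ofReal (c * (ρ / 2)) ≤ μ (ball q.1 (ρ / 2)) :=
    hlow q.1 hball hpos (ρ / 2) ⟨by linarith, by linarith⟩
  have h5 : μ (ball q.1 (ρ / 2)) ≤ μ (closedBall q.1 (ρ / 2)) := measure_mono ball_subset_closedBall
  have hset : μ ({z | tau m z ∈ ball (tau m q.1) δ} ∩ closedBall q.1 (ρ / 2)) ≤
      μ {z | (z, tau m z) ∈ ball q.1 ρ ×ˢ ball q.2 δ} + μ {z | (z, -tau m z) ∈ ball q.1 ρ ×ˢ ball q.2 δ} := by
    rcases hs with hs | hs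
    · refine le_add_right (measure_mono ?_)
      rintro z ⟨hz1, hz2⟩
      refine ⟨closedBall_subset_ball (by linarith) hz2, ?_⟩
      show tau m z ∈ ball q.2 δ
      rw [hs]
      exact hz1
    · refine le_add_left (measure_mono ?_)
      rintro z ⟨hz1, hz2⟩
      refine ⟨closedBall_subset_ball (by linarith) hz2, ?_⟩
      show -tau m z ∈ ball q.2 δ
      rw [hs, mem_ball, dist_neg_neg]
      exact hz1
  rw [V_apply hm (isOpen_ball.prod isOpen_ball).measurableSet]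
  have h6 : ENNReal.ofReal (c / 8 * ρ) = 2⁻¹ * (2⁻¹ * ENNReal.ofReal (c * (ρ / 2))) := by
    have e : (2⁻¹ : ℝ≥0∞) = ENNReal.ofReal (2⁻¹ : ℝ) := by
      rw [ENNReal.ofReal_inv_of_pos (by norm_num)]
      simp
    rw [e, ← ENNReal.ofReal_mul (by norm_num), ← ENNReal.ofReal_mul (by norm_num)]
    congr 1
    ring
  rw [h6]
  gcongr
  exact (mul_le_mul_right (h4.trans h5) _).trans (h1.trans hset)

end Pool.Agent.Helper53.CL.F
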