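import Pool.Agent.Helper53.CL.F.F05
import Pool.Agent.Helper53.CL.F.F06

/-!
# CL-F07: almost every orbit arc has mass (about 200 lines)

Let `q` be a point of the full measure set of `lower_V` with `‖q.2‖ = 1`, `q.1 ∈ ball 0 (5/4)`, and `r ∈ (0, h]`.  Claim:
`V (φ_[0,r] q) ≥ c' r`, `c' = c ℓ / 8` say.
For `ρ, δ > 0` small put `N = {p ∈ ball q.1 ρ ×ˢ ball q.2 δ | ‖p.2‖ = 1}`, `V N ≥ c ρ` for `ρ` small (`δ` fixed, `V_unit`).
Put `s_k = k σ`, `σ = 3 ρ / ℓ`, `k = 0, ..., M`, `M = ⌊r / σ⌋`.  The sets `φ (s_k) N` are disjoint: otherwise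
`φ t p ∈ N` for some `p ∈ N`, `σ ≤ t ≤ r ≤ h`, but `‖(φ t p).1 - p.1‖ ≥ ℓ t ≥ 3 ρ` (`move_low`) and both base points are in a
ball of radius `ρ`.  By `move` they lie over `ball 0 (5/4 + ρ + 1/8) ⊆ ball 0 (3/2)`, so `V (φ (s_k) N) = V N` by `map_flow`
(`φ (s_k) ⁻¹' (φ (s_k) '' N) = N`, images of Borel sets under the homeomorphism `φ (s_k)` are Borel).  Hence
`V (⋃ φ (s_k) N) ≥ (M + 1) c ρ ≥ (r / σ) c ρ = c ℓ r / 3`.
All these sets are in the `K (ρ + δ)` neighbourhood (closed thickening) of the compact arc `A = φ_[0,r] q` (`lip`).  Let first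
`ρ → 0`, then `δ → 0`: `V (cthickening ε A) → V A` (`tendsto_measure_cthickening_of_isClosed`), so `V A ≥ c ℓ r / 3`.
-/

namespace Pool.Agent.Helper53.CL.F

open MeasureTheory Filter Topology Metric Set
open scoped ContDiff Real ENNReal

theorem atoms {a : ℂ → ℝ} {μ : Measure ℂ} {m : ℂ → ℂ} (hD : Dat a μ m) {X : ℂ × ℂ → ℂ × ℂ}
    {φ : ℝ → ℂ × ℂ → ℂ × ℂ} {h ℓ : ℝ} (hF : FlowD a X φ h ℓ) : ∃ c : ℝ, 0 < c ∧
    ∀ᵐ q ∂(V μ m), q.1 ∈ ball (0 : ℂ) (5 / 4) → ∀ r ∈ Ioc 0 h,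
      ENNReal.ofReal (c * r) ≤ V μ m ((fun s => φ s q) '' Icc 0 r) := by
  have := hD.fin
  have : IsFiniteMeasure (V μ m) := V_finite
  obtain ⟨c₀, hc₀, hlow⟩ := lower_V hD
  have hℓ := hF.l_pos
  have hunit := V_unit (μ := μ) hD.m_meas hD.m_norm
  obtain ⟨K, hK⟩ := hF.lip
  refine ⟨c₀ * ℓ / 3, by positivity, ?_⟩
  filter_upwards [hlow, hunit] with q hq hq2 hq1 r hr
  have hr0 : 0 < r := hr.1
  have hrh : r ≤ h := hr.2
  have hq32 : q.1 ∈ ball (0 : ℂ) (3 / 2) := ball_subset_ball (by norm_num) hq1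
  set A : Set (ℂ × ℂ) := (fun s => φ s q) '' Icc 0 r with hA
  have hAc : IsCompact A := by
    refine isCompact_Icc.image ?_
    exact hF.cont.comp (continuous_id.prodMk continuous_const)
  have hφc : ∀ s, Continuous (φ s) := fun s => hF.cont.comp (continuous_const.prodMk continuous_id)
  -- the claim for the thickenings
  have key : ∀ ε : ℝ, 0 < ε → ENNReal.ofReal (c₀ * ℓ / 3 * r) ≤ V μ m (cthickening ε A) := by
    intro ε hε
    have hK0 : (0 : ℝ) ≤ K := K.2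
    have hδ : 0 < ε / (K + 1) := by positivity
    set δ : ℝ := ε / (K + 1) with hδd
    have hKδ : (K : ℝ) * δ ≤ ε := by
      rw [hδd, mul_div_assoc', div_le_iff₀ (by positivity)]
      nlinarith
    have hev := hq hq32 δ hδ
    have hsmall : ∀ᶠ ρ in 𝓝[>] (0 : ℝ), ρ < min (min δ (1 / 4)) (ℓ * r / 3) :=
      (eventually_lt_nhds (b := min (min δ (1 / 4)) (ℓ * r / 3)) (by positivity)).filter_mono
        nhdsWithin_le_nhds
    obtain ⟨ρ, ⟨hρN, hρs⟩, hρ0⟩ := ((hev.and hsmall).and self_mem_nhdsWithin).exists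
    have hρ0 : 0 < ρ := hρ0
    have hρδ : ρ < δ := lt_of_lt_of_le hρs (le_trans (min_le_left _ _) (min_le_left _ _))
    have hρ4 : ρ < 1 / 4 := lt_of_lt_of_le hρs (le_trans (min_le_left _ _) (min_le_right _ _))
    set σ : ℝ := 3 * ρ / ℓ with hσ
    have hσ0 : 0 < σ := by positivity
    set N : Set (ℂ × ℂ) := (ball q.1 ρ ×ˢ ball q.2 δ) ∩ {p | ‖p.2‖ = 1} with hN
    have hNm : MeasurableSet N :=
      (measurableSet_ball.prod measurableSet_ball).inter
        (isClosed_eq (continuous_snd.norm) continuous_const).measurableSet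
    have hVN : V μ m N = V μ m (ball q.1 ρ ×ˢ ball q.2 δ) := by
      refine measure_congr ?_
      filter_upwards [hunit] with p hp
      exact propext ⟨fun hpp => hpp.1, fun hpp => ⟨hpp, hp⟩⟩
    have hNs : N ⊆ {q | q.1 ∈ ball (0 : ℂ) (3 / 2)} := by
      intro p hp
      have h1 : dist p.1 q.1 < ρ := hp.1.1
      have h2 : dist q.1 0 < 5 / 4 := hq1
      have h3 := dist_triangle p.1 q.1 0
      exact mem_ball.2 (by linarith)
    set M : ℕ := ⌊r / σ⌋₊ with hM
    have hMr : ∀ k ∈ Finset.range (M + 1), (k : ℝ) * σ ≤ r := by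
      intro k hk
      have h1 : (k : ℝ) ≤ M := by exact_mod_cast Nat.lt_succ_iff.1 (Finset.mem_range.1 hk)
      have h2 : (M : ℝ) ≤ r / σ := Nat.floor_le (by positivity)
      have h3 : (k : ℝ) ≤ r / σ := h1.trans h2
      rwa [le_div_iff₀ hσ0] at h3
    set Sk : ℕ → Set (ℂ × ℂ) := fun k => φ (-((k : ℝ) * σ)) ⁻¹' N with hSk
    have hVS : ∀ k ∈ Finset.range (M + 1), V μ m (Sk k) = V μ m N := by
      intro k hk
      refine map_flow hD hF hNm hNs ?_
      rw [abs_neg, abs_of_nonneg (by positivity)]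
      exact (hMr k hk).trans hrh
    have hSm : ∀ k ∈ Finset.range (M + 1), MeasurableSet (Sk k) := fun k _ =>
      (hφc _).measurable hNm
    have hdisj' : ∀ j k : ℕ, j < k → k ∈ Finset.range (M + 1) → Disjoint (Sk j) (Sk k) := by
      intro j k hjk hk
      rw [Set.disjoint_left]
      intro x hxj hxk
      have hxj' : φ (-((j : ℝ) * σ)) x ∈ N := hxj
      have hxk' : φ (-((k : ℝ) * σ)) x ∈ N := hxk
      have h1 : φ ((k : ℝ) * σ - (j : ℝ) * σ) (φ (-((k : ℝ) * σ)) x) = φ (-((j : ℝ) * σ)) x := by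
        rw [← hF.group]
        congr 1
        ring
      have hjk' : (j : ℝ) + 1 ≤ k := by exact_mod_cast hjk
      have h2 : σ ≤ (k : ℝ) * σ - (j : ℝ) * σ := by nlinarith
      have h3 : (k : ℝ) * σ - (j : ℝ) * σ ≤ h := by
        have h4 := hMr k hk
        have h5 : 0 ≤ (j : ℝ) * σ := by positivity
        linarith
      have h6 : |(k : ℝ) * σ - (j : ℝ) * σ| = (k : ℝ) * σ - (j : ℝ) * σ :=
        abs_of_nonneg (by linarith)
      have h7 := hF.move_low (φ (-((k : ℝ) * σ)) x) ((k : ℝ) * σ - (j : ℝ) * σ) hxk'.2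
        (hNs hxk') (by rw [h6]; exact h3)
      rw [h6, h1] at h7
      have h8 : dist (φ (-((j : ℝ) * σ)) x).1 q.1 < ρ := hxj'.1.1
      have h9 : dist (φ (-((k : ℝ) * σ)) x).1 q.1 < ρ := hxk'.1.1
      have h10 : ‖(φ (-((j : ℝ) * σ)) x).1 - (φ (-((k : ℝ) * σ)) x).1‖ < 2 * ρ := by
        rw [← dist_eq_norm]
        have h11 := dist_triangle_right (φ (-((j : ℝ) * σ)) x).1 (φ (-((k : ℝ) * σ)) x).1 q.1
        linarith
      have h12 : ℓ * σ = 3 * ρ := by
        rw [hσ]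
        field_simp
      have h13 : ℓ * σ ≤ ℓ * ((k : ℝ) * σ - (j : ℝ) * σ) := mul_le_mul_of_nonneg_left h2 hℓ.le
      linarith
    have hdisj : (↑(Finset.range (M + 1)) : Set ℕ).PairwiseDisjoint Sk := by
      intro j hj k hk hjk
      rcases lt_or_gt_of_ne hjk with h1 | h1
      · exact hdisj' j k h1 (Finset.mem_coe.1 hk)
      · exact (hdisj' k j h1 (Finset.mem_coe.1 hj)).symm
    have hsub : (⋃ k ∈ Finset.range (M + 1), Sk k) ⊆ cthickening ε A := by
      intro x hx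
      simp only [Set.mem_iUnion] at hx
      obtain ⟨k, hk, hxk⟩ := hx
      have hxk' : φ (-((k : ℝ) * σ)) x ∈ N := hxk
      have hkr := hMr k hk
      have hk0 : 0 ≤ (k : ℝ) * σ := by positivity
      have h1 : φ ((k : ℝ) * σ) (φ (-((k : ℝ) * σ)) x) = x := by
        rw [← hF.group, add_neg_cancel, hF.zero]
      have h2 : φ ((k : ℝ) * σ) q ∈ A := ⟨(k : ℝ) * σ, ⟨hk0, hkr⟩, rfl⟩
      refine mem_cthickening_of_dist_le x _ ε A h2 ?_
      have h3 := (hK ((k : ℝ) * σ) (by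
        rw [abs_of_nonneg hk0]
        exact (hkr.trans hrh).trans hF.h_le)).dist_le_mul (φ (-((k : ℝ) * σ)) x) q
      rw [h1] at h3
      refine h3.trans (le_trans (mul_le_mul_of_nonneg_left ?_ hK0) hKδ)
      rw [Prod.dist_eq]
      exact max_le (le_of_lt (lt_trans hxk'.1.1 hρδ)) (le_of_lt hxk'.1.2)
    refine le_trans ?_ (measure_mono hsub)
    rw [measure_biUnion_finset hdisj hSm, Finset.sum_congr rfl hVS, Finset.sum_const,
      Finset.card_range, nsmul_eq_mul, hVN]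
    have h4 : ENNReal.ofReal (c₀ * ℓ / 3 * r) ≤
        ((M + 1 : ℕ) : ℝ≥0∞) * ENNReal.ofReal (c₀ * ρ) := by
      rw [← ENNReal.ofReal_natCast, ← ENNReal.ofReal_mul (by positivity)]
      refine ENNReal.ofReal_le_ofReal ?_
      have h5 : r / σ < (M : ℝ) + 1 := Nat.lt_floor_add_one _
      rw [div_lt_iff₀ hσ0] at h5
      have h6 : ℓ * r ≤ (M + 1) * (3 * ρ) := by
        have h7 : (M + 1) * (3 * ρ) = ℓ * (((M : ℝ) + 1) * σ) := by
          rw [hσ]
          field_simp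
        rw [h7]
        exact mul_le_mul_of_nonneg_left h5.le hℓ.le
      push_cast
      nlinarith
    exact h4.trans (mul_le_mul_right hρN _)
  have hlim := tendsto_measure_cthickening_of_isClosed (μ := V μ m) (s := A)
    ⟨1, one_pos, measure_ne_top _ _⟩ hAc.isClosed
  refine ge_of_tendsto (hlim.mono_left (nhdsWithin_le_nhds (s := Ioi (0 : ℝ)))) ?_
  filter_upwards [self_mem_nhdsWithin] with ε hε
  exact key ε hε

end Pool.Agent.Helper53.CL.F
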