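import Mathlib

/-!
# CL-F08: locally translation invariant measures on an interval (independent, easy, about 120 lines)

`g l = ν (Ico x (x + l))` does not depend on `x` (as long as the interval is inside `(-h, h)`), is additive and monotone and
finite, so it is linear: `g l = κ l` (rational multiples, then monotonicity).  The measures `ν` and `κ • volume` restricted to
`Ioo (-h) h` agree on intervals, hence are equal (`Measure.ext_of_Ico` and relatives).
-/

namespace Pool.Agent.Helper53.CL.F

open MeasureTheory Set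

/-- translation invariance for half open intervals -/
private theorem ico_inv {h : ℝ} (ν : Measure ℝ)
    (H : ∀ s : ℝ, ∀ A : Set ℝ, MeasurableSet A → A ⊆ Ioo (-h) h → (fun x => x + s) '' A ⊆ Ioo (-h) h →
      ν ((fun x => x + s) '' A) = ν A) {x y l : ℝ} (hx : -h < x) (hxl : x + l ≤ h) (hy : -h < y)
      (hyl : y + l ≤ h) : ν (Ico x (x + l)) = ν (Ico y (y + l)) := by
  have him : (fun z => z + (y - x)) '' Ico x (x + l) = Ico y (y + l) := by
    rw [image_add_const_Ico]
    congr 1 <;> ring
  have := H (y - x) (Ico x (x + l)) measurableSet_Ico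
    (fun z hz => ⟨hx.trans_le hz.1, hz.2.trans_le hxl⟩) (by
      rw [him]
      exact fun z hz => ⟨hy.trans_le hz.1, hz.2.trans_le hyl⟩)
  rw [him] at this
  exact this.symm

/-- additive nonnegative functions on an interval are linear -/
private theorem lin_of_add {h : ℝ} (hh : 0 < h) (g : ℝ → ℝ)
    (hadd : ∀ l m, 0 ≤ l → 0 ≤ m → l + m ≤ h → g (l + m) = g l + g m)
    (hpos : ∀ l, 0 ≤ l → l ≤ h → 0 ≤ g l) : ∀ l, 0 ≤ l → l ≤ h → g l = g h / h * l := by
  have hmul : ∀ n : ℕ, ∀ l, 0 ≤ l → n * l ≤ h → g (n * l) = n * g l := by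
    intro n
    induction n with
    | zero =>
      intro l hl _
      have := hadd 0 0 le_rfl le_rfl (by simpa using hh.le)
      simp only [add_zero] at this
      simp only [Nat.cast_zero, zero_mul]
      linarith
    | succ n ih =>
      intro l hl hn
      push_cast at hn ⊢
      have h1 : (n : ℝ) * l ≤ h := by nlinarith
      have h2 : ((n : ℝ) + 1) * l = n * l + l := by ring
      rw [h2] at hn ⊢
      rw [hadd _ _ (by positivity) hl hn, ih l hl h1]
      ring
  have hmono : ∀ l m, 0 ≤ l → l ≤ m → m ≤ h → g l ≤ g m := by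
    intro l m hl hlm hm
    have h1 := hadd l (m - l) hl (by linarith) (by linarith)
    rw [show l + (m - l) = m by ring] at h1
    have h2 := hpos (m - l) (by linarith) (by linarith)
    linarith
  intro l hl hlh
  rcases eq_or_lt_of_le hlh with rfl | hlt
  · field_simp
  have hc : 0 ≤ g h := hpos h hh.le le_rfl
  have key : ∀ n : ℕ, 0 < n → |g l - g h / h * l| ≤ g h / n := by
    intro n hn
    have hn' : (0 : ℝ) < n := by exact_mod_cast hn
    set t : ℝ := h / n with ht
    have htp : 0 < t := by positivity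
    have hnt : (n : ℝ) * t = h := by rw [ht]; field_simp
    have hgt : g t = g h / n := by
      have := hmul n t htp.le hnt.le
      rw [hnt] at this
      rw [this]; field_simp
    set k : ℕ := ⌊l / t⌋₊ with hk
    have hk1 : (k : ℝ) * t ≤ l := by
      have := Nat.floor_le (a := l / t) (by positivity)
      rwa [← hk, le_div_iff₀ htp] at this
    have hk2 : l < ((k : ℝ) + 1) * t := by
      have := Nat.lt_floor_add_one (l / t)
      rwa [← hk, div_lt_iff₀ htp] at this
    have hkn : (k : ℝ) + 1 ≤ n := by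
      have h1 : (k : ℝ) * t < n * t := by rw [hnt]; linarith
      have h2 : (k : ℝ) < n := lt_of_mul_lt_mul_right h1 htp.le
      exact_mod_cast Nat.succ_le_of_lt (by exact_mod_cast h2)
    have hk3 : ((k : ℝ) + 1) * t ≤ h := by
      rw [← hnt]
      exact mul_le_mul_of_nonneg_right hkn htp.le
    have e1 : g (k * t) = k * g t := hmul k t htp.le (by linarith)
    have e2 : g (((k : ℝ) + 1) * t) = ((k : ℝ) + 1) * g t := by
      have := hmul (k + 1) t htp.le (by push_cast; exact hk3)
      push_cast at this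
      exact this
    have l1 : g (k * t) ≤ g l := hmono _ _ (by positivity) hk1 hlh
    have l2 : g l ≤ g (((k : ℝ) + 1) * t) := hmono _ _ hl hk2.le hk3
    have hr : g h / h * l = g t * (l / t) := by
      rw [hgt, ht]; field_simp
    have hlt' : (k : ℝ) ≤ l / t := by rwa [le_div_iff₀ htp]
    have hlt2 : l / t ≤ (k : ℝ) + 1 := by
      rw [div_le_iff₀ htp]; exact hk2.le
    have hgt0 : 0 ≤ g t := by rw [hgt]; positivity
    rw [← hgt, abs_le, hr]
    constructor
    · nlinarith
    · nlinarith
  by_contra hne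
  have hpos' : 0 < |g l - g h / h * l| := abs_pos.mpr (sub_ne_zero.mpr hne)
  obtain ⟨n, hn⟩ := exists_nat_gt (g h / |g l - g h / h * l|)
  have hn0 : (0 : ℝ) < n := lt_of_le_of_lt (by positivity) hn
  have hn0' : 0 < n := by exact_mod_cast hn0
  have := key n hn0'
  rw [div_lt_iff₀ hpos'] at hn
  rw [le_div_iff₀ hn0] at this
  linarith

theorem transl_inv {h : ℝ} (hh : 0 < h) (ν : Measure ℝ) [IsFiniteMeasure ν]
    (H : ∀ s : ℝ, ∀ A : Set ℝ, MeasurableSet A → A ⊆ Ioo (-h) h → (fun x => x + s) '' A ⊆ Ioo (-h) h →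
      ν ((fun x => x + s) '' A) = ν A) :
    ∃ κ : ℝ, 0 ≤ κ ∧ ∀ A : Set ℝ, MeasurableSet A → A ⊆ Ioo (-h) h → ν A = ENNReal.ofReal κ * volume A := by
  set g : ℝ → ℝ := fun l => (ν (Ico 0 l)).toReal with hg
  have hfin : ∀ A : Set ℝ, ν A ≠ ⊤ := fun A => measure_ne_top ν A
  have hadd : ∀ l m, 0 ≤ l → 0 ≤ m → l + m ≤ h → g (l + m) = g l + g m := by
    intro l m hl hm hlm
    have h1 : Ico 0 (l + m) = Ico 0 l ∪ Ico l (l + m) := (Ico_union_Ico_eq_Ico hl (by linarith)).symm
    have h2 : ν (Ico 0 (l + m)) = ν (Ico 0 l) + ν (Ico l (l + m)) := by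
      rw [h1, measure_union _ measurableSet_Ico]
      exact Ico_disjoint_Ico_same
    have h3 : ν (Ico l (l + m)) = ν (Ico 0 m) := by
      have := ico_inv ν H (x := l) (y := 0) (l := m) (by linarith) hlm (by linarith) (by linarith)
      simpa using this
    rw [h3] at h2
    simp only [hg]
    rw [h2, ENNReal.toReal_add (hfin _) (hfin _)]
  have hlin := lin_of_add hh g hadd (fun l _ _ => ENNReal.toReal_nonneg)
  refine ⟨g h / h, div_nonneg ENNReal.toReal_nonneg hh.le, ?_⟩
  set κ : ℝ := g h / h with hκ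
  have hκ0 : 0 ≤ κ := div_nonneg ENNReal.toReal_nonneg hh.le
  -- intervals of length at most `h`
  have hI1 : ∀ x y : ℝ, -h < x → x ≤ y → y ≤ h → y - x ≤ h →
      ν (Ico x y) = ENNReal.ofReal κ * volume (Ico x y) := by
    intro x y hx hxy hy hl
    have h1 : ν (Ico x y) = ν (Ico 0 (y - x)) := by
      have := ico_inv ν H (x := x) (y := 0) (l := y - x) hx (by linarith) (by linarith) (by linarith)
      simpa using this
    rw [h1, Real.volume_Ico, ← ENNReal.ofReal_mul hκ0, ← hlin (y - x) (by linarith) hl]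
    exact (ENNReal.ofReal_toReal (hfin _)).symm
  have hI2 : ∀ x y : ℝ, -h < x → x ≤ y → y ≤ h →
      ν (Ico x y) = ENNReal.ofReal κ * volume (Ico x y) := by
    intro x y hx hxy hy
    set m := (x + y) / 2 with hm
    have hxm : x ≤ m := by rw [hm]; linarith
    have hmy : m ≤ y := by rw [hm]; linarith
    have h1 : Ico x y = Ico x m ∪ Ico m y := (Ico_union_Ico_eq_Ico hxm hmy).symm
    have hd : Disjoint (Ico x m) (Ico m y) := Ico_disjoint_Ico_same
    rw [h1, measure_union hd measurableSet_Ico, measure_union hd measurableSet_Ico,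
      hI1 x m hx hxm (by linarith) (by rw [hm]; linarith),
      hI1 m y (by linarith) hmy hy (by rw [hm]; linarith), mul_add]
  have hmeas : ν.restrict (Ioo (-h) h) = (ENNReal.ofReal κ • (volume : Measure ℝ)).restrict (Ioo (-h) h) := by
    apply Measure.ext_of_Ico
    intro a b hab
    rw [Measure.restrict_apply measurableSet_Ico, Measure.restrict_apply measurableSet_Ico]
    have hU : Ico a b ∩ Ioo (-h) h = ⋃ n : ℕ, Ico (max a (-h + 1 / ((n : ℝ) + 1))) (min b h) := by
      ext z
      simp only [mem_inter_iff, mem_Ico, mem_Ioo, mem_iUnion, max_le_iff, lt_min_iff]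
      constructor
      · rintro ⟨⟨h1, h2⟩, h3, h4⟩
        obtain ⟨n, hn⟩ := exists_nat_one_div_lt (show (0 : ℝ) < z + h by linarith)
        exact ⟨n, ⟨h1, by linarith⟩, h2, h4⟩
      · rintro ⟨n, ⟨h1, h2⟩, h3, h4⟩
        have : (0 : ℝ) < 1 / ((n : ℝ) + 1) := by positivity
        exact ⟨⟨h1, h3⟩, by linarith, h4⟩
    have hmono : Monotone (fun n : ℕ => Ico (max a (-h + 1 / ((n : ℝ) + 1))) (min b h)) := by
      intro n m hnm
      apply Ico_subset_Ico_left
      apply max_le_max le_rfl
      have : (1 : ℝ) / ((m : ℝ) + 1) ≤ 1 / ((n : ℝ) + 1) := by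
        apply one_div_le_one_div_of_le (by positivity)
        have : (n : ℝ) ≤ m := by exact_mod_cast hnm
        linarith
      linarith
    rw [hU, hmono.measure_iUnion, hmono.measure_iUnion]
    congr 1
    funext n
    rw [Measure.smul_apply, smul_eq_mul]
    rcases le_total (max a (-h + 1 / ((n : ℝ) + 1))) (min b h) with hle | hle
    · apply hI2 _ _ _ hle (min_le_right _ _)
      have : (0 : ℝ) < 1 / ((n : ℝ) + 1) := by positivity
      exact lt_of_lt_of_le (by linarith) (le_max_right _ _)
    · rw [Ico_eq_empty_of_le hle]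
      simp
  intro A hA hAs
  have h1 : ν.restrict (Ioo (-h) h) A = (ENNReal.ofReal κ • (volume : Measure ℝ)).restrict (Ioo (-h) h) A := by rw [hmeas]
  rw [Measure.restrict_apply hA, Measure.restrict_apply hA, inter_eq_left.mpr hAs] at h1
  rw [h1, Measure.smul_apply, smul_eq_mul]

end Pool.Agent.Helper53.CL.F
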