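import Pool.Agent.Helper53.CL.F.F03
import Pool.Agent.Helper53.CL.F.F07
import Pool.Agent.Helper53.CL.F.F08

/-!
# CL-F09: the local theorem: `μ` is carried by geodesic arcs of constant density (about 300 lines)

Take `X, φ, h, ℓ` from `exists_flow`, `c` from `atoms`, `h' = h / 2`.  Let `q` be in the full measure set of `atoms`,
`‖q.2‖ = 1`, `q.1 ∈ ball 0 1`; by `ae_of_ae_V` this holds for `q = (x, tau m x)` for `μ` almost all `x ∈ ball 0 1`.
`γ s = (φ s q).1`, `Γ s = φ s q`.  `Γ` is continuous, `γ` is injective on `Icc (-h') h'`: `move_low` applied at `Γ s`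
(`γ s ∈ ball 0 (9/8)`), and `γ s ∈ ball 0 (3/2)`.
(1) `GA a γ s` for `|s| < h'`: near `s` the point `Γ s` is over `ball 0 (15/8)` with `‖ζ‖ = 1`, so `γ' = a(γ)^(-1/2) ζ`,
`ζ' = i rot ζ`; `Γ` is `C^∞` (`C^2` suffices) since `Γ' = X ∘ Γ`; `a ‖γ'‖^2 = 1`; `γ'' = -(∂ log a) γ'^2`: with `w = γ'`,
`w' = (a^(-1/2))' ζ + a^(-1/2) i rot ζ`, `(a^(-1/2))' = -a^(-1/2) Re((∂ log a) w)` (as `(log a(γ))' = 2 Re((∂ log a) w)`),
`rot = -Im((∂ log a) w)`, so `w' = -w (Re + i Im)((∂ log a) w)`.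
(2) `ν A = V (Γ '' (A ∩ Ioo (-h') h'))` for Borel `A` defines a finite measure on `ℝ` (`Γ` is injective and continuous on the
interval, so images of Borel subsets are Borel: `MeasurableSet.image_of_continuousOn_injOn`; countable additivity by
injectivity; e.g. the push forward of `V.restrict (Γ '' Ioo)` under the inverse, or `Measure.comap`).  `transl_inv` for `ν` and
`h'`: for `A, A + s ⊆ Ioo (-h') h'`, `Γ '' (A + s) = φ s '' (Γ '' A)`, `|s| ≤ h`, `map_flow` for `B = Γ '' (A + s)`, over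
`ball 0 (9/8 + ...) ⊆ ball 0 (3/2)`.  So `ν A = κ |A|` and `κ ≥ c / 2` by `atoms` (`r = h'/2`).
(3) `V (Γ '' A) = (1/2) μ {z ∈ γ '' A | ±tau z = direction}`: by `V_apply`, `V (Γ '' A) = (1/2) (μ {z | (z, tau z) ∈ Γ '' A} +
μ {z | (z, -tau z) ∈ Γ '' A})`, the two sets are disjoint with union `γ '' (A \ D)`, `D = {s | (Γ s).2 ≠ ±tau (γ s)}`
(Borel).  For `A = D`: `κ |D| = 0`.  `μ (γ '' D) = 0` since `|D| = 0`: cover `D` by intervals `I_k` of small total length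
(outer regularity), `γ '' I_k` is in a ball of radius `Λ |I_k|` about one of its points, use the upper density bound of
`Dat.dens` (balls of small radius about points of `ball 0 (3/2)`).  So `μ (γ '' A) = 2 κ |A|`.
-/

namespace Pool.Agent.Helper53.CL.F

open MeasureTheory Filter Topology Metric Set
open scoped ContDiff Real ENNReal

private theorem f09_lgz {a : ℂ → ℝ} {z : ℂ} (ha : DifferentiableAt ℝ a z) (hp : 0 < a z) (w : ℂ) :
    (dz (fun z => (Real.log (a z) : ℂ)) z * w).re = (fderiv ℝ a z w) / (2 * a z) := by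
  have h1 : HasFDerivAt (fun z => Real.log (a z)) ((a z)⁻¹ • fderiv ℝ a z) z :=
    ha.hasFDerivAt.log hp.ne'
  have h2 : HasFDerivAt (fun z => (Real.log (a z) : ℂ))
      (Complex.ofRealCLM.comp ((a z)⁻¹ • fderiv ℝ a z)) z :=
    Complex.ofRealCLM.hasFDerivAt.comp z h1
  unfold dz dx dy
  rw [h2.fderiv]
  have h3 : fderiv ℝ a z w = w.re * fderiv ℝ a z 1 + w.im * fderiv ℝ a z Complex.I := by
    have h4 : w = w.re • (1 : ℂ) + w.im • Complex.I := by
      apply Complex.ext <;> simp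
    conv_lhs => rw [h4]
    rw [map_add, map_smul, map_smul, smul_eq_mul, smul_eq_mul]
  rw [h3]
  have h5 : (((Complex.ofRealCLM.comp ((a z)⁻¹ • fderiv ℝ a z)) 1 -
      Complex.I * (Complex.ofRealCLM.comp ((a z)⁻¹ • fderiv ℝ a z)) Complex.I) / 2 * w) =
      (((a z)⁻¹ * fderiv ℝ a z 1 / 2 : ℝ) : ℂ) * w -
        (((a z)⁻¹ * fderiv ℝ a z Complex.I / 2 : ℝ) : ℂ) * (Complex.I * w) := by
    simp only [ContinuousLinearMap.comp_apply, _root_.smul_apply, smul_eq_mul,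
      Complex.ofRealCLM_apply]
    push_cast
    ring
  rw [h5, Complex.sub_re, Complex.re_ofReal_mul, Complex.re_ofReal_mul]
  simp only [Complex.mul_re, Complex.I_re, Complex.I_im, zero_mul, one_mul, zero_sub]
  field_simp
  ring

private theorem f09_base {a : ℂ → ℝ} {X : ℂ × ℂ → ℂ × ℂ} {φ : ℝ → ℂ × ℂ → ℂ × ℂ} {h ℓ : ℝ}
    (hF : FlowD a X φ h ℓ) {q : ℂ × ℂ} (hq : ‖q.2‖ = 1) (hq1 : q.1 ∈ ball (0 : ℂ) 1) {t : ℝ}
    (ht : t ∈ Ioo (-h) h) : (φ t q).1 ∈ ball (0 : ℂ) (9 / 8) := by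
  have h1 := hF.move q t hq (abs_le.2 ⟨ht.1.le, ht.2.le⟩)
  rw [mem_ball_zero_iff] at hq1 ⊢
  have h2 : ‖(φ t q).1‖ ≤ ‖(φ t q).1 - q.1‖ + ‖q.1‖ := by
    have h3 := norm_add_le ((φ t q).1 - q.1) q.1
    rwa [sub_add_cancel] at h3
  linarith

private theorem f09_c2 {a : ℂ → ℝ} {X : ℂ × ℂ → ℂ × ℂ} {φ : ℝ → ℂ × ℂ → ℂ × ℂ} {h ℓ : ℝ}
    (hF : FlowD a X φ h ℓ) (q : ℂ × ℂ) : ContDiff ℝ 2 (fun s => φ s q) := by
  have h0 : Differentiable ℝ (fun s => φ s q) := fun t => (hF.deriv q t).differentiableAt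
  have hd : deriv (fun s => φ s q) = X ∘ (fun s => φ s q) := funext fun t => (hF.deriv q t).deriv
  have c0 : ContDiff ℝ 0 (fun s => φ s q) := contDiff_zero.2 h0.continuous
  have c1 : ContDiff ℝ (0 + 1) (fun s => φ s q) := by
    rw [contDiff_succ_iff_deriv]
    refine ⟨h0, by simp, ?_⟩
    rw [hd]
    exact (hF.X_smooth.of_le (by simp)).comp c0
  have c2 : ContDiff ℝ (1 + 1) (fun s => φ s q) := by
    rw [contDiff_succ_iff_deriv]
    refine ⟨h0, by simp, ?_⟩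
    rw [hd]
    rw [zero_add] at c1
    exact (hF.X_smooth.of_le (by exact_mod_cast le_top)).comp c1
  have e : (1 : WithTop ℕ∞) + 1 = 2 := by norm_num
  rwa [e] at c2

private theorem f09_GA {a : ℂ → ℝ} (has : ContDiffOn ℝ ∞ a (ball 0 3))
    (hap : ∀ z ∈ ball (0 : ℂ) 3, 0 < a z) {X : ℂ × ℂ → ℂ × ℂ} {φ : ℝ → ℂ × ℂ → ℂ × ℂ} {h ℓ : ℝ}
    (hF : FlowD a X φ h ℓ) {q : ℂ × ℂ} (hq : ‖q.2‖ = 1) (hq1 : q.1 ∈ ball (0 : ℂ) 1) {s : ℝ}
    (hs : s ∈ Ioo (-h) h) : GA a (fun s => (φ s q).1) s := by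
  have hb : ∀ t ∈ Ioo (-h) h, (φ t q).1 ∈ ball (0 : ℂ) (9 / 8) := fun t ht =>
    f09_base hF hq hq1 ht
  have hb3 : ∀ t ∈ Ioo (-h) h, (φ t q).1 ∈ ball (0 : ℂ) 3 := fun t ht =>
    ball_subset_ball (by norm_num) (hb t ht)
  have hX : ∀ t ∈ Ioo (-h) h, X (φ t q) = gf a (φ t q) := fun t ht =>
    hF.X_eq _ (ball_subset_ball (by norm_num) (hb t ht)) (hF.norm t q hq)
  have hd1 : ∀ t, HasDerivAt (fun s => (φ s q).1) (X (φ t q)).1 t := fun t =>
    (ContinuousLinearMap.fst ℝ ℂ ℂ).hasFDerivAt.comp_hasDerivAt t (hF.deriv q t)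
  have hd2 : ∀ t, HasDerivAt (fun s => (φ s q).2) (X (φ t q)).2 t := fun t =>
    (ContinuousLinearMap.snd ℝ ℂ ℂ).hasFDerivAt.comp_hasDerivAt t (hF.deriv q t)
  have hw : ∀ t ∈ Ioo (-h) h, deriv (fun s => (φ s q).1) t =
      (((√(a (φ t q).1))⁻¹ : ℝ) : ℂ) * (φ t q).2 := by
    intro t ht
    rw [(hd1 t).deriv, hX t ht]
    rfl
  have hpos : 0 < a (φ s q).1 := hap _ (hb3 s hs)
  have hsq : 0 < √(a (φ s q).1) := Real.sqrt_pos.2 hpos
  have hsq2 : √(a (φ s q).1) * √(a (φ s q).1) = a (φ s q).1 := Real.mul_self_sqrt hpos.le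
  refine ⟨(contDiff_fst.comp (f09_c2 hF q)).contDiffAt, ?_, ?_⟩
  · rw [hw s hs, norm_mul, hF.norm s q hq, mul_one, Complex.norm_real, Real.norm_of_nonneg
      (inv_nonneg.2 hsq.le)]
    field_simp
    rw [sq, hsq2]
  · have hev : deriv (fun s => (φ s q).1) =ᶠ[𝓝 s] fun t =>
        (((√(a (φ t q).1))⁻¹ : ℝ) : ℂ) * (φ t q).2 := by
      filter_upwards [isOpen_Ioo.mem_nhds hs] with t ht
      exact hw t ht
    rw [hev.deriv_eq]
    have ha : DifferentiableAt ℝ a (φ s q).1 :=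
      (has.differentiableOn (by simp)).differentiableAt (isOpen_ball.mem_nhds (hb3 s hs))
    have g1 : HasDerivAt (fun t => a (φ t q).1) (fderiv ℝ a (φ s q).1 (X (φ s q)).1) s :=
      ha.hasFDerivAt.comp_hasDerivAt s (hd1 s)
    have g2 := ((g1.sqrt hpos.ne').inv hsq.ne').ofReal_comp
    have g3 := g2.mul (hd2 s)
    have g4 : HasDerivAt (fun t => (((√(a (φ t q).1))⁻¹ : ℝ) : ℂ) * (φ t q).2) _ s := g3
    rw [g4.deriv, hw s hs]
    have hX1 : (X (φ s q)).1 = (((√(a (φ s q).1))⁻¹ : ℝ) : ℂ) * (φ s q).2 := by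
      rw [hX s hs]
      rfl
    have hX2 : (X (φ s q)).2 = Complex.I * ((rot a (φ s q) : ℝ) : ℂ) * (φ s q).2 := by
      rw [hX s hs]
      rfl
    rw [hX2, hX1]
    have k1 := f09_lgz ha hpos ((((√(a (φ s q).1))⁻¹ : ℝ) : ℂ) * (φ s q).2)
    have k2 : rot a (φ s q) = -(dz (fun z => (Real.log (a z) : ℂ)) (φ s q).1 *
        ((((√(a (φ s q).1))⁻¹ : ℝ) : ℂ) * (φ s q).2)).im := by
      unfold rot lgz
      rw [mul_left_comm, Complex.im_ofReal_mul]
    have k3 : (-(fderiv ℝ a (φ s q).1 ((((√(a (φ s q).1))⁻¹ : ℝ) : ℂ) * (φ s q).2) /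
        (2 * √(a (φ s q).1))) / √(a (φ s q).1) ^ 2 : ℝ) = -((√(a (φ s q).1))⁻¹ *
        (dz (fun z => (Real.log (a z) : ℂ)) (φ s q).1 *
        ((((√(a (φ s q).1))⁻¹ : ℝ) : ℂ) * (φ s q).2)).re) := by
      rw [k1, sq, hsq2]
      field_simp
    rw [k3, k2]
    have k4 := Complex.re_add_im (dz (fun z => (Real.log (a z) : ℂ)) (φ s q).1 *
        ((((√(a (φ s q).1))⁻¹ : ℝ) : ℂ) * (φ s q).2))
    generalize hD : dz (fun z => (Real.log (a z) : ℂ)) (φ s q).1 = D at k4 ⊢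
    generalize hg : (((√(a (φ s q).1))⁻¹ : ℝ) : ℂ) = g at k4 ⊢
    generalize hz : (φ s q).2 = ζ at k4 ⊢
    generalize hre : (D * (g * ζ)).re = re at k4 ⊢
    generalize him : (D * (g * ζ)).im = im at k4 ⊢
    have hg' : ((√(a (φ s q).1) : ℝ) : ℂ)⁻¹ = g := by
      rw [← hg]
      push_cast
      rfl
    push_cast
    rw [hg']
    have k5 : D = D := rfl
    calc -(g * (re : ℂ)) * ζ + g * (Complex.I * -(im : ℂ) * ζ) =
        -(g * ζ) * ((re : ℂ) + (im : ℂ) * Complex.I) := by ring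
      _ = -(g * ζ) * (D * (g * ζ)) := by rw [k4]
      _ = -D * (g * ζ) ^ 2 := by ring

private theorem f09_null {μ : Measure ℂ} {K r0 : ℝ} (hr0 : 0 < r0)
    (hK : ∀ x ∈ ball (0 : ℂ) (3 / 2), ∀ r ∈ Ioo 0 r0, μ (ball x r) ≤ ENNReal.ofReal (K * r))
    {S : Set ℂ} (hS : S ⊆ ball (0 : ℂ) (3 / 2)) (h0 : μH[1] S = 0) : μ S = 0 := by
  obtain ⟨C, hC⟩ : ∃ C : ℝ≥0∞, C = ENNReal.ofReal (|K| + 1) := ⟨_, rfl⟩
  have hC0 : C ≠ 0 := by
    rw [hC]
    have : 0 < |K| + 1 := by positivity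
    simpa using this
  have hCt : C ≠ ⊤ := by
    rw [hC]
    exact ENNReal.ofReal_ne_top
  have key : C⁻¹ • μ.restrict (ball (0 : ℂ) (3 / 2)) ≤ μH[1] := by
    refine Measure.le_hausdorffMeasure 1 _ (ENNReal.ofReal (r0 / 2)) (by simpa using hr0) ?_
    intro s hs
    rw [Measure.smul_apply, smul_eq_mul, Measure.restrict_apply' measurableSet_ball,
      ENNReal.rpow_one, ENNReal.inv_mul_le_iff hC0 hCt]
    rcases Set.eq_empty_or_nonempty (s ∩ ball (0 : ℂ) (3 / 2)) with he | ⟨x, hxs, hxB⟩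
    · rw [he]
      simp
    · obtain ⟨d, hd⟩ : ∃ d : ℝ, d = (ediam s).toReal := ⟨_, rfl⟩
      have hst : ediam s ≠ ⊤ := ne_top_of_le_ne_top ENNReal.ofReal_ne_top hs
      have hd0 : 0 ≤ d := by
        rw [hd]
        exact ENNReal.toReal_nonneg
      have hds : ediam s = ENNReal.ofReal d := by
        rw [hd, ENNReal.ofReal_toReal hst]
      have hdr : d ≤ r0 / 2 := by
        rw [hds] at hs
        exact (ENNReal.ofReal_le_ofReal_iff (by positivity)).1 hs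
      have h1 : ∀ t ∈ Ioo (0 : ℝ) (r0 / 2), μ (s ∩ ball (0 : ℂ) (3 / 2)) ≤
          ENNReal.ofReal (K * (d + t)) := by
        intro t ht
        refine (measure_mono ?_).trans (hK x hxB (d + t) ⟨by linarith [ht.1], by linarith [ht.2]⟩)
        rintro y ⟨hy, -⟩
        rw [mem_ball, dist_edist]
        have h2 : edist y x ≤ ediam s := edist_le_ediam_of_mem hy hxs
        have h3 : (edist y x).toReal ≤ d := by
          rw [hd]
          exact ENNReal.toReal_mono hst h2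
        linarith [ht.1]
      have h2 : Tendsto (fun t : ℝ => ENNReal.ofReal (K * (d + t))) (𝓝[>] 0)
          (𝓝 (ENNReal.ofReal (K * d))) := by
        have h3 : Continuous (fun t : ℝ => ENNReal.ofReal (K * (d + t))) :=
          ENNReal.continuous_ofReal.comp (by fun_prop)
        have h4 := h3.tendsto 0
        rw [add_zero] at h4
        exact h4.mono_left nhdsWithin_le_nhds
      have h5 : μ (s ∩ ball (0 : ℂ) (3 / 2)) ≤ ENNReal.ofReal (K * d) := by
        refine ge_of_tendsto h2 ?_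
        filter_upwards [Ioo_mem_nhdsGT (show (0 : ℝ) < r0 / 2 by linarith)] with t ht
        exact h1 t ht
      refine h5.trans ?_
      rw [hds, hC, ← ENNReal.ofReal_mul (by positivity)]
      refine ENNReal.ofReal_le_ofReal (mul_le_mul_of_nonneg_right ?_ hd0)
      have := le_abs_self K
      linarith
  have h1 := key S
  rw [h0, Measure.smul_apply, smul_eq_mul, Measure.restrict_apply' measurableSet_ball,
    inter_eq_self_of_subset_left hS] at h1
  have h2 : C⁻¹ * μ S = 0 := le_antisymm h1 bot_le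
  rcases mul_eq_zero.1 h2 with h3 | h3
  · exact absurd (ENNReal.inv_eq_zero.1 h3) hCt
  · exact h3

private theorem f09_lip {a : ℂ → ℝ} {X : ℂ × ℂ → ℂ × ℂ} {φ : ℝ → ℂ × ℂ → ℂ × ℂ} {h ℓ : ℝ}
    (hF : FlowD a X φ h ℓ) (q : ℂ × ℂ) : ∃ K : NNReal, LipschitzWith K (fun s => (φ s q).1) := by
  obtain ⟨C, hC⟩ := hF.X_supp.exists_bound_of_continuous hF.X_smooth.continuous
  refine ⟨C.toNNReal, ?_⟩
  have hd1 : ∀ t, HasDerivAt (fun s => (φ s q).1) (X (φ t q)).1 t := fun t =>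
    (ContinuousLinearMap.fst ℝ ℂ ℂ).hasFDerivAt.comp_hasDerivAt t (hF.deriv q t)
  refine lipschitzWith_of_nnnorm_deriv_le (fun t => (hd1 t).differentiableAt) ?_
  intro t
  rw [(hd1 t).deriv]
  rw [← NNReal.coe_le_coe]
  exact (norm_fst_le _).trans ((hC _).trans (Real.le_coe_toNNReal C))

private theorem f09_split {μ : Measure ℂ} [IsFiniteMeasure μ] {m : ℂ → ℂ} (hm : Measurable m)
    (h1 : ∀ z, ‖m z‖ = 1) {Γ : ℝ → ℂ × ℂ} {A : Set ℝ} (hB : MeasurableSet (Γ '' A))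
    (hinj : InjOn (fun s => (Γ s).1) A) :
    μ ((fun s => (Γ s).1) '' (A \ {s | (Γ s).2 ≠ tau m (Γ s).1 ∧ (Γ s).2 ≠ -tau m (Γ s).1})) =
      2 * V μ m (Γ '' A) := by
  have hτ := measurable_tau hm
  rw [V_apply hm hB, ← mul_assoc, ENNReal.mul_inv_cancel (by norm_num) (by norm_num), one_mul]
  have hE : MeasurableSet {z | (z, -tau m z) ∈ Γ '' A} :=
    (measurable_id.prodMk hτ.neg) hB
  have hdis : Disjoint {z | (z, tau m z) ∈ Γ '' A} {z | (z, -tau m z) ∈ Γ '' A} := by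
    rw [Set.disjoint_left]
    rintro z ⟨s, hs, hs2⟩ ⟨t, ht, ht2⟩
    have e1 : (Γ s).1 = (Γ t).1 := by rw [hs2, ht2]
    have e2 := hinj hs ht e1
    rw [e2, ht2] at hs2
    have e3 : -tau m z = tau m z := congrArg Prod.snd hs2
    have e4 : tau m z = 0 := by
      have e5 : tau m z + tau m z = 0 := by
        nth_rewrite 1 [← e3]
        ring
      have e6 : (2 : ℂ) * tau m z = 0 := by rw [two_mul]; exact e5
      simpa using e6
    have e7 := norm_tau h1 z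
    rw [e4, norm_zero] at e7
    exact zero_ne_one e7
  rw [← measure_union hdis hE]
  congr 1
  ext z
  constructor
  · rintro ⟨s, ⟨hsA, hs2⟩, rfl⟩
    have h3 : (Γ s).2 = tau m (Γ s).1 ∨ (Γ s).2 = -tau m (Γ s).1 := by
      by_contra hcon
      rw [not_or] at hcon
      exact hs2 hcon
    rcases h3 with h3 | h3
    · exact Or.inl ⟨s, hsA, Prod.ext rfl h3⟩
    · exact Or.inr ⟨s, hsA, Prod.ext rfl h3⟩
  · rintro (⟨s, hsA, hs2⟩ | ⟨s, hsA, hs2⟩)
    · refine ⟨s, ⟨hsA, fun hcon => hcon.1 ?_⟩, ?_⟩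
      · rw [hs2]
      · show (Γ s).1 = z
        rw [hs2]
    · refine ⟨s, ⟨hsA, fun hcon => hcon.2 ?_⟩, ?_⟩
      · rw [hs2]
      · show (Γ s).1 = z
        rw [hs2]

theorem massive_local {a : ℂ → ℝ} {μ : Measure ℂ} {m : ℂ → ℂ} (hD : Dat a μ m) : ∃ h κ₀ : ℝ, 0 < h ∧ 0 < κ₀ ∧
    ∀ᵐ x ∂μ, x ∈ ball (0 : ℂ) 1 → ∃ γ : ℝ → ℂ, γ 0 = x ∧ (∀ s ∈ Ioo (-h) h, γ s ∈ ball (0 : ℂ) 2 ∧ GA a γ s) ∧
      ∃ κ ≥ κ₀, ∀ A : Set ℝ, MeasurableSet A → A ⊆ Ioo (-h) h → μ (γ '' A) = ENNReal.ofReal κ * volume A := by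
  have hfin := hD.fin
  have hVf : IsFiniteMeasure (V μ m) := V_finite
  obtain ⟨X, φ, h, ℓ, hF⟩ := exists_flow hD.a_smooth hD.a_pos
  obtain ⟨c, hc, hat⟩ := atoms hD hF
  obtain ⟨c₁, K, r0, hc₁, hr0, hup, -⟩ := hD.dens
  have hh := hF.h_pos
  have hlp := hF.l_pos
  refine ⟨h / 2, 2 * c, by linarith, by linarith, ?_⟩
  have hae := ae_of_ae_V hD.m_meas hat
  filter_upwards [hae] with x hx hx1
  obtain ⟨hx2, -⟩ := hx
  obtain ⟨q, hqd⟩ : ∃ q : ℂ × ℂ, q = (x, tau m x) := ⟨_, rfl⟩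
  rw [← hqd] at hx2
  have hq1 : q.1 ∈ ball (0 : ℂ) 1 := by
    rw [hqd]
    exact hx1
  have hq : ‖q.2‖ = 1 := by
    rw [hqd]
    exact norm_tau hD.m_norm x
  have hat' := hx2 (ball_subset_ball (show (1 : ℝ) ≤ 5 / 4 by norm_num) hx1)
  obtain ⟨h', hh'⟩ : ∃ h' : ℝ, h' = h / 2 := ⟨_, rfl⟩
  rw [← hh']
  have hh'0 : 0 < h' := by linarith
  obtain ⟨I, hI⟩ : ∃ I : Set ℝ, I = Ioo (-h') h' := ⟨_, rfl⟩
  have hIm : MeasurableSet I := by
    rw [hI]
    exact measurableSet_Ioo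
  have hIt : ∀ t ∈ I, -h' < t ∧ t < h' := by
    intro t ht
    rw [hI] at ht
    exact ht
  have hIh : ∀ t ∈ I, t ∈ Ioo (-h) h := by
    intro t ht
    have h1 := hIt t ht
    exact ⟨by linarith [h1.1], by linarith [h1.2]⟩
  have hbase : ∀ t ∈ I, (φ t q).1 ∈ ball (0 : ℂ) (9 / 8) := fun t ht =>
    f09_base hF hq hq1 (hIh t ht)
  have hinj : InjOn (fun s => (φ s q).1) I := by
    intro s hs t ht hst
    by_contra hne
    have h0 : |t - s| ≤ h := by
      have h1 := hIt s hs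
      have h2 := hIt t ht
      rw [abs_le]
      constructor <;> linarith [h1.1, h1.2, h2.1, h2.2]
    have h1 := hF.move_low (φ s q) (t - s) (hF.norm s q hq)
      (ball_subset_ball (by norm_num) (hbase s hs)) h0
    rw [← hF.group, sub_add_cancel] at h1
    have h2 : (φ t q).1 - (φ s q).1 = 0 := sub_eq_zero.2 hst.symm
    rw [h2, norm_zero] at h1
    have h3 : 0 < |t - s| := abs_pos.2 (sub_ne_zero.2 (Ne.symm hne))
    nlinarith
  have hΓinj : InjOn (fun s => φ s q) I := fun s hs t ht hst =>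
    hinj hs ht (congrArg Prod.fst hst)
  have hΓc : Continuous (fun s => φ s q) := (f09_c2 hF q).continuous
  have hγc : Continuous (fun s => (φ s q).1) := continuous_fst.comp hΓc
  have himg : ∀ A : Set ℝ, MeasurableSet A → A ⊆ I →
      MeasurableSet ((fun s => φ s q) '' A) := fun A hA hAI =>
    hA.image_of_continuousOn_injOn hΓc.continuousOn (hΓinj.mono hAI)
  -- the measure on the interval
  have hme : MeasurableEmbedding (I.domRestrict (fun s => φ s q)) :=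
    ContinuousOn.measurableEmbedding hIm hΓc.continuousOn hΓinj
  obtain ⟨ν, hν⟩ : ∃ ν : Measure ℝ, ν =
      ((V μ m).comap (I.domRestrict (fun s => φ s q))).map Subtype.val := ⟨_, rfl⟩
  have hνA : ∀ A : Set ℝ, MeasurableSet A → A ⊆ I →
      ν A = V μ m ((fun s => φ s q) '' A) := by
    intro A hA hAI
    rw [hν, Measure.map_apply measurable_subtype_coe hA, hme.comap_apply]
    congr 1
    ext p
    constructor
    · rintro ⟨s, hs, rfl⟩
      exact ⟨s, hs, rfl⟩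
    · rintro ⟨s, hs, rfl⟩
      exact ⟨⟨s, hAI hs⟩, hs, rfl⟩
  have hνf : IsFiniteMeasure ν := by
    rw [hν]
    have hcf : IsFiniteMeasure ((V μ m).comap (I.domRestrict (fun s => φ s q))) :=
      ⟨by rw [hme.comap_apply]; exact measure_lt_top _ _⟩
    infer_instance
  -- invariance
  obtain ⟨κ, hκ0, hκ⟩ := transl_inv hh'0 ν (by
    intro s A hA hAI hAs
    rw [← hI] at hAI hAs
    rcases A.eq_empty_or_nonempty with he | ⟨t, ht⟩
    · rw [he]
      simp
    have hsh : |s| ≤ h := by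
      have h1 := hIt t (hAI ht)
      have h2 := hIt (t + s) (hAs ⟨t, ht, rfl⟩)
      rw [abs_le]
      constructor <;> linarith [h1.1, h1.2, h2.1, h2.2]
    have hAsm : MeasurableSet ((fun x => x + s) '' A) :=
      (measurableEmbedding_addRight s).measurableSet_image.2 hA
    rw [hνA _ hAsm hAs, hνA _ hA hAI]
    have h1 := map_flow hD hF (himg _ hAsm hAs) (by
      rintro _ ⟨t, ht, rfl⟩
      exact ball_subset_ball (by norm_num) (hbase t (hAs ht))) hsh
    rw [← h1]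
    congr 1
    ext p
    constructor
    · rintro ⟨_, ⟨u, hu, rfl⟩, hp⟩
      refine ⟨u, hu, ?_⟩
      have hp' : φ (u + s) q = φ s p := hp
      rw [add_comm, hF.group] at hp'
      have h2 := congrArg (φ (-s)) hp'
      have hcancel : ∀ p, φ (-s) (φ s p) = p := by
        intro p
        rw [← hF.group, neg_add_cancel, hF.zero]
      rw [hcancel, hcancel] at h2
      exact h2
    · rintro ⟨u, hu, rfl⟩
      refine ⟨u + s, ⟨u, hu, rfl⟩, ?_⟩
      show φ (u + s) q = φ s (φ u q)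
      rw [add_comm, hF.group])
  rw [← hI] at hκ
  have hκc : c ≤ κ := by
    have hr : h' / 2 ∈ Ioc 0 h := ⟨by linarith, by linarith⟩
    have h1 := hat' (h' / 2) hr
    have hIcc : Icc 0 (h' / 2) ⊆ I := by
      rw [hI]
      intro t ht
      exact ⟨by linarith [ht.1], by linarith [ht.2]⟩
    rw [← hνA _ measurableSet_Icc hIcc, hκ _ measurableSet_Icc hIcc, Real.volume_Icc, sub_zero,
      ← ENNReal.ofReal_mul hκ0] at h1
    have h2 := (ENNReal.ofReal_le_ofReal_iff (by positivity)).1 h1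
    nlinarith
  have hκpos : 0 < κ := lt_of_lt_of_le hc hκc
  refine ⟨fun s => (φ s q).1, ?_, ?_, 2 * κ, by linarith, ?_⟩
  · show (φ 0 q).1 = x
    rw [hF.zero, hqd]
  · intro s hs
    rw [← hI] at hs
    exact ⟨ball_subset_ball (by norm_num) (hbase s hs),
      f09_GA hD.a_smooth hD.a_pos hF hq hq1 (hIh s hs)⟩
  · intro A hA hAI
    rw [← hI] at hAI
    obtain ⟨N, hN⟩ : ∃ N : Set ℝ, N = {s | (φ s q).2 ≠ tau m (φ s q).1 ∧
      (φ s q).2 ≠ -tau m (φ s q).1} := ⟨_, rfl⟩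
    have hsplit : ∀ A : Set ℝ, MeasurableSet A → A ⊆ I →
        μ ((fun s => (φ s q).1) '' (A \ N)) = 2 * (ENNReal.ofReal κ * volume A) := by
      intro A hA hAI
      rw [hN, ← hκ A hA hAI, hνA A hA hAI]
      exact f09_split hD.m_meas hD.m_norm (Γ := fun s => φ s q) (himg A hA hAI)
        (hinj.mono hAI)
    have hNm : MeasurableSet N := by
      have m1 : Measurable (fun s => (φ s q).2) := (continuous_snd.comp hΓc).measurable
      have m2 : Measurable (fun s => tau m (φ s q).1) :=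
        (measurable_tau hD.m_meas).comp hγc.measurable
      rw [hN]
      exact (measurableSet_eq_fun m1 m2).compl.inter (measurableSet_eq_fun m1 m2.neg).compl
    have hNI := hsplit (N ∩ I) (hNm.inter hIm) inter_subset_right
    have he : (N ∩ I) \ N = ∅ := by
      rw [Set.eq_empty_iff_forall_notMem]
      rintro s ⟨hs1, hs2⟩
      exact hs2 hs1.1
    rw [he, image_empty, measure_empty] at hNI
    have hvol : volume (N ∩ I) = 0 := by
      have h1 : ENNReal.ofReal κ * volume (N ∩ I) = 0 := by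
        rcases mul_eq_zero.1 hNI.symm with h2 | h2
        · norm_num at h2
        · exact h2
      rcases mul_eq_zero.1 h1 with h2 | h2
      · exact absurd (ENNReal.ofReal_eq_zero.1 h2) (not_le.2 hκpos)
      · exact h2
    have hμN : μ ((fun s => (φ s q).1) '' (N ∩ I)) = 0 := by
      refine f09_null hr0 hup ?_ ?_
      · rintro _ ⟨s, hs, rfl⟩
        exact ball_subset_ball (by norm_num) (hbase s hs.2)
      · obtain ⟨L, hL⟩ := f09_lip hF q
        refine le_antisymm ((hL.hausdorffMeasure_image_le zero_le_one _).trans ?_) bot_le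
        rw [hausdorffMeasure_real, hvol, mul_zero]
    have h1 : μ ((fun s => (φ s q).1) '' A) = μ ((fun s => (φ s q).1) '' (A \ N)) := by
      refine le_antisymm ?_ (measure_mono (image_mono sdiff_subset))
      calc μ ((fun s => (φ s q).1) '' A) ≤
          μ ((fun s => (φ s q).1) '' (A \ N) ∪ (fun s => (φ s q).1) '' (N ∩ I)) := by
            refine measure_mono ?_
            rintro _ ⟨s, hs, rfl⟩
            by_cases hsN : s ∈ N
            · exact Or.inr ⟨s, ⟨hsN, hAI hs⟩, rfl⟩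
            · exact Or.inl ⟨s, ⟨hs, hsN⟩, rfl⟩
        _ ≤ _ := (measure_union_le _ _).trans (by rw [hμN, add_zero])
    rw [h1, hsplit A hA hAI, ENNReal.ofReal_mul (by norm_num), ENNReal.ofReal_ofNat, mul_assoc]

end Pool.Agent.Helper53.CL.F
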