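import Pool.Agent.Helper53.CL.Defs

/-!
# Block F of project CL: definitions

`gf a` is the geodesic vector field of the metric `a |dz|^2` on the bundle of unit vectors, in the coordinates `(z, ζ)`,
`|ζ| = 1`; the velocity is `a^(-1/2) ζ`.  `V μ m` is the measure on the unit vectors over `μ` with the directions
`±tau m z`, `(tau m z)^2 = -conj (m z)`.
-/

namespace Pool.Agent.Helper53.CL.F

open MeasureTheory Filter Topology Metric Set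
open scoped ContDiff Real ENNReal

/-- The Wirtinger derivative of `log a`. -/
noncomputable def lgz (a : ℂ → ℝ) (z : ℂ) : ℂ := dz (fun z => (Real.log (a z) : ℂ)) z

/-- The rotation speed of the direction along a geodesic. -/
noncomputable def rot (a : ℂ → ℝ) (q : ℂ × ℂ) : ℝ := -((√(a q.1))⁻¹ * (lgz a q.1 * q.2).im)

/-- The geodesic vector field. -/
noncomputable def gf (a : ℂ → ℝ) (q : ℂ × ℂ) : ℂ × ℂ :=
  ((((√(a q.1))⁻¹ : ℝ) : ℂ) * q.2, Complex.I * ((rot a q : ℝ) : ℂ) * q.2)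

/-- A square root of `-conj m`. -/
noncomputable def tau (m : ℂ → ℂ) (z : ℂ) : ℂ := (-(starRingEnd ℂ) (m z)) ^ (((2 : ℕ) : ℂ)⁻¹)

/-- The lift of the measure `μ` to the unit vectors. -/
noncomputable def V (μ : Measure ℂ) (m : ℂ → ℂ) : Measure (ℂ × ℂ) :=
  (2⁻¹ : ℝ≥0∞) • (μ.map (fun z => (z, tau m z)) + μ.map (fun z => (z, -tau m z)))

/-- The data of the local theorem. -/
structure Dat (a : ℂ → ℝ) (μ : Measure ℂ) (m : ℂ → ℂ) : Prop where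
  a_smooth : ContDiffOn ℝ ∞ a (ball 0 3)
  a_pos : ∀ z ∈ ball (0 : ℂ) 3, 0 < a z
  fin : IsFiniteMeasure μ
  m_meas : Measurable m
  m_norm : ∀ z, ‖m z‖ = 1
  laws : ∀ n : ℕ, Odd n → Law a μ m n
  dens : ∃ c K r0 : ℝ, 0 < c ∧ 0 < r0 ∧
    (∀ x ∈ ball (0 : ℂ) (3 / 2), ∀ r ∈ Ioo 0 r0, μ (ball x r) ≤ ENNReal.ofReal (K * r)) ∧
    (∀ x ∈ ball (0 : ℂ) (3 / 2), (∀ r > 0, 0 < μ (ball x r)) → ∀ r ∈ Ioo 0 r0, ENNReal.ofReal (c * r) ≤ μ (ball x r))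

/-- A cut off geodesic vector field with its flow. -/
structure FlowD (a : ℂ → ℝ) (X : ℂ × ℂ → ℂ × ℂ) (φ : ℝ → ℂ × ℂ → ℂ × ℂ) (h ℓ : ℝ) : Prop where
  X_smooth : ContDiff ℝ ∞ X
  X_supp : HasCompactSupport X
  X_eq : ∀ q : ℂ × ℂ, q.1 ∈ ball (0 : ℂ) (15 / 8) → ‖q.2‖ = 1 → X q = gf a q
  zero : ∀ q, φ 0 q = q
  deriv : ∀ q t, HasDerivAt (fun s => φ s q) (X (φ t q)) t
  cont : Continuous (fun p : ℝ × (ℂ × ℂ) => φ p.1 p.2)
  group : ∀ s t q, φ (s + t) q = φ s (φ t q)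
  lip : ∃ K : NNReal, ∀ s, |s| ≤ 1 → LipschitzWith K (φ s)
  norm : ∀ s q, ‖q.2‖ = 1 → ‖(φ s q).2‖ = 1
  h_pos : 0 < h
  h_le : h ≤ 1
  l_pos : 0 < ℓ
  move : ∀ q s, ‖q.2‖ = 1 → |s| ≤ h → ‖(φ s q).1 - q.1‖ ≤ 1 / 8
  move_low : ∀ q s, ‖q.2‖ = 1 → q.1 ∈ ball (0 : ℂ) (3 / 2) → |s| ≤ h → ℓ * |s| ≤ ‖(φ s q).1 - q.1‖

/-- The geodesic equation at the time `t`, for a curve in the chart with the metric `a |dz|^2`. -/
def GA (a : ℂ → ℝ) (c : ℝ → ℂ) (t : ℝ) : Prop :=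
  ContDiffAt ℝ 2 c t ∧ a (c t) * ‖_root_.deriv c t‖ ^ 2 = 1 ∧
    _root_.deriv (_root_.deriv c) t = -dz (fun z => (Real.log (a z) : ℂ)) (c t) * _root_.deriv c t ^ 2

end Pool.Agent.Helper53.CL.F
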